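import Pool.Agent.Run7.h333.CZ.PrimeFld

/-!
# CM fields of degree `2 p`: the main theorem
-/

set_option autoImplicit false

open scoped Classical
open NumberField

namespace Pool.Agent.Run7.h333.CZ

open Pool.Agent.N770.CP
open Pool.Agent.Results.MP_a2beea_nt.AveragedAndAbelian

variable {E K : Type} [Field E] [NumberField E] [Field K] [NumberField K]

/-- double transitivity on the embeddings of the maximal real subfield. -/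
def DT (E K : Type) [Field E] [NumberField E] [Field K] [NumberField K] : Prop :=
  ∀ f₁ f₂ f₁' f₂' : maximalRealSubfield E →ₐ[ℚ] K, f₁ ≠ f₂ → f₁' ≠ f₂' →
    ∃ g : K ≃ₐ[ℚ] K, act g f₁ = f₁' ∧ act g f₂ = f₂'

/-- double homogeneity on the embeddings of the maximal real subfield. -/
def DH (E K : Type) [Field E] [NumberField E] [Field K] [NumberField K] : Prop :=
  ∀ f₁ f₂ f₁' f₂' : maximalRealSubfield E →ₐ[ℚ] K, f₁ ≠ f₂ → f₁' ≠ f₂' →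
    ∃ g : K ≃ₐ[ℚ] K, (act g f₁ = f₁' ∧ act g f₂ = f₂') ∨ (act g f₁ = f₂' ∧ act g f₂ = f₁')

variable [IsGalois ℚ K] [IsCMField E] [IsCMField K]

omit [IsGalois ℚ K] in
lemma res_smul_iff (g : K ≃ₐ[ℚ] K) (x y : E →ₐ[ℚ] K) :
    act g (res x) = res y ↔ (g • x = y ∨ g • x = conjugation K • y) := by
  rw [← res_eq_iff y (g • x)]
  rfl

lemma dbl_iff (ψ : E →ₐ[ℚ] K) : Dbl (E →ₐ[ℚ] K) (conjugation K) ↔ DT E K := by
  constructor
  · intro h f₁ f₂ f₁' f₂' h1 h2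
    obtain ⟨x, rfl⟩ := res_surj ψ f₁
    obtain ⟨y, rfl⟩ := res_surj ψ f₂
    obtain ⟨x', rfl⟩ := res_surj ψ f₁'
    obtain ⟨y', rfl⟩ := res_surj ψ f₂'
    have h3 : ¬ (y = x ∨ y = conjugation K • x) := by
      rw [← res_eq_iff]
      exact h1.symm
    have h4 : ¬ (y' = x' ∨ y' = conjugation K • x') := by
      rw [← res_eq_iff]
      exact h2.symm
    push Not at h3 h4
    obtain ⟨g, hg⟩ := h x y x' y' h3.1 h3.2 h4.1 h4.2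
    rw [← res_smul_iff, ← res_smul_iff] at hg
    exact ⟨g, hg⟩
  · intro h x y x' y' h1 h2 h3 h4
    obtain ⟨g, hg⟩ := h (res x) (res y) (res x') (res y')
      (fun e => (not_or.mpr ⟨h1, h2⟩) ((res_eq_iff x y).mp e.symm))
      (fun e => (not_or.mpr ⟨h3, h4⟩) ((res_eq_iff x' y').mp e.symm))
    rw [res_smul_iff, res_smul_iff] at hg
    exact ⟨g, hg⟩

lemma hmg_iff (ψ : E →ₐ[ℚ] K) : Hmg (E →ₐ[ℚ] K) (conjugation K) ↔ DH E K := by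
  constructor
  · intro h f₁ f₂ f₁' f₂' h1 h2
    obtain ⟨x, rfl⟩ := res_surj ψ f₁
    obtain ⟨y, rfl⟩ := res_surj ψ f₂
    obtain ⟨x', rfl⟩ := res_surj ψ f₁'
    obtain ⟨y', rfl⟩ := res_surj ψ f₂'
    have h3 : ¬ (y = x ∨ y = conjugation K • x) := by
      rw [← res_eq_iff]
      exact h1.symm
    have h4 : ¬ (y' = x' ∨ y' = conjugation K • x') := by
      rw [← res_eq_iff]
      exact h2.symm
    push Not at h3 h4
    obtain ⟨g, hg⟩ := h x y x' y' h3.1 h3.2 h4.1 h4.2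
    rw [← res_smul_iff, ← res_smul_iff, ← res_smul_iff, ← res_smul_iff] at hg
    exact ⟨g, hg⟩
  · intro h x y x' y' h1 h2 h3 h4
    obtain ⟨g, hg⟩ := h (res x) (res y) (res x') (res y')
      (fun e => (not_or.mpr ⟨h1, h2⟩) ((res_eq_iff x y).mp e.symm))
      (fun e => (not_or.mpr ⟨h3, h4⟩) ((res_eq_iff x' y').mp e.symm))
    rw [res_smul_iff, res_smul_iff, res_smul_iff, res_smul_iff] at hg
    exact ⟨g, hg⟩

omit [IsCMField E] in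
lemma mem_avg_iff (ψ : E →ₐ[ℚ] K) {Φ : Finset (E →ₐ[ℚ] K)} (hΦ : IsCMType Φ) :
    a0 ψ Φ ∈ avgSpan K ↔
      Pool.Agent.Q11.CZ.ZInv (Pool.Agent.Q11.CZ.a0 ψ Φ : (K ≃ₐ[ℚ] K) → ℚ) := by
  rw [(result K).1 _, a0_eq]
  constructor
  · exact fun h => h.2
  · intro h
    refine ⟨?_, h⟩
    rw [← a0_eq]
    exact a0_cm ψ hΦ

omit [IsCMField E] in
lemma height_avg_iff {Φ : Finset (E →ₐ[ℚ] K)} (hΦ : IsCMType Φ) :
    heightFn Φ ∈ avgSpan K ↔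
      Pool.Agent.Q11.CZ.ZInv (Pool.Agent.Q11.CZ.T Φ : (K ≃ₐ[ℚ] K) → ℚ) := by
  rw [(result K).1 _, heightFn_eq]
  constructor
  · exact fun h => h.2
  · intro h
    refine ⟨?_, h⟩
    rw [← heightFn_eq]
    exact height_cm hΦ

omit [IsCMField E] in
lemma mem_sup_iff (ψ : E →ₐ[ℚ] K) {Φ : Finset (E →ₐ[ℚ] K)} (hΦ : IsCMType Φ) :
    a0 ψ Φ ∈ avgSpan K ⊔ abSpan K ↔
      Pool.Agent.Q11.CZ.Twist (Pool.Agent.Q11.CZ.a0 ψ Φ : (K ≃ₐ[ℚ] K) → ℚ) := by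
  rw [(result K).2.1 _, a0_eq]
  constructor
  · exact fun h => h.2
  · intro h
    refine ⟨?_, h⟩
    rw [← a0_eq]
    exact a0_cm ψ hΦ

omit [IsCMField E] in
lemma height_sup_iff {Φ : Finset (E →ₐ[ℚ] K)} (hΦ : IsCMType Φ) :
    heightFn Φ ∈ avgSpan K ⊔ abSpan K ↔
      Pool.Agent.Q11.CZ.Twist (Pool.Agent.Q11.CZ.T Φ : (K ≃ₐ[ℚ] K) → ℚ) := by
  rw [(result K).2.1 _, heightFn_eq]
  constructor
  · exact fun h => h.2
  · intro h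
    refine ⟨?_, h⟩
    rw [← heightFn_eq]
    exact height_cm hΦ

/-- **No quadratic subfield.** -/
theorem prime_no_quad (hp : (Module.finrank ℚ (maximalRealSubfield E)).Prime)
    (hp2 : Module.finrank ℚ (maximalRealSubfield E) ≠ 2)
    (hno : ∀ k : IntermediateField ℚ E, Module.finrank ℚ k ≠ 2)
    {Φ : Finset (E →ₐ[ℚ] K)} (hΦ : IsCMType Φ) (ψ : E →ₐ[ℚ] K) : a0 ψ Φ ∈ avgSpan K := by
  rw [mem_avg_iff ψ hΦ]
  refine zinv_a0_of_no_sub (c := conjugation K) Pool.Agent.Q11.CZ.conj_comm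
    Pool.Agent.Q11.CZ.conj_mul_self conj_ne_one conj_free hp hp2
    ((card_emb ψ).trans finrank_E) ?_ ψ (isHalf hΦ)
  rintro ⟨H, h1, h2, h3⟩
  obtain ⟨k, hk⟩ := quad_of_sub ψ h1 h2 h3
  exact hno k hk

/-- **A quadratic subfield.** -/
theorem prime_quad (hE : Nonempty (E →ₐ[ℚ] K))
    (hp : (Module.finrank ℚ (maximalRealSubfield E)).Prime)
    (hp2 : Module.finrank ℚ (maximalRealSubfield E) ≠ 2)
    (hq : ∃ k : IntermediateField ℚ E, Module.finrank ℚ k = 2) :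
    ((∀ Φ : Finset (E →ₐ[ℚ] K), IsCMType Φ → ∀ ψ : E →ₐ[ℚ] K, a0 ψ Φ ∈ avgSpan K) ↔ DT E K) ∧
    ((∀ Φ : Finset (E →ₐ[ℚ] K), IsCMType Φ → heightFn Φ ∈ avgSpan K) ↔ DH E K) ∧
    ((∀ Φ : Finset (E →ₐ[ℚ] K), IsCMType Φ → ∀ ψ : E →ₐ[ℚ] K, a0 ψ Φ ∈ avgSpan K ⊔ abSpan K) ↔
      (DT E K ∨ IsAbelianGalois ℚ E)) ∧
    ((∀ Φ : Finset (E →ₐ[ℚ] K), IsCMType Φ → heightFn Φ ∈ avgSpan K ⊔ abSpan K) ↔
      (DH E K ∨ IsAbelianGalois ℚ E)) := by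
  obtain ⟨ψ⟩ := hE
  obtain ⟨k, hk⟩ := hq
  obtain ⟨H, h1, h2, h3⟩ := sub_of_quad (hp.odd_of_ne_two hp2) ψ k hk
  have hX := (card_emb (K := K) ψ).trans finrank_E
  have hcc : conjugation K * conjugation K = 1 := Pool.Agent.Q11.CZ.conj_mul_self
  have hab : (∀ z ∈ commutator (K ≃ₐ[ℚ] K), ∀ θ : E →ₐ[ℚ] K, z • θ = θ) ↔
      IsAbelianGalois ℚ E :=
    ⟨fun h => abelian_of_triv ψ h, fun h z hz θ => Pool.Agent.Q11.CZ.comm_act z hz θ⟩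
  refine ⟨?_, ?_, ?_, ?_⟩
  · rw [← dbl_iff ψ, ← zinv_a0_iff (c := conjugation K) Pool.Agent.Q11.CZ.conj_comm hcc
      conj_free h1 h2 h3 hp hp2 hX]
    exact ⟨fun h Φ hΦ x => (mem_avg_iff x hΦ).mp (h Φ hΦ x),
      fun h Φ hΦ x => (mem_avg_iff x hΦ).mpr (h Φ hΦ x)⟩
  · rw [← hmg_iff ψ, ← zinv_T_iff (c := conjugation K) Pool.Agent.Q11.CZ.conj_comm hcc
      conj_free h1 h2 h3 hp hp2 hX]
    exact ⟨fun h Φ hΦ => (height_avg_iff hΦ).mp (h Φ hΦ),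
      fun h Φ hΦ => (height_avg_iff hΦ).mpr (h Φ hΦ)⟩
  · rw [← dbl_iff ψ, ← hab, ← twist_a0_iff (c := conjugation K) Pool.Agent.Q11.CZ.conj_comm hcc
      conj_free h1 h2 h3 hp hp2 hX]
    exact ⟨fun h Φ hΦ x => (mem_sup_iff x hΦ).mp (h Φ hΦ x),
      fun h Φ hΦ x => (mem_sup_iff x hΦ).mpr (h Φ hΦ x)⟩
  · rw [← hmg_iff ψ, ← hab, ← twist_T_iff (c := conjugation K) Pool.Agent.Q11.CZ.conj_comm hcc
      conj_free h1 h2 h3 hp hp2 hX]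
    exact ⟨fun h Φ hΦ => (height_sup_iff hΦ).mp (h Φ hΦ),
      fun h Φ hΦ => (height_sup_iff hΦ).mpr (h Φ hΦ)⟩

end Pool.Agent.Run7.h333.CZ
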