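import Pool.Agent.Run7.h333.CZ.Crit2

/-!
# Doubly transitive actions on the pairs: the signed adjacency matrix
-/

set_option autoImplicit false

open scoped Classical

namespace Pool.Agent.Run7.h333.CZ

open Pool.Agent.Q11.CZ Pool.Agent.N770.CP

variable {G : Type} [Group G] [Fintype G] {X : Type} [Fintype X] [MulAction G X]

/-- the signed adjacency function of the orbit of `(x, y)`. -/
noncomputable def sgn (G : Type) [Group G] {X : Type} [MulAction G X] (c : G) (x y u v : X) : ℤ :=
  if ∃ g : G, g • x = u ∧ g • y = v then 1 else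
    if ∃ g : G, g • x = u ∧ g • y = c • v then -1 else 0

/-- a signed adjacency matrix. -/
structure IsSgn (G : Type) [Group G] (X : Type) [Fintype X] [MulAction G X] (c : G)
    (S : X → X → ℤ) (ε : ℤ) : Prop where
  inv : ∀ (g : G) (u v : X), S (g • u) (g • v) = S u v
  right : ∀ u v : X, S u (c • v) = - S u v
  self : ∀ u : X, S u u = 0
  sq : ∀ u v : X, v ≠ u → v ≠ c • u → S u v = 1 ∨ S u v = -1
  symm : ∀ u v : X, S v u = ε * S u v
  eps : ε = 1 ∨ ε = -1

section

variable {c : G} (hc : ∀ g, c * g = g * c) (hc2 : c * c = 1) (hcf : ∀ x : X, c • x ≠ x)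

omit [Fintype G] in
include hc hc2 in
/-- **Linked points of a doubly transitive action.** -/
theorem exists_sgn (hD : Dbl X c) {x y : X} (hyx : y ≠ x) (hycx : y ≠ c • x)
    (hnl : ¬ ∃ k : G, k • x = x ∧ k • y = c • y) :
    ∃ (S : X → X → ℤ) (ε : ℤ), IsSgn G X c S ε := by
  have hcc : ∀ x : X, c • (c • x) = x := fun x => by rw [← mul_smul, hc2, one_smul]
  have hcomm : ∀ (g : G) (z : X), g • (c • z) = c • (g • z) := fun g z => by
    rw [← mul_smul, ← mul_smul, hc]
  set A : X → X → Prop := fun u v => ∃ g : G, g • x = u ∧ g • y = v with hA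
  have hS : ∀ u v, sgn G c x y u v = if A u v then 1 else if A u (c • v) then -1 else 0 :=
    fun u v => rfl
  have hAg : ∀ (g : G) (u v : X), A (g • u) (g • v) ↔ A u v := by
    intro g u v
    constructor
    · rintro ⟨k, h1, h2⟩
      refine ⟨g⁻¹ * k, ?_, ?_⟩
      · rw [mul_smul, h1, inv_smul_smul]
      · rw [mul_smul, h2, inv_smul_smul]
    · rintro ⟨k, h1, h2⟩
      exact ⟨g * k, by rw [mul_smul, h1], by rw [mul_smul, h2]⟩
  have hnot : ∀ u v : X, A u v → ¬ A u (c • v) := by
    rintro u v ⟨g, h1, h2⟩ ⟨k, h3, h4⟩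
    apply hnl
    refine ⟨g⁻¹ * k, ?_, ?_⟩
    · rw [mul_smul, h3, ← h1, inv_smul_smul]
    · rw [mul_smul, h4, ← h2, ← hcomm, inv_smul_smul]
  have hAu : ∀ u v : X, A u v → v ≠ u ∧ v ≠ c • u := by
    rintro u v ⟨g, h1, h2⟩
    constructor
    · intro h
      apply hyx
      rw [← h1, ← h2] at h
      exact (MulAction.injective g) h
    · intro h
      apply hycx
      rw [← h1, ← h2, ← hcomm] at h
      exact (MulAction.injective g) h
  have hAor : ∀ u v : X, v ≠ u → v ≠ c • u → (A u v ∨ A u (c • v)) := by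
    intro u v h1 h2
    obtain ⟨g, hg1, hg2⟩ := hD x y u v hyx hycx h1 h2
    rcases hg1 with h3 | h3 <;> rcases hg2 with h4 | h4
    · exact Or.inl ⟨g, h3, h4⟩
    · exact Or.inr ⟨g, h3, h4⟩
    · exact Or.inr ⟨c * g, by rw [mul_smul, h3, hcc], by rw [mul_smul, h4]⟩
    · exact Or.inl ⟨c * g, by rw [mul_smul, h3, hcc], by rw [mul_smul, h4, hcc]⟩
  have hAcc : ∀ u v : X, A (c • u) (c • v) ↔ A u v := fun u v => hAg c u v
  -- values
  have v1 : ∀ u v, A u v → sgn G c x y u v = 1 := fun u v h => by rw [hS, if_pos h]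
  have v2 : ∀ u v, A u (c • v) → sgn G c x y u v = -1 := fun u v h => by
    have h1 : ¬ A u v := fun h1 => hnot u v h1 h
    rw [hS, if_neg h1, if_pos h]
  have v3 : ∀ u v, ¬ A u v → ¬ A u (c • v) → sgn G c x y u v = 0 := fun u v h h' => by
    rw [hS, if_neg h, if_neg h']
  have hinv : ∀ (g : G) (u v : X), sgn G c x y (g • u) (g • v) = sgn G c x y u v := by
    intro g u v
    rw [hS, hS, ← hcomm, hAg, hAg]
  have hright : ∀ u v : X, sgn G c x y u (c • v) = - sgn G c x y u v := by
    intro u v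
    by_cases h1 : A u v
    · rw [v1 u v h1, v2 u (c • v) (by rw [hcc]; exact h1)]
    · by_cases h2 : A u (c • v)
      · rw [v1 u (c • v) h2, v2 u v h2, neg_neg]
      · rw [v3 u v h1 h2, v3 u (c • v) h2 (by rw [hcc]; exact h1), neg_zero]
  have hself : ∀ u : X, sgn G c x y u u = 0 := by
    intro u
    refine v3 u u (fun h => (hAu u u h).1 rfl) (fun h => (hAu u (c • u) h).2 rfl)
  have hsq : ∀ u v : X, v ≠ u → v ≠ c • u → sgn G c x y u v = 1 ∨ sgn G c x y u v = -1 := by
    intro u v h1 h2
    rcases hAor u v h1 h2 with h | h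
    · exact Or.inl (v1 u v h)
    · exact Or.inr (v2 u v h)
  have hleft : ∀ u v : X, sgn G c x y (c • u) v = - sgn G c x y u v := by
    intro u v
    have h1 := hinv c u (c • v)
    rw [hcc, hright] at h1
    exact h1
  -- the symmetry
  set ε : ℤ := sgn G c x y y x with hε
  have hxy : x ≠ c • y := fun h => hycx (by rw [h, hcc])
  have heps : ε = 1 ∨ ε = -1 := hsq y x (Ne.symm hyx) hxy
  have hA1 : ∀ u v, A u v → sgn G c x y v u = ε := by
    rintro u v ⟨g, rfl, rfl⟩
    rw [hinv]
  refine ⟨sgn G c x y, ε, hinv, hright, hself, hsq, ?_, heps⟩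
  intro u v
  by_cases h1 : v = u
  · rw [h1, hself, mul_zero]
  by_cases h2 : v = c • u
  · rw [h2, hright, hself, neg_zero, mul_zero, hleft, hself, neg_zero]
  rcases hAor u v h1 h2 with h | h
  · rw [v1 u v h, hA1 u v h, mul_one]
  · rw [v2 u v h]
    have h3 := hA1 u (c • v) h
    rw [hleft] at h3
    rw [← h3]
    ring

variable {S : X → X → ℤ} {ε : ℤ} (hS : IsSgn G X c S ε)

omit [Fintype G] in
include hS hc2 in
lemma IsSgn.left (u v : X) : S (c • u) v = - S u v := by
  have h1 := hS.inv c u (c • v)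
  rw [← mul_smul, hc2, one_smul, hS.right] at h1
  exact h1

omit [Fintype G] in
include hS in
lemma IsSgn.eps_sq : ε * ε = 1 := by
  rcases hS.eps with h | h <;> rw [h] <;> norm_num

/-- the entries of the square. -/
noncomputable def Qs (S : X → X → ℤ) (u v : X) : ℤ := ∑ w, S u w * S w v

omit [Fintype G] in
include hS hc2 in
lemma Qs_left (u v : X) : Qs S (c • u) v = - Qs S u v := by
  unfold Qs
  rw [← Finset.sum_neg_distrib]
  exact Finset.sum_congr rfl (fun w _ => by rw [hS.left hc2]; ring)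

omit [Fintype G] in
include hS in
lemma Qs_right (u v : X) : Qs S u (c • v) = - Qs S u v := by
  unfold Qs
  rw [← Finset.sum_neg_distrib]
  exact Finset.sum_congr rfl (fun w _ => by rw [hS.right]; ring)

omit [Fintype G] in
include hS in
lemma Qs_smul (g : G) (u v : X) : Qs S (g • u) (g • v) = Qs S u v := by
  unfold Qs
  refine (Fintype.sum_equiv (MulAction.toPerm g) _ _ (fun w => ?_)).symm
  rw [MulAction.toPerm_apply, hS.inv, hS.inv]

omit [Fintype G] in
include hS in
lemma Qs_symm (u v : X) : Qs S v u = Qs S u v := by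
  unfold Qs
  refine Finset.sum_congr rfl (fun w _ => ?_)
  rw [hS.symm w v, hS.symm u w]
  have := hS.eps_sq
  linear_combination (S w v * S u w) * this

omit [Fintype G] in
include hS hcf in
lemma Qs_self (u : X) : Qs S u u = ε * (Fintype.card X - 2) := by
  have h1 : ∀ w, S u w * S w u = ε * (1 - (if w = u then 1 else 0) - if w = c • u then 1 else 0) := by
    intro w
    rw [hS.symm u w]
    by_cases h1 : w = u
    · have h2 : u ≠ c • u := (hcf u).symm
      rw [h1, hS.self, if_pos rfl, if_neg h2]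
      ring
    · by_cases h2 : w = c • u
      · rw [h2, hS.right, hS.self, if_neg (hcf u), if_pos rfl]
        ring
      · rw [if_neg h1, if_neg h2]
        rcases hS.sq u w h1 h2 with h | h <;> rw [h] <;> ring
  unfold Qs
  rw [Finset.sum_congr rfl (fun w _ => h1 w), ← Finset.mul_sum, Finset.sum_sub_distrib,
    Finset.sum_sub_distrib, Finset.sum_ite_eq', Finset.sum_ite_eq', if_pos (Finset.mem_univ _),
    if_pos (Finset.mem_univ _)]
  simp only [Finset.sum_const, Finset.card_univ, nsmul_eq_mul, mul_one]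
  ring

omit [Fintype G] in
include hS hc2 hcf in
/-- **The quadratic equation.** -/
theorem exists_b (hD : Dbl X c) {x y : X} (hyx : y ≠ x) (hycx : y ≠ c • x) (hxy : S x y = 1) :
    ∀ u v : X, Qs S u v = ε * (Fintype.card X - 2) *
      ((if v = u then 1 else 0) - if v = c • u then 1 else 0) + Qs S x y * S u v := by
  intro u v
  by_cases h1 : v = u
  · have h2 : u ≠ c • u := (hcf u).symm
    rw [h1, Qs_self hcf hS, hS.self, if_pos rfl, if_neg h2]
    ring
  by_cases h2 : v = c • u
  · rw [h2, Qs_right hS, Qs_self hcf hS, hS.right, hS.self, if_neg (hcf u), if_pos rfl]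
    ring
  rw [if_neg h1, if_neg h2]
  obtain ⟨g, hg1, hg2⟩ := hD x y u v hyx hycx h1 h2
  have h3 : Qs S (g • x) (g • y) = Qs S x y * S (g • x) (g • y) := by
    rw [Qs_smul hS, hS.inv, hxy, mul_one]
  have hcc : ∀ x : X, c • (c • x) = x := fun x => by rw [← mul_smul, hc2, one_smul]
  rcases hg1 with h4 | h4 <;> rcases hg2 with h5 | h5 <;> rw [h4, h5] at h3
  · rw [h3]; ring
  · rw [Qs_right hS, hS.right] at h3
    linarith
  · rw [Qs_left hc2 hS, hS.left hc2] at h3
    linarith
  · rw [Qs_left hc2 hS, hS.left hc2, Qs_right hS, hS.right] at h3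
    linarith

end

end Pool.Agent.Run7.h333.CZ
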