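import Pool.Agent.Run7.h333.CZ.Cf

/-!
# Doubly transitive actions on the pairs: the eigenvalues
-/

set_option autoImplicit false

open scoped Classical

namespace Pool.Agent.Run7.h333.CZ

open Pool.Agent.Q11.CZ Pool.Agent.N770.CP

section idem

variable {X : Type} [Fintype X]

/-- the trace of an idempotent matrix. -/
lemma idem_trace (P : Matrix X X ℂ) (hP : P * P = P) : ∃ r : ℕ, P.trace = r := by
  have h1 : LinearMap.IsProj (LinearMap.range P.toLin') P.toLin' := by
    refine ⟨fun x => ⟨x, rfl⟩, ?_⟩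
    rintro _ ⟨y, rfl⟩
    have h2 : P.toLin' ∘ₗ P.toLin' = P.toLin' := by
      rw [← Matrix.toLin'_mul, hP]
    exact congrArg (fun f : (X → ℂ) →ₗ[ℂ] (X → ℂ) => f y) h2
  exact ⟨_, (Matrix.trace_toLin'_eq P).symm.trans h1.trace⟩

end idem

variable {G : Type} [Group G] [Fintype G] {X : Type} [Fintype X] [MulAction G X]

section

variable {c : G} (hc : ∀ g, c * g = g * c) (hc2 : c * c = 1) (hcf : ∀ x : X, c • x ≠ x)
variable {S : X → X → ℤ} {ε : ℤ} (hS : IsSgn G X c S ε)

omit [Fintype G] in
include hS hc2 hcf in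
/-- **The trace argument.** -/
theorem trace_arg {b : ℤ}
    (hb : ∀ u v : X, Qs S u v = ε * (Fintype.card X - 2) *
      ((if v = u then 1 else 0) - if v = c • u then 1 else 0) + b * S u v)
    {t : ℂ} (ht : t * t = b * b + 8 * ε * (Fintype.card X - 2)) (ht0 : t ≠ 0) :
    ∃ r : ℕ, (Fintype.card X : ℂ) * (1 - b / t) = 4 * r := by
  have hcc : ∀ x : X, c • (c • x) = x := fun x => by rw [← mul_smul, hc2, one_smul]
  obtain ⟨D, hD⟩ : ∃ D : Matrix X X ℂ, ∀ u v, D u v =
      (if v = u then 1 else 0) - if v = c • u then 1 else 0 := ⟨Matrix.of fun u v => _, fun _ _ => rfl⟩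
  obtain ⟨M, hM⟩ : ∃ M : Matrix X X ℂ, ∀ u v, M u v = (S u v : ℂ) :=
    ⟨Matrix.of fun u v => _, fun _ _ => rfl⟩
  have hMM : M * M = (ε * (Fintype.card X - 2) : ℂ) • D + (b : ℂ) • M := by
    ext u v
    rw [Matrix.mul_apply]
    have h1 := congrArg (fun z : ℤ => (z : ℂ)) (hb u v)
    unfold Qs at h1
    push_cast at h1
    simp only [hM, hD, Matrix.add_apply, Matrix.smul_apply, smul_eq_mul]
    rw [h1]
  have hswap : ∀ u v : X, v = c • u ↔ u = c • v := fun u v =>
    ⟨fun h => by rw [h, hcc], fun h => by rw [h, hcc]⟩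
  have hMD : M * D = (2 : ℂ) • M := by
    ext u v
    rw [Matrix.mul_apply]
    simp only [hM, hD, Matrix.smul_apply, smul_eq_mul, mul_sub, mul_ite, mul_one, mul_zero,
      Finset.sum_sub_distrib]
    rw [Finset.sum_ite_eq, if_pos (Finset.mem_univ _)]
    have h1 : ∀ w : X, (if v = c • w then (S u w : ℂ) else 0) =
        if w = c • v then (S u w : ℂ) else 0 := fun w => by simp only [hswap w v]
    rw [Finset.sum_congr rfl (fun w _ => h1 w), Finset.sum_ite_eq', if_pos (Finset.mem_univ _),
      hS.right]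
    push_cast
    ring
  have hDM : D * M = (2 : ℂ) • M := by
    ext u v
    rw [Matrix.mul_apply]
    simp only [hM, hD, Matrix.smul_apply, smul_eq_mul, sub_mul, ite_mul, one_mul, zero_mul,
      Finset.sum_sub_distrib]
    rw [Finset.sum_ite_eq', if_pos (Finset.mem_univ _), Finset.sum_ite_eq',
      if_pos (Finset.mem_univ _), hS.left hc2]
    push_cast
    ring
  have hDD : D * D = (2 : ℂ) • D := by
    ext u v
    rw [Matrix.mul_apply]
    simp only [hD, Matrix.smul_apply, smul_eq_mul, sub_mul, ite_mul, one_mul, zero_mul,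
      Finset.sum_sub_distrib]
    rw [Finset.sum_ite_eq', if_pos (Finset.mem_univ _), Finset.sum_ite_eq',
      if_pos (Finset.mem_univ _), hcc]
    ring
  set α : ℂ := (1 - b / t) / 4 with hα
  set β : ℂ := 1 / t with hβ
  set P : Matrix X X ℂ := α • D + β • M with hP
  have hPP : P * P = P := by
    rw [hP, add_mul, mul_add, mul_add, Matrix.smul_mul, Matrix.smul_mul, Matrix.smul_mul,
      Matrix.smul_mul, Matrix.mul_smul, Matrix.mul_smul, Matrix.mul_smul, Matrix.mul_smul,
      hDD, hDM, hMD, hMM]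
    simp only [smul_add, smul_smul]
    have e1 : α * (α * 2) + β * (β * (ε * (Fintype.card X - 2))) = α := by
      rw [hα, hβ]
      field_simp
      linear_combination (-2 : ℂ) * ht
    have e2 : α * (β * 2) + β * (α * 2) + β * (β * b) = β := by
      rw [hα, hβ]
      field_simp
      ring
    calc (α * (α * 2)) • D + (α * (β * 2)) • M +
          ((β * (α * 2)) • M + ((β * (β * (↑ε * (↑(Fintype.card X) - 2)))) • D +
            (β * (β * ↑b)) • M))
        = (α * (α * 2) + β * (β * (ε * (Fintype.card X - 2)))) • D +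
          (α * (β * 2) + β * (α * 2) + β * (β * b)) • M := by
          simp only [add_smul]
          abel
      _ = α • D + β • M := by rw [e1, e2]
  obtain ⟨r, hr⟩ := idem_trace P hPP
  refine ⟨r, ?_⟩
  have h1 : P.trace = (Fintype.card X : ℂ) * α := by
    unfold Matrix.trace
    have h2 : ∀ u, P.diag u = α := by
      intro u
      rw [Matrix.diag_apply, hP, Matrix.add_apply, Matrix.smul_apply, Matrix.smul_apply]
      simp only [hD, hM]
      rw [hS.self, if_neg (hcf u).symm]
      simp
    rw [Finset.sum_congr rfl (fun u _ => h2 u), Finset.sum_const, Finset.card_univ,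
      nsmul_eq_mul]
  rw [← hr, h1, hα]
  ring

omit [Fintype G] in
include hS hc2 hcf in
/-- rational square roots. -/
theorem rat_sqrt {b : ℤ}
    (hb : ∀ u v : X, Qs S u v = ε * (Fintype.card X - 2) *
      ((if v = u then 1 else 0) - if v = c • u then 1 else 0) + b * S u v)
    {t : ℂ} (ht : t * t = b * b + 8 * ε * (Fintype.card X - 2)) (ht0 : t ≠ 0)
    (hX : 0 < Fintype.card X) :
    (∃ q : ℚ, t = q) ∨ (b = 0 ∧ 4 ∣ Fintype.card X) := by
  obtain ⟨r, hr⟩ := trace_arg hc2 hcf hS hb ht ht0
  by_cases hb0 : b = 0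
  · right
    refine ⟨hb0, ⟨r, ?_⟩⟩
    rw [hb0, Int.cast_zero, zero_div, sub_zero, mul_one] at hr
    exact_mod_cast hr
  · left
    have h1 : (Fintype.card X : ℂ) * b = (Fintype.card X - 4 * r) * t := by
      rw [← hr]
      field_simp
      ring
    have h2 : ((Fintype.card X : ℂ) - 4 * r) ≠ 0 := by
      intro h
      rw [h, zero_mul] at h1
      rcases mul_eq_zero.mp h1 with h3 | h3
      · have : (Fintype.card X : ℂ) ≠ 0 := by exact_mod_cast hX.ne'
        exact this h3
      · exact hb0 (by exact_mod_cast h3)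
    refine ⟨(Fintype.card X * b) / (Fintype.card X - 4 * r), ?_⟩
    push_cast
    rw [eq_div_iff h2, h1]
    ring

omit [Fintype X] in
/-- the central operator at the value of an equivariant odd map. -/
lemma cop_T [Fintype X] {W : Type} [AddCommGroup W] [Module ℂ W] (ρ : Representation ℂ G W)
    {T : X → W} (hT : ∀ (g : G) (y : X), T (g • y) = ρ g (T y)) (hTc : ∀ y, T (c • y) = - T y)
    (a : G → ℂ) (x : X) :
    (2 : ℂ) • cop ρ a (T x) = ∑ y, (∑ g, a g * (dlF c x y g : ℂ)) • T y := by
  have h2 : cop ρ a (T x) = ∑ y, (∑ g, a g * (cnt x y g : ℂ)) • T y := by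
    rw [cop_apply]
    simp only [Finset.sum_smul]
    rw [Finset.sum_comm]
    refine Finset.sum_congr rfl (fun g _ => ?_)
    have h3 : ∀ k : G, ρ (k⁻¹ * g * k) (T x) =
        ∑ y, if (k⁻¹ * g * k) • x = y then T y else 0 := by
      intro k
      rw [Finset.sum_ite_eq, if_pos (Finset.mem_univ _), hT]
    simp only [h3]
    rw [Finset.sum_comm, Finset.smul_sum]
    refine Finset.sum_congr rfl (fun y _ => ?_)
    rw [← Finset.sum_filter, Finset.sum_const, mul_smul]
    congr 1
    unfold cnt
    rw [Nat.cast_smul_eq_nsmul]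
  have h3 : cop ρ a (T x) = ∑ y, (∑ g, a g * (cnt x (c • y) g : ℂ)) • T (c • y) := by
    rw [h2]
    exact (Fintype.sum_equiv (MulAction.toPerm c) _ _ (fun y => rfl)).symm
  rw [two_smul]
  conv_lhs => lhs; rw [h2]
  rw [h3, ← Finset.sum_add_distrib]
  refine Finset.sum_congr rfl (fun y _ => ?_)
  rw [hTc, smul_neg, ← sub_eq_add_neg, ← sub_smul, ← Finset.sum_sub_distrib]
  congr 1
  refine Finset.sum_congr rfl (fun g _ => ?_)
  unfold dlF
  push_cast
  ring

include hS hc2 hcf in
/-- the class functions in terms of two of them. -/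
lemma dlF_formula (hD : Dbl X c) {x y : X} (hyx : y ≠ x) (hycx : y ≠ c • x) (hxy : S x y = 1)
    (hcomm : ∀ (g : G), c * g = g * c) (u v : X) (g : G) :
    dlF c u v g = ((if v = u then 1 else 0) - if v = c • u then 1 else 0) * dlF c x x g +
      S u v * dlF c x y g := by
  have hcc : ∀ x : X, c • (c • x) = x := fun x => by rw [← mul_smul, hc2, one_smul]
  have hsm : ∀ (k : G) (u v : X), dlF c (k • u) (k • v) g = dlF c u v g := by
    intro k u v
    unfold dlF
    have h1 : c • (k • v) = k • (c • v) := by rw [← mul_smul, hcomm, mul_smul]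
    rw [h1, cnt_smul, cnt_smul]
  -- the base point
  have hbase : ∀ u : X, dlF c u u g = dlF c x x g := by
    intro u
    by_cases h1 : x ≠ u ∧ x ≠ c • u
    · obtain ⟨k, hk, -⟩ := hD u x x y h1.1 h1.2 hyx hycx
      rcases hk with hk | hk
      · rw [← hsm k u u, hk]
      · rw [← hsm k u u, hk, dlF_cc hcomm]
    · rw [not_and_or, not_not, not_not] at h1
      rcases h1 with h1 | h1
      · rw [h1]
      · rw [h1, dlF_cc hcomm]
  by_cases h1 : v = u
  · have h2 : u ≠ c • u := (hcf u).symm
    rw [h1, hS.self, if_pos rfl, if_neg h2, hbase]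
    push_cast
    ring
  by_cases h2 : v = c • u
  · rw [h2, dlF_c hc2, hS.right, hS.self, if_neg (hcf u), if_pos rfl, hbase]
    push_cast
    ring
  rw [if_neg h1, if_neg h2]
  obtain ⟨k, hg1, hg2⟩ := hD x y u v hyx hycx h1 h2
  have h3 : dlF c (k • x) (k • y) g = S (k • x) (k • y) * dlF c x y g := by
    rw [hsm, hS.inv, hxy, Int.cast_one, one_mul]
  have hleft : ∀ u v : X, dlF c (c • u) v g = - dlF c u v g := by
    intro u v
    have h4 := dlF_cc hcomm u (c • v) g
    rw [hcc, dlF_c hc2] at h4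
    exact h4
  rcases hg1 with h4 | h4 <;> rcases hg2 with h5 | h5 <;> rw [h4, h5] at h3
  · rw [h3]; ring
  · rw [dlF_c hc2, hS.right] at h3
    push_cast at h3
    linarith
  · rw [hleft, hS.left hc2] at h3
    push_cast at h3
    linarith
  · rw [hleft, hS.left hc2, dlF_c hc2, hS.right] at h3
    push_cast at h3
    linarith

end

end Pool.Agent.Run7.h333.CZ
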