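import Pool.Agent.Run7.h333.CZ.Cf2

/-!
# Doubly transitive actions on the pairs: rational characters, conference matrices
-/

set_option autoImplicit false

open scoped Classical

namespace Pool.Agent.Run7.h333.CZ

open Pool.Agent.Q11.CZ Pool.Agent.N770.CP

variable {G : Type} [Group G] [Fintype G] {X : Type} [Fintype X] [MulAction G X]

section

variable {c : G} (hc : ∀ g, c * g = g * c) (hc2 : c * c = 1) (hcf : ∀ x : X, c • x ≠ x)
variable {S : X → X → ℤ} {ε : ℤ} (hS : IsSgn G X c S ε)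

omit [Fintype G] in
include hS hc2 in
/-- a point `y` with `S x y = 1`. -/
lemma exists_one {x z : X} (hzx : z ≠ x) (hzcx : z ≠ c • x) :
    ∃ y : X, y ≠ x ∧ y ≠ c • x ∧ S x y = 1 := by
  have hcc : ∀ x : X, c • (c • x) = x := fun x => by rw [← mul_smul, hc2, one_smul]
  rcases hS.sq x z hzx hzcx with h | h
  · exact ⟨z, hzx, hzcx, h⟩
  · refine ⟨c • z, fun h1 => hzcx (by rw [← h1, hcc]), fun h1 => hzx ((MulAction.injective c) h1),
      ?_⟩
    rw [hS.right, h, neg_neg]

include hS hc hc2 hcf in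
/-- **Rational characters.** -/
theorem ratV_of_sqrt (hD : Dbl X c) [MulAction.IsPretransitive G X] {x y : X} (hyx : y ≠ x)
    (hycx : y ≠ c • x) (hxy : S x y = 1) {b : ℤ}
    (hb : ∀ u v : X, Qs S u v = ε * (Fintype.card X - 2) *
      ((if v = u then 1 else 0) - if v = c • u then 1 else 0) + b * S u v)
    {t : ℚ} (ht : (t : ℂ) * t = b * b + 8 * ε * (Fintype.card X - 2))
    {χ : G → ℂ} (hχ : OddChar c x χ) : RatV χ := by
  have hcc : ∀ x : X, c • (c • x) = x := fun x => by rw [← mul_smul, hc2, one_smul]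
  obtain ⟨W, _, _, _, ρ, hirr, hodd, ⟨w, hw0, hw⟩, hχρ⟩ := hχ
  -- the equivariant map
  have hex : ∀ y : X, ∃ k : G, k • x = y := fun y => MulAction.exists_smul_eq G x y
  choose kk hkk using hex
  have hT0 : ∃ T : X → W, (∀ (g : G) (y : X), T (g • y) = ρ g (T y)) ∧ T x ≠ 0 := by
    refine ⟨fun y => ρ (kk y) w, ?_, ?_⟩
    · intro g y
      have h1 : ((g * kk y)⁻¹ * kk (g • y)) • x = x := by
        rw [mul_smul, hkk, inv_smul_eq_iff, mul_smul, hkk]
      have h2 := hw _ h1
      have h3 : kk (g • y) = g * kk y * ((g * kk y)⁻¹ * kk (g • y)) := by group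
      simp only
      rw [h3, map_mul, Module.End.mul_apply, h2, map_mul, Module.End.mul_apply]
    · have h1 := hw _ (hkk x)
      simp only
      rw [h1]
      exact hw0
  obtain ⟨T, hTg, hTx⟩ := hT0
  have hcT : ∀ {T : X → W}, (∀ (g : G) (y : X), T (g • y) = ρ g (T y)) →
      ∀ y, T (c • y) = - T y := fun hT y => by rw [hT, hodd]
  -- the operator
  set SS : (X → W) → X → W := fun T u => ∑ v, (S u v : ℂ) • T v with hSS
  have hSSg : ∀ {T : X → W}, (∀ (g : G) (y : X), T (g • y) = ρ g (T y)) →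
      ∀ (g : G) (y : X), SS T (g • y) = ρ g (SS T y) := by
    intro T hT g y
    simp only [hSS]
    rw [map_sum]
    refine (Fintype.sum_equiv (MulAction.toPerm g) _ _ (fun v => ?_)).symm
    rw [MulAction.toPerm_apply, hS.inv, hT, map_smul]
  have hSS2 : ∀ {T : X → W}, (∀ (g : G) (y : X), T (g • y) = ρ g (T y)) → ∀ u,
      SS (SS T) u = (2 * ε * (Fintype.card X - 2) : ℂ) • T u + (b : ℂ) • SS T u := by
    intro T hT u
    simp only [hSS]
    have h1 : ∑ v, (S u v : ℂ) • ∑ w, (S v w : ℂ) • T w = ∑ w, (Qs S u w : ℂ) • T w := by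
      simp only [Finset.smul_sum]
      rw [Finset.sum_comm]
      refine Finset.sum_congr rfl (fun w _ => ?_)
      unfold Qs
      push_cast
      rw [Finset.sum_smul]
      exact Finset.sum_congr rfl (fun v _ => by rw [smul_smul])
    rw [h1]
    have h2 : ∀ w, (Qs S u w : ℂ) • T w = ((if w = u then
        ((ε * (Fintype.card X - 2) : ℂ) • T w) else 0) -
        if w = c • u then ((ε * (Fintype.card X - 2) : ℂ) • T w) else 0) +
        (b : ℂ) • ((S u w : ℂ) • T w) := by
      intro w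
      rw [hb u w]
      push_cast
      rw [add_smul, mul_smul (b : ℂ)]
      congr 1
      split_ifs <;> simp
    rw [Finset.sum_congr rfl (fun w _ => h2 w), Finset.sum_add_distrib, Finset.sum_sub_distrib,
      Finset.sum_ite_eq', Finset.sum_ite_eq', if_pos (Finset.mem_univ _),
      if_pos (Finset.mem_univ _), ← Finset.smul_sum, hcT hT u, smul_neg, sub_neg_eq_add,
      ← add_smul]
    congr 2
    ring
  -- an eigenvector with a rational eigenvalue
  obtain ⟨T', hT'g, hT'x, θ, hθ⟩ : ∃ T' : X → W, (∀ (g : G) (y : X), T' (g • y) = ρ g (T' y)) ∧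
      T' x ≠ 0 ∧ ∃ θ : ℚ, SS T' x = (θ : ℂ) • T' x := by
    set θ₁ : ℚ := (b + t) / 2 with hθ₁
    set θ₂ : ℚ := (b - t) / 2 with hθ₂
    set T₁ : X → W := fun u => SS T u - (θ₁ : ℂ) • T u with hT₁
    by_cases h1 : T₁ x = 0
    · exact ⟨T, hTg, hTx, θ₁, sub_eq_zero.mp h1⟩
    · refine ⟨T₁, ?_, h1, θ₂, ?_⟩
      · intro g y
        simp only [hT₁]
        rw [hSSg hTg, hTg, map_sub, map_smul]
      · have h2 : SS T₁ x = SS (SS T) x - (θ₁ : ℂ) • SS T x := by
          simp only [hSS, hT₁]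
          rw [Finset.smul_sum, ← Finset.sum_sub_distrib]
          refine Finset.sum_congr rfl (fun v _ => ?_)
          rw [smul_sub, smul_comm (θ₁ : ℂ)]
        rw [h2, hSS2 hTg]
        simp only [hT₁]
        have e1 : (θ₁ : ℂ) + θ₂ = b := by
          rw [hθ₁, hθ₂]
          push_cast
          ring
        have e2 : (2 * ε * (Fintype.card X - 2) : ℂ) = - (θ₁ * θ₂) := by
          have h3 : (θ₁ : ℂ) * θ₂ = (b * b - t * t) / 4 := by
            rw [hθ₁, hθ₂]
            push_cast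
            ring
          rw [h3, ht]
          ring
        rw [e2, ← e1, add_smul, smul_sub, smul_smul, neg_smul, mul_comm (θ₁ : ℂ)]
        abel
  -- the values of the character
  intro g
  have h1 := cop_T ρ hT'g (hcT hT'g) (Pi.single g 1) x
  have h2 : ∀ v, (∑ k, (Pi.single g 1 : G → ℂ) k * (dlF c x v k : ℂ)) = (dlF c x v g : ℂ) := by
    intro v
    rw [Finset.sum_eq_single g]
    · rw [Pi.single_eq_same, one_mul]
    · intro k _ hk
      rw [Pi.single_eq_of_ne hk, zero_mul]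
    · intro h
      exact absurd (Finset.mem_univ g) h
  simp only [h2] at h1
  set D0 := dlF c x x g with hD0
  set D1 := dlF c x y g with hD1
  have h3 : ∀ v, (dlF c x v g : ℂ) • T' v = ((if v = x then ((D0 : ℂ) • T' v) else 0) -
      if v = c • x then ((D0 : ℂ) • T' v) else 0) + (D1 : ℂ) • ((S x v : ℂ) • T' v) := by
    intro v
    rw [dlF_formula hc2 hcf hS hD hyx hycx hxy hc x v g, ← hD0, ← hD1]
    push_cast
    rw [add_smul, mul_comm (S x v : ℂ), mul_smul (D1 : ℂ)]
    congr 1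
    split_ifs <;> simp
  rw [Finset.sum_congr rfl (fun v _ => h3 v), Finset.sum_add_distrib, Finset.sum_sub_distrib,
    Finset.sum_ite_eq', Finset.sum_ite_eq', if_pos (Finset.mem_univ _),
    if_pos (Finset.mem_univ _), ← Finset.smul_sum, hcT hT'g x, smul_neg, sub_neg_eq_add] at h1
  have h4 : ∑ v, (S x v : ℂ) • T' v = (θ : ℂ) • T' x := hθ
  rw [h4, smul_smul, ← add_smul, ← add_smul] at h1
  -- Schur's lemma
  obtain ⟨μ, hμ⟩ := schur ρ (cop ρ (Pi.single g 1)) (fun g w => cop_comm ρ _ g w)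
  rw [hμ, smul_smul] at h1
  have h5 : 2 * μ = (D0 + D0 + D1 * θ : ℂ) := smul_left_injective ℂ hT'x h1
  have h6 : cop ρ (Pi.single g 1) = μ • LinearMap.id := by
    apply LinearMap.ext
    intro w
    rw [hμ, LinearMap.smul_apply, LinearMap.id_apply]
  have h7 := trace_cop ρ (Pi.single g 1)
  rw [h6, map_smul, LinearMap.trace_id, smul_eq_mul] at h7
  have h8 : ∑ k, (Pi.single g 1 : G → ℂ) k * chr ρ k = chr ρ g := by
    rw [Finset.sum_eq_single g]
    · rw [Pi.single_eq_same, one_mul]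
    · intro k _ hk
      rw [Pi.single_eq_of_ne hk, zero_mul]
    · intro h
      exact absurd (Finset.mem_univ g) h
  rw [h8] at h7
  have h9 : (Fintype.card G : ℂ) ≠ 0 := by exact_mod_cast Fintype.card_ne_zero
  refine ⟨(D0 + D0 + D1 * θ) / 2 * Module.finrank ℂ W / Fintype.card G, ?_⟩
  have h10 : χ g = chr ρ g := hχρ g
  rw [h10]
  push_cast
  rw [eq_div_iff h9, mul_comm, ← h7, ← h5]
  ring

/-! ### conference matrices -/

omit [Fintype G] in
include hS hc2 hcf in
/-- **Conference matrices.** -/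
theorem conference {n : ℕ} (hX : Fintype.card X = 2 * n) (hn : 3 ≤ n)
    (hQ : ∀ u v : X, v ≠ u → v ≠ c • u → Qs S u v = 0) :
    (ε = 1 → n % 4 = 2) ∧ (ε = -1 → n % 4 = 0) := by
  have hcc : ∀ x : X, c • (c • x) = x := fun x => by rw [← mul_smul, hc2, one_smul]
  -- sums over a half-system
  obtain ⟨Φ, hΦ⟩ := exists_half (X := X) hc2 hcf
  rw [mem_halves] at hΦ
  have hsum : ∀ F : X → ℤ, (∀ w, F (c • w) = F w) → ∑ w, F w = 2 * ∑ w ∈ Φ, F w := by
    intro F hF
    have h1 := Finset.sum_add_sum_compl Φ F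
    have h2 : ∑ w ∈ Φᶜ, F w = ∑ w ∈ Φ, F w := by
      refine Finset.sum_bij' (fun w _ => c • w) (fun w _ => c • w) ?_ ?_ ?_ ?_ ?_
      · intro w hw
        rw [Finset.mem_compl] at hw
        exact (hΦ w).mpr hw
      · intro w hw
        rw [Finset.mem_compl, hΦ]
        exact fun h => h hw
      · intro w _; exact hcc w
      · intro w _; exact hcc w
      · intro w _; exact (hF w).symm
    rw [← h1, h2, two_mul]
  have hcard : (Φ.card : ℤ) = n := by
    have h1 := hsum (fun _ => 1) (fun _ => rfl)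
    simp only [Finset.sum_const, Finset.card_univ, nsmul_eq_mul, mul_one, hX] at h1
    push_cast at h1
    linarith
  -- three elements of the half-system
  have hΦc : 3 ≤ Φ.card := by
    have : Φ.card = n := by exact_mod_cast hcard
    rw [this]; exact hn
  obtain ⟨Ψ, hΨ, hΨ3⟩ := Finset.exists_subset_card_eq hΦc
  obtain ⟨u₁, v₂, v₃, h12, h13, h23, hΨe⟩ := Finset.card_eq_three.mp hΨ3
  have hu₁ : u₁ ∈ Φ := hΨ (by rw [hΨe]; simp)
  have hv₂ : v₂ ∈ Φ := hΨ (by rw [hΨe]; simp)
  have hv₃ : v₃ ∈ Φ := hΨ (by rw [hΨe]; simp)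
  have hind : ∀ {a b : X}, a ∈ Φ → b ∈ Φ → b ≠ c • a := by
    intro a b ha hb h
    rw [h] at hb
    exact (hΦ a).mp hb ha
  -- the functions
  set f : X → ℤ := fun w => S u₁ w with hf
  set a₂ := S u₁ v₂ with ha₂
  set a₃ := S u₁ v₃ with ha₃
  have ha₂' : a₂ * a₂ = 1 := by
    rcases hS.sq u₁ v₂ h12.symm (hind hu₁ hv₂) with h | h <;> rw [ha₂, h] <;> norm_num
  have ha₃' : a₃ * a₃ = 1 := by
    rcases hS.sq u₁ v₃ h13.symm (hind hu₁ hv₃) with h | h <;> rw [ha₃, h] <;> norm_num
  set g : X → ℤ := fun w => a₂ * S v₂ w with hg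
  set h : X → ℤ := fun w => a₃ * S v₃ w with hh
  set s := a₂ * a₃ * S v₂ v₃ with hs
  have hs' : s * s = 1 := by
    have h1 : S v₂ v₃ * S v₂ v₃ = 1 := by
      rcases hS.sq v₂ v₃ h23.symm (hind hv₂ hv₃) with h | h <;> rw [h] <;> norm_num
    rw [hs]
    calc a₂ * a₃ * S v₂ v₃ * (a₂ * a₃ * S v₂ v₃) =
        (a₂ * a₂) * (a₃ * a₃) * (S v₂ v₃ * S v₂ v₃) := by ring
      _ = 1 := by rw [ha₂', ha₃', h1]; norm_num
  -- orthogonality
  have horth : ∀ a b : X, b ≠ a → b ≠ c • a → ∑ w ∈ Φ, S a w * S b w = 0 := by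
    intro a b h1 h2
    have h3 := hQ a b h1 h2
    unfold Qs at h3
    have h4 : ∑ w, S a w * S b w = 0 := by
      have h5 : ∀ w, S a w * S b w = ε * (S a w * S w b) := by
        intro w
        rw [hS.symm b w]
        have := hS.eps_sq
        linear_combination (-(S a w * S b w)) * this
      rw [Finset.sum_congr rfl (fun w _ => h5 w), ← Finset.mul_sum, h3, mul_zero]
    have h5 := hsum (fun w => S a w * S b w) (fun w => by
      rw [hS.right, hS.right]; ring)
    rw [h4] at h5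
    linarith
  have o12 := horth u₁ v₂ h12.symm (hind hu₁ hv₂)
  have o13 := horth u₁ v₃ h13.symm (hind hu₁ hv₃)
  have o23 := horth v₂ v₃ h23.symm (hind hv₂ hv₃)
  -- the sum over the rest
  set R := ((Φ.erase u₁).erase v₂).erase v₃ with hR
  have hm2 : v₂ ∈ Φ.erase u₁ := Finset.mem_erase.mpr ⟨h12.symm, hv₂⟩
  have hm3 : v₃ ∈ (Φ.erase u₁).erase v₂ :=
    Finset.mem_erase.mpr ⟨h23.symm, Finset.mem_erase.mpr ⟨h13.symm, hv₃⟩⟩
  have hsplit : ∀ F : X → ℤ, ∑ w ∈ Φ, F w = F u₁ + F v₂ + F v₃ + ∑ w ∈ R, F w := by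
    intro F
    rw [← Finset.add_sum_erase Φ F hu₁, ← Finset.add_sum_erase _ F hm2,
      ← Finset.add_sum_erase _ F hm3, ← hR]
    ring
  have hRcard : (R.card : ℤ) = n - 3 := by
    have h1 := hsplit (fun _ => 1)
    simp only [Finset.sum_const, nsmul_eq_mul, mul_one] at h1
    rw [hcard] at h1
    linarith
  have hf1 : f u₁ = 0 := hS.self u₁
  have hf2 : f v₂ = a₂ := rfl
  have hf3 : f v₃ = a₃ := rfl
  have hg1 : g u₁ = ε := by
    simp only [hg]
    rw [hS.symm u₁ v₂, ← ha₂]
    linear_combination ε * ha₂'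
  have hg2 : g v₂ = 0 := by
    simp only [hg]
    rw [hS.self, mul_zero]
  have hg3 : g v₃ = a₃ * s := by
    simp only [hg, hs]
    linear_combination (-(a₂ * S v₂ v₃)) * ha₃'
  have hh1 : h u₁ = ε := by
    simp only [hh]
    rw [hS.symm u₁ v₃, ← ha₃]
    linear_combination ε * ha₃'
  have hh2 : h v₂ = ε * a₂ * s := by
    simp only [hh, hs]
    rw [hS.symm v₂ v₃]
    linear_combination (-(ε * a₃ * S v₂ v₃)) * ha₂'
  have hh3 : h v₃ = 0 := by
    simp only [hh]
    rw [hS.self, mul_zero]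
  have e12 : ∑ w ∈ R, f w * g w = - s := by
    have h1 : ∑ w ∈ Φ, f w * g w = 0 := by
      have : ∀ w, f w * g w = a₂ * (S u₁ w * S v₂ w) := fun w => by simp only [hf, hg]; ring
      rw [Finset.sum_congr rfl (fun w _ => this w), ← Finset.mul_sum, o12, mul_zero]
    rw [hsplit, hf1, hf3, hg2, hg3] at h1
    linear_combination h1 - s * ha₃'
  have e13 : ∑ w ∈ R, f w * h w = - (ε * s) := by
    have h1 : ∑ w ∈ Φ, f w * h w = 0 := by
      have : ∀ w, f w * h w = a₃ * (S u₁ w * S v₃ w) := fun w => by simp only [hf, hh]; ring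
      rw [Finset.sum_congr rfl (fun w _ => this w), ← Finset.mul_sum, o13, mul_zero]
    rw [hsplit, hf1, hf2, hh3, hh2] at h1
    linear_combination h1 - ε * s * ha₂'
  have e23 : ∑ w ∈ R, g w * h w = - 1 := by
    have h1 : ∑ w ∈ Φ, g w * h w = 0 := by
      have : ∀ w, g w * h w = (a₂ * a₃) * (S v₂ w * S v₃ w) := fun w => by
        simp only [hg, hh]; ring
      rw [Finset.sum_congr rfl (fun w _ => this w), ← Finset.mul_sum, o23, mul_zero]
    rw [hsplit, hg1, hh1, hg2, hh3] at h1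
    have := hS.eps_sq
    linarith
  -- the values in `R` are `± 1`
  have hval : ∀ w ∈ R, (f w = 1 ∨ f w = -1) ∧ (g w = 1 ∨ g w = -1) ∧ (h w = 1 ∨ h w = -1) := by
    intro w hw
    rw [hR, Finset.mem_erase, Finset.mem_erase, Finset.mem_erase] at hw
    obtain ⟨w3, w2, w1, hw⟩ := hw
    have hpm : ∀ {a b : ℤ}, a * a = 1 → (b = 1 ∨ b = -1) → (a * b = 1 ∨ a * b = -1) := by
      intro a b ha hb
      have h1 : a = 1 ∨ a = -1 := by
        have : (a - 1) * (a + 1) = 0 := by linear_combination ha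
        rcases mul_eq_zero.mp this with h | h
        · left; linarith
        · right; linarith
      rcases h1 with h1 | h1 <;> rcases hb with hb | hb <;> rw [h1, hb] <;> norm_num
    refine ⟨hS.sq u₁ w w1 (hind hu₁ hw), hpm ha₂' (hS.sq v₂ w w2 (hind hv₂ hw)),
      hpm ha₃' (hS.sq v₃ w w3 (hind hv₃ hw))⟩
  have htot : ∑ w ∈ R, (f w + g w) * (f w + h w) = n - 4 - (1 + ε) * s := by
    have h1 : ∀ w ∈ R, (f w + g w) * (f w + h w) = 1 + f w * h w + f w * g w + g w * h w := by
      intro w hw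
      have h2 : f w * f w = 1 := by
        rcases (hval w hw).1 with h | h <;> rw [h] <;> norm_num
      linear_combination h2
    rw [Finset.sum_congr rfl h1, Finset.sum_add_distrib, Finset.sum_add_distrib,
      Finset.sum_add_distrib, e12, e13, e23]
    simp only [Finset.sum_const, nsmul_eq_mul, mul_one]
    rw [hRcard]
    ring
  have hdvd : (4 : ℤ) ∣ ∑ w ∈ R, (f w + g w) * (f w + h w) := by
    refine Finset.dvd_sum (fun w hw => ?_)
    obtain ⟨h1, h2, h3⟩ := hval w hw
    rcases h1 with h1 | h1 <;> rcases h2 with h2 | h2 <;> rcases h3 with h3 | h3 <;>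
      rw [h1, h2, h3] <;> norm_num
  rw [htot] at hdvd
  have hs1 : s = 1 ∨ s = -1 := by
    have : (s - 1) * (s + 1) = 0 := by linear_combination hs'
    rcases mul_eq_zero.mp this with h | h
    · left; linarith
    · right; linarith
  constructor
  · intro he
    rw [he] at hdvd
    rcases hs1 with h1 | h1 <;> rw [h1] at hdvd <;> omega
  · intro he
    rw [he] at hdvd
    rcases hs1 with h1 | h1 <;> rw [h1] at hdvd <;> omega

end

end Pool.Agent.Run7.h333.CZ
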