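import Pool.Agent.Run7.h333.CZ.Cf3

/-!
# Multiply transitive actions on the pairs: the main theorems
-/

set_option autoImplicit false

open scoped Classical

namespace Pool.Agent.Run7.h333.CZ

open Pool.Agent.Q11.CZ Pool.Agent.N770.CP

variable {G : Type} [Group G] [Fintype G] {X : Type} [Fintype X] [MulAction G X]

/-- `G` is triply transitive on the pairs `{x, c x}`. -/
def Trp (X : Type) [MulAction G X] (c : G) : Prop :=
  ∀ x y z x' y' z' : X, (y ≠ x ∧ y ≠ c • x) → (z ≠ x ∧ z ≠ c • x) → (z ≠ y ∧ z ≠ c • y) →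
    (y' ≠ x' ∧ y' ≠ c • x') → (z' ≠ x' ∧ z' ≠ c • x') → (z' ≠ y' ∧ z' ≠ c • y') →
    ∃ g : G, (g • x = x' ∨ g • x = c • x') ∧ (g • y = y' ∨ g • y = c • y') ∧
      (g • z = z' ∨ g • z = c • z')

section

variable {c : G} (hc : ∀ g, c * g = g * c) (hc2 : c * c = 1)
  (hcf : ∀ x : X, c • x ≠ x)

include hc hc2 hcf in
/-- **No linked points.** -/
theorem zinv_a0_of_unlinked [MulAction.IsPretransitive G X] (x : X)
    (hun : ∀ y : X, y ≠ x → y ≠ c • x → ∃ k : G, k • x = x ∧ k • y = c • y)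
    {Φ : Finset X} (hΦ : IsHalf c Φ) : ZInv (a0 x Φ : G → ℚ) := by
  intro g g' hgg
  have h1 := (L_a0_iff hc hc2 hcf (dfL g g') (dfL_one _ _) x).mpr (fun y => by
    rw [dfL_apply]
    by_cases h2 : y = x
    · rw [h2, dlF_self hc hc2 x hgg, sub_self]
    by_cases h3 : y = c • x
    · rw [h3, dlF_c hc2, dlF_c hc2, dlF_self hc hc2 x hgg, sub_self]
    obtain ⟨k, hk1, hk2⟩ := hun y h2 h3
    unfold dlF
    rw [cnt_unlinked hk1 hk2, cnt_unlinked hk1 hk2, sub_self, sub_self, sub_self]) Φ hΦ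
  rw [dfL_apply, sub_eq_zero] at h1
  exact h1

omit [Fintype G] [Fintype X] in
lemma zinv_T_of_a0 [Fintype G] {Φ : Finset X} (h : ∀ x : X, ZInv (a0 x Φ : G → ℚ)) :
    ZInv (T Φ : G → ℚ) := by
  intro g g' hgg
  unfold T
  exact Finset.sum_congr rfl (fun x _ => h x g g' hgg)

omit [Fintype G] in
/-- three independent points exist. -/
lemma exists_third {n : ℕ} (hX : Fintype.card X = 2 * n) (hn : 3 ≤ n) (x y : X) :
    ∃ z : X, (z ≠ x ∧ z ≠ c • x) ∧ (z ≠ y ∧ z ≠ c • y) := by
  by_contra hcon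
  push Not at hcon
  have h1 : (Finset.univ : Finset X) ⊆ {x, c • x, y, c • y} := by
    intro z _
    simp only [Finset.mem_insert, Finset.mem_singleton]
    by_cases h1 : z = x
    · exact Or.inl h1
    by_cases h2 : z = c • x
    · exact Or.inr (Or.inl h2)
    by_cases h3 : z = y
    · exact Or.inr (Or.inr (Or.inl h3))
    exact Or.inr (Or.inr (Or.inr (hcon z ⟨h1, h2⟩ h3)))
  have h2 := Finset.card_le_card h1
  rw [Finset.card_univ, hX] at h2
  have h3 := Finset.card_le_four (a := x) (b := c • x) (c := y) (d := c • y)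
  omega

include hc hc2 hcf in
/-- **The alternative for doubly transitive actions.** -/
theorem dbl_cases [MulAction.IsPretransitive G X] (hD : Dbl X c) {n : ℕ}
    (hX : Fintype.card X = 2 * n) :
    (∀ Φ : Finset X, IsHalf c Φ → ∀ x : X, ZInv (a0 x Φ : G → ℚ)) ∨
    ∃ (S : X → X → ℤ) (ε : ℤ), IsSgn G X c S ε ∧ 2 ≤ n ∧
      (∀ u v : X, v ≠ u → v ≠ c • u → Qs S u v = 0) ∧ 2 ∣ n ∧
        (ε = 1 → ¬ ∃ r : ℕ, n = r ^ 2 + 1) := by
  by_cases hun : ∀ x y : X, y ≠ x → y ≠ c • x → ∃ k : G, k • x = x ∧ k • y = c • y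
  · exact Or.inl (fun Φ hΦ x => zinv_a0_of_unlinked hc hc2 hcf x (hun x) hΦ)
  push Not at hun
  obtain ⟨x, z, hzx, hzcx, hnl⟩ := hun
  have hnl' : ¬ ∃ k : G, k • x = x ∧ k • z = c • z := by
    rintro ⟨k, h1, h2⟩
    exact hnl k h1 h2
  obtain ⟨S, ε, hS⟩ := exists_sgn hc hc2 hD hzx hzcx hnl'
  obtain ⟨y, hyx, hycx, hxy⟩ := exists_one hc2 hS hzx hzcx
  set b := Qs S x y with hb'
  have hb := exists_b hc2 hcf hS hD hyx hycx hxy
  have hn2 : 2 ≤ n := by
    by_contra hlt
    have h1 : Fintype.card X ≤ 2 := by omega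
    have h2 : ({x, c • x, y} : Finset X).card ≤ Fintype.card X := Finset.card_le_univ _
    have h3 : ({x, c • x, y} : Finset X).card = 3 := by
      rw [Finset.card_eq_three]
      exact ⟨x, c • x, y, (hcf x).symm, hyx.symm, hycx.symm, rfl⟩
    omega
  have hN : (Fintype.card X : ℂ) - 2 ≠ 0 := by
    rw [hX]
    push_cast
    intro h
    have h1 : (2 * n : ℂ) = 2 := by linear_combination h
    have h2 : (2 * n : ℕ) = 2 := by exact_mod_cast h1
    omega
  have hb0 : ε = -1 → b = 0 := by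
    intro he
    have h1 : Qs S y x = Qs S x y := Qs_symm hS x y
    have hxy' : x ≠ c • y := fun h => hycx (by rw [h, ← mul_smul, hc2, one_smul])
    have h2 := hb y x
    rw [if_neg (Ne.symm hyx), if_neg hxy', h1, hS.symm x y, he, hxy, ← hb'] at h2
    linarith
  have hodd : ∀ t : ℚ, (t : ℂ) * t = b * b + 8 * ε * (Fintype.card X - 2) →
      ∀ Φ : Finset X, IsHalf c Φ → ∀ x : X, ZInv (a0 x Φ : G → ℚ) := fun t ht =>
    (crit_a0 hc hc2 hcf x).mpr (fun χ hχ =>
      ratV_of_sqrt hc hc2 hcf hS hD hyx hycx hxy hb ht hχ)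
  obtain ⟨t, ht⟩ := IsAlgClosed.exists_eq_mul_self
    ((b : ℂ) * b + 8 * ε * (Fintype.card X - 2))
  have ht0 : t ≠ 0 := by
    rintro rfl
    rw [mul_zero] at ht
    rcases hS.eps with he | he
    · rw [he, hX] at ht
      have h1 : b * b + 8 * (2 * n - 2) = 0 := by
        have h2 : ((b * b + 8 * (2 * (n : ℤ) - 2) : ℤ) : ℂ) = 0 := by
          push_cast at ht ⊢
          rw [← ht]
          ring
        exact_mod_cast h2
      have h3 : (2 : ℤ) ≤ n := by exact_mod_cast hn2
      nlinarith [mul_self_nonneg b]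
    · rw [hb0 he, he] at ht
      push_cast at ht
      have h1 : (Fintype.card X : ℂ) - 2 = 0 := by linear_combination (-1 / 8 : ℂ) * ht
      exact hN h1
  have hXpos : 0 < Fintype.card X := by omega
  rcases rat_sqrt hc2 hcf hS hb ht.symm ht0 hXpos with ⟨q, hq⟩ | ⟨hbz, hdvd⟩
  · left
    exact hodd q (by rw [← hq]; exact ht.symm)
  · have hoff : ∀ u v : X, v ≠ u → v ≠ c • u → Qs S u v = 0 := by
      intro u v h1 h2
      have hbz' : Qs S x y = 0 := hbz
      rw [hb u v, if_neg h1, if_neg h2, hbz']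
      ring
    by_cases hsq : ε = 1 ∧ ∃ r : ℕ, n = r ^ 2 + 1
    · left
      obtain ⟨he, r, hr⟩ := hsq
      refine hodd (4 * r) ?_
      have hbz' : b = 0 := hbz
      rw [hbz', he, hX, hr]
      push_cast
      ring
    · right
      refine ⟨S, ε, hS, hn2, hoff, ?_, fun he hr => hsq ⟨he, hr⟩⟩
      rw [hX] at hdvd
      omega

include hc hc2 hcf in
/-- **Doubly transitive actions, individual functions.** -/
theorem dbl_a0 [MulAction.IsPretransitive G X] (hD : Dbl X c) {n : ℕ}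
    (hX : Fintype.card X = 2 * n)
    (hn : Odd n ∨ (n % 4 = 2 ∧ n ≠ 2 ∧ ∃ r : ℕ, n = r ^ 2 + 1)) :
    ∀ Φ : Finset X, IsHalf c Φ → ∀ x : X, ZInv (a0 x Φ : G → ℚ) := by
  rcases dbl_cases hc hc2 hcf hD hX with h | ⟨S, ε, hS, hn2, hoff, hev, hsq⟩
  · exact h
  · exfalso
    rcases hn with h | ⟨h1, h2, h3⟩
    · rw [← Nat.not_even_iff_odd, even_iff_two_dvd] at h
      exact h hev
    · have h4 := conference hc2 hcf hS hX (by omega) hoff
      rcases hS.eps with he | he
      · exact hsq he h3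
      · have := h4.2 he
        omega

include hc hc2 hcf in
/-- **Doubly transitive actions, heights.** -/
theorem dbl_T [MulAction.IsPretransitive G X] (hD : Dbl X c) {n : ℕ}
    (hX : Fintype.card X = 2 * n) (hn : n % 4 ≠ 2 ∨ ∃ r : ℕ, n = r ^ 2 + 1) :
    ∀ Φ : Finset X, IsHalf c Φ → ZInv (T Φ : G → ℚ) := by
  rcases dbl_cases hc hc2 hcf hD hX with h | ⟨S, ε, hS, hn2, hoff, hev, hsq⟩
  · exact fun Φ hΦ => zinv_T_of_a0 (h Φ hΦ)
  rcases hS.eps with he | he
  · exfalso
    have h1 : n % 4 = 2 := by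
      by_cases h3 : 3 ≤ n
      · exact (conference hc2 hcf hS hX h3 hoff).1 he
      · omega
    rcases hn with h | h
    · exact h h1
    · exact hsq he h
  · -- the skew case
    intro Φ hΦ g g' hgg
    have hXne : Nonempty X := by
      rw [← Fintype.card_pos_iff, hX]
      omega
    obtain ⟨x⟩ := hXne
    obtain ⟨z, hz1, hz2⟩ : ∃ z : X, z ≠ x ∧ z ≠ c • x := by
      by_contra hcon
      push Not at hcon
      have h1 : (Finset.univ : Finset X) ⊆ {x, c • x} := by
        intro z _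
        simp only [Finset.mem_insert, Finset.mem_singleton]
        by_cases h1 : z = x
        · exact Or.inl h1
        · exact Or.inr (hcon z h1)
      have h2 := Finset.card_le_card h1
      rw [Finset.card_univ, hX] at h2
      have h3 := Finset.card_le_two (a := x) (b := c • x)
      omega
    obtain ⟨y, hyx, hycx, hxy⟩ := exists_one hc2 hS hz1 hz2
    have h0 : ∀ x : X, dfL g g' (dlF c x x) = 0 := fun x => by
      rw [dfL_apply, dlF_self hc hc2 x hgg, sub_self]
    have h1 := (L_T_iff hc hc2 hcf (dfL g g') (dfL_one _ _) h0).mpr (fun u v => by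
      rw [dfL_apply, dfL_apply]
      have e1 : ∀ g, dlF c u v g + dlF c v u g =
          (((if v = u then 1 else 0) - if v = c • u then 1 else 0) +
            ((if u = v then 1 else 0) - if u = c • v then 1 else 0)) * dlF c x x g := by
        intro g
        rw [dlF_formula hc2 hcf hS hD hyx hycx hxy hc u v g,
          dlF_formula hc2 hcf hS hD hyx hycx hxy hc v u g, hS.symm u v, he]
        push_cast
        ring
      have e2 := e1 g
      have e3 := e1 g'
      rw [dlF_self hc hc2 x hgg, ← e3] at e2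
      linarith) Φ hΦ
    rw [dfL_apply, sub_eq_zero] at h1
    exact h1

include hc hc2 hcf in
/-- **Triply transitive actions.** -/
theorem trp_a0 [MulAction.IsPretransitive G X] (hT : Trp X c) {n : ℕ}
    (hX : Fintype.card X = 2 * n) (hn : 3 ≤ n) :
    ∀ Φ : Finset X, IsHalf c Φ → ∀ x : X, ZInv (a0 x Φ : G → ℚ) := by
  have hcc : ∀ x : X, c • (c • x) = x := fun x => by rw [← mul_smul, hc2, one_smul]
  have hD : Dbl X c := by
    intro x y x' y' h1 h2 h3 h4
    obtain ⟨z, hz1, hz2⟩ := exists_third (c := c) hX hn x y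
    obtain ⟨z', hz1', hz2'⟩ := exists_third (c := c) hX hn x' y'
    obtain ⟨g, hg1, hg2, -⟩ := hT x y z x' y' z' ⟨h1, h2⟩ hz1 hz2 ⟨h3, h4⟩ hz1' hz2'
    exact ⟨g, hg1, hg2⟩
  by_cases hun : ∀ x y : X, y ≠ x → y ≠ c • x → ∃ k : G, k • x = x ∧ k • y = c • y
  · exact fun Φ hΦ x => zinv_a0_of_unlinked hc hc2 hcf x (hun x) hΦ
  push Not at hun
  obtain ⟨x, z, hzx, hzcx, hnl⟩ := hun
  have hnl' : ¬ ∃ k : G, k • x = x ∧ k • z = c • z := by
    rintro ⟨k, h1, h2⟩
    exact hnl k h1 h2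
  obtain ⟨S, ε, hS⟩ := exists_sgn hc hc2 hD hzx hzcx hnl'
  obtain ⟨y, hyx, hycx, hxy⟩ := exists_one hc2 hS hzx hzcx
  have hb := exists_b hc2 hcf hS hD hyx hycx hxy
  -- the triple product
  set P3 : X → X → X → ℤ := fun u v w => S u v * S v w * S w u with hP3
  have hPg : ∀ (g : G) (u v w : X), P3 (g • u) (g • v) (g • w) = P3 u v w := by
    intro g u v w
    simp only [hP3, hS.inv]
  have hP1 : ∀ u v w : X, P3 (c • u) v w = P3 u v w := by
    intro u v w
    simp only [hP3, hS.left hc2, hS.right]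
    ring
  have hP2 : ∀ u v w : X, P3 u (c • v) w = P3 u v w := by
    intro u v w
    simp only [hP3, hS.left hc2, hS.right]
    ring
  have hP3' : ∀ u v w : X, P3 u v (c • w) = P3 u v w := by
    intro u v w
    simp only [hP3, hS.left hc2, hS.right]
    ring
  have hPconst : ∀ u v w u' v' w' : X, (v ≠ u ∧ v ≠ c • u) → (w ≠ u ∧ w ≠ c • u) →
      (w ≠ v ∧ w ≠ c • v) → (v' ≠ u' ∧ v' ≠ c • u') → (w' ≠ u' ∧ w' ≠ c • u') →
      (w' ≠ v' ∧ w' ≠ c • v') → P3 u v w = P3 u' v' w' := by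
    intro u v w u' v' w' h1 h2 h3 h4 h5 h6
    obtain ⟨g, hg1, hg2, hg3⟩ := hT u v w u' v' w' h1 h2 h3 h4 h5 h6
    rw [← hPg g u v w]
    rcases hg1 with h | h <;> rcases hg2 with h' | h' <;> rcases hg3 with h'' | h'' <;>
      rw [h, h', h''] <;> simp only [hP1, hP2, hP3']
  have hsymn : ∀ {a b : X}, (b ≠ a ∧ b ≠ c • a) → (a ≠ b ∧ a ≠ c • b) := by
    rintro a b ⟨h1, h2⟩
    exact ⟨h1.symm, fun h => h2 (by rw [h, hcc])⟩
  obtain ⟨z', hz1, hz2⟩ := exists_third (c := c) hX hn x y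
  set κ := P3 x y z' with hκ
  have hsq1 : ∀ {u v : X}, (v ≠ u ∧ v ≠ c • u) → S u v * S u v = 1 := by
    intro u v h
    rcases hS.sq u v h.1 h.2 with h | h <;> rw [h] <;> norm_num
  have hκ2 : κ * κ = 1 := by
    have h1 := hsq1 (u := x) (v := y) ⟨hyx, hycx⟩
    have h2 := hsq1 (u := y) (v := z') hz2
    have h3 := hsq1 (u := z') (v := x) (hsymn hz1)
    rw [hκ]
    simp only [hP3]
    calc S x y * S y z' * S z' x * (S x y * S y z' * S z' x) =
        (S x y * S x y) * (S y z' * S y z') * (S z' x * S z' x) := by ring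
      _ = 1 := by rw [h1, h2, h3]; norm_num
  have heps : ε = 1 := by
    have h1 : P3 y x z' = κ := hPconst y x z' x y z' (hsymn ⟨hyx, hycx⟩) hz2 hz1
      ⟨hyx, hycx⟩ hz1 hz2
    have h2 : P3 y x z' = ε * κ := by
      rw [hκ]
      simp only [hP3]
      rw [hS.symm x y, hS.symm z' x, hS.symm y z']
      have := hS.eps_sq
      linear_combination (ε * S x y * S z' x * S y z') * this
    rw [h1] at h2
    rcases hS.eps with he | he
    · exact he
    · rw [he] at h2
      have h3 : κ = 0 := by linarith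
      rw [h3] at hκ2
      norm_num at hκ2
  have hbv : Qs S x y = κ * (Fintype.card X - 4) := by
    have h1 : ∀ w, S x w * S w y = κ * (1 - (if w = x then 1 else 0) -
        (if w = c • x then 1 else 0) - (if w = y then 1 else 0) -
        if w = c • y then 1 else 0) := by
      intro w
      have nxy : x ≠ y := hyx.symm
      have nxcy : x ≠ c • y := (hsymn ⟨hyx, hycx⟩).2
      have ncxy : c • x ≠ y := fun h => hycx h.symm
      have ncxcy : c • x ≠ c • y := fun h => nxy ((MulAction.injective c) h)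
      by_cases h1 : w = x
      · rw [h1, hS.self, if_pos rfl, if_neg (hcf x).symm, if_neg nxy, if_neg nxcy]
        ring
      by_cases h2 : w = c • x
      · rw [h2, hS.right, hS.self, if_neg (hcf x), if_pos rfl, if_neg ncxy, if_neg ncxcy]
        ring
      by_cases h3 : w = y
      · rw [h3, hS.self, if_neg hyx, if_neg hycx, if_pos rfl, if_neg (hcf y).symm]
        ring
      by_cases h4 : w = c • y
      · have e1 : c • y ≠ x := fun h => nxcy h.symm
        have e2 : c • y ≠ c • x := fun h => ncxcy h.symm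
        rw [h4, hS.left hc2, hS.self, if_neg e1, if_neg e2, if_neg (hcf y), if_pos rfl]
        ring
      rw [if_neg h1, if_neg h2, if_neg h3, if_neg h4]
      have h5 : P3 x w y = κ := hPconst x w y x y z' ⟨h1, h2⟩ ⟨hyx, hycx⟩
        (hsymn ⟨h3, h4⟩) ⟨hyx, hycx⟩ hz1 hz2
      simp only [hP3] at h5
      rw [hS.symm x y, heps, hxy] at h5
      linarith
    unfold Qs
    rw [Finset.sum_congr rfl (fun w _ => h1 w), ← Finset.mul_sum, Finset.sum_sub_distrib,
      Finset.sum_sub_distrib, Finset.sum_sub_distrib, Finset.sum_sub_distrib,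
      Finset.sum_ite_eq', Finset.sum_ite_eq', Finset.sum_ite_eq', Finset.sum_ite_eq',
      if_pos (Finset.mem_univ _), if_pos (Finset.mem_univ _), if_pos (Finset.mem_univ _),
      if_pos (Finset.mem_univ _)]
    simp only [Finset.sum_const, Finset.card_univ, nsmul_eq_mul, mul_one]
    ring
  refine (crit_a0 hc hc2 hcf x).mpr (fun χ hχ =>
    ratV_of_sqrt hc hc2 hcf hS hD hyx hycx hxy hb (t := Fintype.card X) ?_ hχ)
  rw [hbv, heps]
  have h1 : (κ : ℂ) * κ = 1 := by exact_mod_cast hκ2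
  push_cast
  linear_combination (-((Fintype.card X : ℂ) - 4) * ((Fintype.card X : ℂ) - 4)) * h1

end

end Pool.Agent.Run7.h333.CZ
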