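import Pool.Agent.Run7.h333.CZ.Cf4
import Pool.Agent.Run7.h333.CZ.PrimeMain

/-!
# CM fields whose maximal real subfield is multiply transitive
-/

set_option autoImplicit false

open scoped Classical
open NumberField

namespace Pool.Agent.Run7.h333.CZ

open Pool.Agent.N770.CP
open Pool.Agent.Results.MP_a2beea_nt.AveragedAndAbelian

variable {E K : Type} [Field E] [NumberField E] [Field K] [NumberField K]

/-- triple transitivity on the embeddings of the maximal real subfield. -/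
def TT (E K : Type) [Field E] [NumberField E] [Field K] [NumberField K] : Prop :=
  ∀ f₁ f₂ f₃ f₁' f₂' f₃' : maximalRealSubfield E →ₐ[ℚ] K,
    f₁ ≠ f₂ → f₁ ≠ f₃ → f₂ ≠ f₃ → f₁' ≠ f₂' → f₁' ≠ f₃' → f₂' ≠ f₃' →
    ∃ g : K ≃ₐ[ℚ] K, act g f₁ = f₁' ∧ act g f₂ = f₂' ∧ act g f₃ = f₃'

variable [IsGalois ℚ K] [IsCMField E] [IsCMField K]

omit [IsGalois ℚ K] in
lemma trp_of_TT (h : TT E K) : Trp (E →ₐ[ℚ] K) (conjugation K) := by
  intro x y z x' y' z' h1 h2 h3 h4 h5 h6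
  have key : ∀ {a b : E →ₐ[ℚ] K}, (b ≠ a ∧ b ≠ conjugation K • a) → res a ≠ res b := by
    rintro a b ⟨e1, e2⟩ e
    exact (not_or.mpr ⟨e1, e2⟩) ((res_eq_iff a b).mp e.symm)
  obtain ⟨g, hg⟩ := h (res x) (res y) (res z) (res x') (res y') (res z')
    (key h1) (key h2) (key h3) (key h4) (key h5) (key h6)
  rw [res_smul_iff, res_smul_iff, res_smul_iff] at hg
  exact ⟨g, hg⟩

/-- **Triply transitive.** -/
theorem fld_trp (hn : 3 ≤ Module.finrank ℚ (maximalRealSubfield E)) (hT : TT E K)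
    {Φ : Finset (E →ₐ[ℚ] K)} (hΦ : IsCMType Φ) (ψ : E →ₐ[ℚ] K) : a0 ψ Φ ∈ avgSpan K := by
  rw [mem_avg_iff ψ hΦ]
  exact trp_a0 (c := conjugation K) Pool.Agent.Q11.CZ.conj_comm
    Pool.Agent.Q11.CZ.conj_mul_self conj_free (trp_of_TT hT)
    ((card_emb ψ).trans finrank_E) hn Φ (isHalf hΦ) ψ

/-- **Doubly transitive, individual functions.** -/
theorem fld_dbl_a0 (hD : DT E K)
    (hn : Odd (Module.finrank ℚ (maximalRealSubfield E)) ∨
      (Module.finrank ℚ (maximalRealSubfield E) % 4 = 2 ∧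
        Module.finrank ℚ (maximalRealSubfield E) ≠ 2 ∧
        ∃ r : ℕ, Module.finrank ℚ (maximalRealSubfield E) = r ^ 2 + 1))
    {Φ : Finset (E →ₐ[ℚ] K)} (hΦ : IsCMType Φ) (ψ : E →ₐ[ℚ] K) : a0 ψ Φ ∈ avgSpan K := by
  rw [mem_avg_iff ψ hΦ]
  exact dbl_a0 (c := conjugation K) Pool.Agent.Q11.CZ.conj_comm
    Pool.Agent.Q11.CZ.conj_mul_self conj_free ((dbl_iff ψ).mpr hD)
    ((card_emb ψ).trans finrank_E) hn Φ (isHalf hΦ) ψ

/-- **Doubly transitive, heights.** -/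
theorem fld_dbl_T (hE : Nonempty (E →ₐ[ℚ] K)) (hD : DT E K)
    (hn : Module.finrank ℚ (maximalRealSubfield E) % 4 ≠ 2 ∨
        ∃ r : ℕ, Module.finrank ℚ (maximalRealSubfield E) = r ^ 2 + 1)
    {Φ : Finset (E →ₐ[ℚ] K)} (hΦ : IsCMType Φ) : heightFn Φ ∈ avgSpan K := by
  obtain ⟨ψ⟩ := hE
  rw [height_avg_iff hΦ]
  exact dbl_T (c := conjugation K) Pool.Agent.Q11.CZ.conj_comm
    Pool.Agent.Q11.CZ.conj_mul_self conj_free ((dbl_iff ψ).mpr hD)
    ((card_emb ψ).trans finrank_E) hn Φ (isHalf hΦ)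

end Pool.Agent.Run7.h333.CZ
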