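import Mathlib

/-!
# Circulant systems of prime order over the rational numbers
-/

set_option autoImplicit false

namespace Pool.Agent.Run7.h333.CZ

open Polynomial

/-- the `p`-th roots of unity satisfy only the obvious linear relation over `ℚ`. -/
lemma sum_root_eq_zero {p : ℕ} (hp : p.Prime) {ζ : ℂ} (hζ : IsPrimitiveRoot ζ p)
    (a : ℕ → ℚ) (h : ∑ j ∈ Finset.range p, (a j : ℂ) * ζ ^ j = 0) :
    ∀ i < p, a i = a 0 := by
  have hf : Fact p.Prime := ⟨hp⟩
  set f : ℚ[X] := ∑ j ∈ Finset.range p, C (a j) * X ^ j with hfdef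
  have hcoef : ∀ i < p, f.coeff i = a i := by
    intro i hi
    rw [hfdef, finsetSum_coeff]
    simp only [coeff_C_mul, coeff_X_pow]
    simp only [mul_ite, mul_one, mul_zero]
    rw [Finset.sum_ite_eq, if_pos (Finset.mem_range.mpr hi)]
  have hdeg : f.natDegree ≤ p - 1 := by
    refine natDegree_sum_le_of_forall_le _ _ (fun j hj => ?_)
    refine (natDegree_C_mul_X_pow_le _ _).trans ?_
    have := Finset.mem_range.mp hj
    omega
  have hroot : aeval ζ f = 0 := by
    rw [hfdef, map_sum, ← h]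
    refine Finset.sum_congr rfl (fun j _ => ?_)
    simp
  have hdvd : cyclotomic p ℚ ∣ f := by
    rw [cyclotomic_eq_minpoly_rat hζ hp.pos]
    exact minpoly.dvd ℚ ζ hroot
  obtain ⟨q, hq⟩ := hdvd
  by_cases hf0 : f = 0
  · intro i hi
    rw [← hcoef i hi, ← hcoef 0 hp.pos, hf0]
    simp
  have hq0 : q ≠ 0 := by
    rintro rfl
    exact hf0 (by rw [hq, mul_zero])
  have hc0 : cyclotomic p ℚ ≠ 0 := cyclotomic_ne_zero p ℚ
  have hqd : q.natDegree = 0 := by
    have h1 := natDegree_mul hc0 hq0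
    rw [← hq, natDegree_cyclotomic, Nat.totient_prime hp] at h1
    omega
  obtain ⟨r, hr⟩ : ∃ r : ℚ, q = C r := ⟨_, eq_C_of_natDegree_eq_zero hqd⟩
  have key : ∀ i < p, a i = r := by
    intro i hi
    rw [← hcoef i hi, hq, hr, coeff_mul_C, cyclotomic_prime, finsetSum_coeff]
    simp only [coeff_X_pow]
    rw [Finset.sum_ite_eq, if_pos (Finset.mem_range.mpr hi), one_mul]
  intro i hi
  rw [key i hi, key 0 hp.pos]

/-- the same with the additive character of `ℤ/p`. -/
lemma sum_char_eq_zero {p : ℕ} [hp : Fact p.Prime] {ζ : ℂ} (hζ : IsPrimitiveRoot ζ p)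
    (a : ZMod p → ℚ) (h : ∑ j : ZMod p, (a j : ℂ) * ζ ^ j.val = 0) (i : ZMod p) :
    a i = a 0 := by
  have h1 : ∑ j ∈ Finset.range p, (a (j : ZMod p) : ℂ) * ζ ^ j = 0 := by
    rw [← h]
    symm
    refine Finset.sum_bij' (fun (j : ZMod p) _ => j.val) (fun (j : ℕ) _ => (j : ZMod p))
      ?_ ?_ ?_ ?_ ?_
    · intro j _
      exact Finset.mem_range.mpr (ZMod.val_lt j)
    · intro j _
      exact Finset.mem_univ _
    · intro j _
      exact ZMod.natCast_zmod_val j
    · intro j hj
      exact ZMod.val_natCast_of_lt (Finset.mem_range.mp hj)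
    · intro j _
      rw [ZMod.natCast_zmod_val]
  have h2 := sum_root_eq_zero hp.out hζ (fun j => a (j : ZMod p)) h1 i.val (ZMod.val_lt i)
  simpa using h2

/-- **Circulant systems.** -/
theorem circ_const {p : ℕ} [hp : Fact p.Prime] (s v : ZMod p → ℚ)
    (hv : ∀ i, ∑ j, s (j - i) * v j = (∑ j, s j) * v i)
    {l : ZMod p} (hl : l ≠ 0) (hs : s l ≠ 0) (i : ZMod p) : v i = v 0 := by
  have hp0 : p ≠ 0 := hp.out.ne_zero
  set ζ : ℂ := Complex.exp (2 * Real.pi * Complex.I / p) with hζdef
  have hζ : IsPrimitiveRoot ζ p := Complex.isPrimitiveRoot_exp p hp0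
  set e : AddChar (ZMod p) ℂ := AddChar.zmodChar p hζ.pow_eq_one with he
  have hev : ∀ j, e j = ζ ^ j.val := fun j => AddChar.zmodChar_apply hζ.pow_eq_one j
  set m : ℚ := ∑ j, s j with hm
  -- the Fourier transform of the equation
  have h1 : (∑ l, (s l : ℂ) * e (-l)) * (∑ j, (v j : ℂ) * e j) = m * ∑ j, (v j : ℂ) * e j := by
    have h2 : ∀ i, ∑ j, (s (j - i) : ℂ) * (v j : ℂ) = (m : ℂ) * v i := by
      intro i
      have := congrArg (fun q : ℚ => (q : ℂ)) (hv i)
      push_cast at this
      exact this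
    have h3 : ∑ i, (∑ j, (s (j - i) : ℂ) * (v j : ℂ)) * e i = ∑ i, ((m : ℂ) * v i) * e i :=
      Finset.sum_congr rfl (fun i _ => by rw [h2])
    have h4 : ∑ i, (∑ j, (s (j - i) : ℂ) * (v j : ℂ)) * e i =
        (∑ l, (s l : ℂ) * e (-l)) * (∑ j, (v j : ℂ) * e j) := by
      rw [Finset.mul_sum]
      simp only [Finset.sum_mul]
      rw [Finset.sum_comm]
      refine Finset.sum_congr rfl (fun j _ => ?_)
      refine Fintype.sum_equiv (Equiv.subLeft j) _ _ (fun i => ?_)
      simp only [Equiv.subLeft_apply]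
      have h6 : e i = e (-(j - i)) * e j := by
        rw [← AddChar.map_add_eq_mul]
        congr 1
        ring
      rw [h6]
      ring
    rw [h4] at h3
    rw [h3, Finset.mul_sum]
    exact Finset.sum_congr rfl (fun i _ => by ring)
  have h5 : ((∑ l, (s l : ℂ) * e (-l)) - m) * (∑ j, (v j : ℂ) * e j) = 0 := by
    rw [sub_mul, h1, sub_self]
  rcases mul_eq_zero.mp h5 with h6 | h6
  · exfalso
    set a : ZMod p → ℚ := fun l => s (-l) - if l = 0 then m else 0 with ha
    have h7 : ∑ j : ZMod p, (a j : ℂ) * ζ ^ j.val = 0 := by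
      rw [ha]
      simp only [← hev]
      push_cast
      simp only [sub_mul, Finset.sum_sub_distrib]
      rw [← h6]
      congr 1
      · refine Fintype.sum_equiv (Equiv.neg (ZMod p)) _ _ (fun l => ?_)
        simp
      · have h13 : ∀ x : ZMod p, ((if x = 0 then m else 0 : ℚ) : ℂ) * e x =
            if x = 0 then (m : ℂ) else 0 := by
          intro x
          split_ifs with hx
          · rw [hx, AddChar.map_zero_eq_one, mul_one]
          · simp
        simp only [h13]
        rw [Finset.sum_ite_eq' , if_pos (Finset.mem_univ _)]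
    have h8 := sum_char_eq_zero hζ a h7
    have h9 : ∑ l, a l = 0 := by
      rw [ha, Finset.sum_sub_distrib]
      rw [Finset.sum_ite_eq', if_pos (Finset.mem_univ _), sub_eq_zero, hm]
      exact Fintype.sum_equiv (Equiv.neg (ZMod p)) _ _ (fun l => rfl)
    have h10 : (p : ℚ) * a 0 = 0 := by
      rw [← h9, Finset.sum_congr rfl (fun l _ => h8 l), Finset.sum_const, Finset.card_univ,
        ZMod.card, nsmul_eq_mul]
    have h11 : a 0 = 0 := by
      rcases mul_eq_zero.mp h10 with h | h
      · exact absurd h (by exact_mod_cast hp0)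
      · exact h
    have h12 := h8 (-l)
    rw [h11, ha] at h12
    simp only [neg_neg, neg_eq_zero, if_neg hl, sub_zero] at h12
    exact hs h12
  · simp only [hev] at h6
    exact sum_char_eq_zero hζ v h6 i

end Pool.Agent.Run7.h333.CZ
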