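import Pool.Agent.Run7.h333.CZ.Suf

/-!
# The classification in degree `2 p`: the group theory
-/

set_option autoImplicit false

open scoped Classical commutatorElement

namespace Pool.Agent.Run7.h333.CZ

open Pool.Agent.Q11.CZ Pool.Agent.N770.CP

variable {G : Type} [Group G] [Fintype G] {X : Type} [Fintype X] [MulAction G X]

section

variable {c : G} (hc : ∀ g, c * g = g * c) (hc2 : c * c = 1) (hc1 : c ≠ 1)
  (hcf : ∀ x : X, c • x ≠ x)

/-- the functional `f ↦ f g - f g'`. -/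
noncomputable def dfL (g g' : G) : (G → ℚ) →ₗ[ℚ] ℚ :=
  (LinearMap.proj g : (G → ℚ) →ₗ[ℚ] ℚ) - (LinearMap.proj g' : (G → ℚ) →ₗ[ℚ] ℚ)

omit [Group G] [Fintype G] in
lemma dfL_apply (g g' : G) (f : G → ℚ) : dfL g g' f = f g - f g' := rfl

omit [Group G] [Fintype G] in
lemma dfL_one (g g' : G) : dfL g g' (fun _ => 1) = 0 := by
  rw [dfL_apply, sub_self]

include hc hc2 hc1 hcf in
/-- **No invariant half.** -/
theorem zinv_a0_of_no_sub [MulAction.IsPretransitive G X] {p : ℕ} (hp : p.Prime) (hp2 : p ≠ 2)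
    (hX : Fintype.card X = 2 * p)
    (hno : ¬ ∃ H : Subgroup G, (∀ g, g ∈ H ∨ c * g ∈ H) ∧ c ∉ H ∧
      ∀ z : X, MulAction.stabilizer G z ≤ H) (x : X) {Φ : Finset X} (hΦ : IsHalf c Φ) :
    ZInv (a0 x Φ : G → ℚ) := by
  have hzn : (Subgroup.zpowers c).Normal := ⟨fun n hn g => by
    obtain ⟨i, rfl⟩ := Subgroup.mem_zpowers_iff.mp hn
    have h1 : g * c ^ i * g⁻¹ = c ^ i := by
      rw [← ((show Commute c g from hc g).zpow_left i).eq, mul_inv_cancel_right]
    rw [h1]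
    exact hn⟩
  have hmemc : ∀ a : Subgroup.zpowers c, a = 1 ∨ a = ⟨c, Subgroup.mem_zpowers c⟩ := by
    rintro ⟨g, hg⟩
    obtain ⟨i, rfl⟩ := Subgroup.mem_zpowers_iff.mp hg
    have h2 : c ^ (2 : ℤ) = 1 := by rw [zpow_ofNat, pow_two, hc2]
    rcases Int.even_or_odd' i with ⟨t, rfl | rfl⟩
    · left
      apply Subtype.ext
      change c ^ (2 * t) = 1
      rw [zpow_mul, h2, one_zpow]
    · right
      apply Subtype.ext
      change c ^ (2 * t + 1) = c
      rw [zpow_add, zpow_mul, h2, one_zpow, one_mul, zpow_one]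
  have hz1 : (⟨c, Subgroup.mem_zpowers c⟩ : Subgroup.zpowers c) ≠ 1 := fun h =>
    hc1 (congrArg Subtype.val h)
  refine zinv_a0 (A := Subgroup.zpowers c) (r := fun a x => (a : G) • x) (c := c)
    (z := ⟨c, Subgroup.mem_zpowers c⟩) (fun x => one_smul _ _) (fun a b x => mul_smul _ _ _)
    ?_ hc hc2 hc1 ?_ ?_ (fun x => rfl) ?_ x hΦ ?_
  · intro g a x
    have h1 : (a : G) * g = g * a := by
      obtain ⟨i, hi⟩ := Subgroup.mem_zpowers_iff.mp a.2
      rw [← hi]
      exact ((show Commute c g from hc g).zpow_left i).eq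
    rw [← mul_smul, ← mul_smul, h1]
  · intro a
    apply Subtype.ext
    exact hc a
  · apply Subtype.ext
    exact hc2
  · intro a
    right
    intro a' ha'
    have h3 : a' = a := by
      rcases hmemc a with rfl | rfl
      · rw [Subgroup.zpowers_one_eq_bot, Subgroup.zpowers_eq_bot] at ha'
        exact ha'
      · rcases hmemc a' with rfl | rfl
        · rw [Subgroup.zpowers_one_eq_bot] at ha'
          exact absurd (Subgroup.zpowers_eq_bot.mp ha'.symm) hz1
        · rfl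
    rw [h3]
  · intro y
    by_cases h1 : ∃ k : G, k • x = x ∧ k • y = c • y
    · exact Or.inl h1
    right
    by_cases h2 : y = x
    · exact ⟨1, by rw [h2]; exact (one_smul _ _).symm⟩
    by_cases h3 : y = c • x
    · exact ⟨⟨c, Subgroup.mem_zpowers c⟩, h3⟩
    exact absurd (exists_sub hc hc2 hcf hp hp2 hX h2 h3 h1) hno

variable {H : Subgroup G} (hH1 : ∀ g, g ∈ H ∨ c * g ∈ H) (hH2 : c ∉ H)
  (hH3 : ∀ z : X, MulAction.stabilizer G z ≤ H)

include hc hH1 hH2 in
lemma trans_sub [MulAction.IsPretransitive G X] (hc2 : c * c = 1) (x y : X) :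
    ∃ n ∈ H, n • x = y ∨ n • x = c • y := by
  rcases rel_or hc2 hH1 x y with ⟨n, hn, h⟩ | ⟨n, hn, h⟩
  · exact ⟨n, hn, Or.inl h⟩
  · exact ⟨n, hn, Or.inr h⟩

include hc hc2 hcf hH1 hH2 hH3 in
/-- **Individual functions, averages.** -/
theorem zinv_a0_iff [MulAction.IsPretransitive G X] {p : ℕ} (hp : p.Prime) (hp2 : p ≠ 2)
    (hX : Fintype.card X = 2 * p) :
    (∀ Φ : Finset X, IsHalf c Φ → ∀ x : X, ZInv (a0 x Φ : G → ℚ)) ↔ Dbl X c := by
  constructor
  · intro hall
    refine dbl_of hc hc2 hcf hH1 hH2 hH3 hp hp2 hX le_rfl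
      (trans_sub hc hH1 hH2 hc2) (fun x y g _ j hj => ?_)
    have h1 := (L_a0_iff hc hc2 hcf (dfL (g ^ j) g) (dfL_one _ _) x).mp (fun Φ hΦ => by
      rw [dfL_apply, hall Φ hΦ x _ _ (zpowers_pow hj g), sub_self]) y
    rw [dfL_apply, sub_eq_zero] at h1
    exact h1
  · intro hD Φ hΦ x g g' hgg
    have h1 := (L_a0_iff hc hc2 hcf (dfL g g') (dfL_one _ _) x).mpr (fun y => by
      rw [dfL_apply, dlF_of_dbl hc hc2 hcf hH1 hH2 hH3 hD x y hgg, sub_self]) Φ hΦ
    rw [dfL_apply, sub_eq_zero] at h1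
    exact h1

include hc hc2 hcf hH1 hH2 hH3 in
/-- **Heights, averages.** -/
theorem zinv_T_iff [MulAction.IsPretransitive G X] {p : ℕ} (hp : p.Prime) (hp2 : p ≠ 2)
    (hX : Fintype.card X = 2 * p) :
    (∀ Φ : Finset X, IsHalf c Φ → ZInv (T Φ : G → ℚ)) ↔ Hmg X c := by
  constructor
  · intro hall
    refine hmg_of hc hc2 hcf hH1 hH2 hH3 hp hp2 hX le_rfl
      (trans_sub hc hH1 hH2 hc2) (fun x y g _ j hj => ?_)
    have h0 : ∀ x : X, dfL (g ^ j) g (dlF c x x) = 0 := fun x => by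
      rw [dfL_apply, dlF_self hc hc2 x (zpowers_pow hj g), sub_self]
    have h1 := (L_T_iff hc hc2 hcf (dfL (g ^ j) g) (dfL_one _ _) h0).mp (fun Φ hΦ => by
      rw [dfL_apply, hall Φ hΦ _ _ (zpowers_pow hj g), sub_self]) x y
    rw [dfL_apply, dfL_apply] at h1
    linarith
  · intro hD Φ hΦ g g' hgg
    have h0 : ∀ x : X, dfL g g' (dlF c x x) = 0 := fun x => by
      rw [dfL_apply, dlF_self hc hc2 x hgg, sub_self]
    have h1 := (L_T_iff hc hc2 hcf (dfL g g') (dfL_one _ _) h0).mpr (fun x y => by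
      rw [dfL_apply, dfL_apply]
      have := dlF_of_hmg hc hc2 hcf hH1 hH2 hH3 hD x y hgg
      linarith) Φ hΦ
    rw [dfL_apply, sub_eq_zero] at h1
    exact h1

omit [Fintype X] in
lemma twist_of_triv (hN : ∀ z ∈ commutator G, ∀ x : X, z • x = x) [Fintype X] (x : X)
    (Φ : Finset X) : Twist (a0 x Φ : G → ℚ) := by
  refine twist_of_abInv ?_
  intro g z hz
  rw [a0_ab hN, a0_ab hN, mul_smul, hN z hz]

omit [Fintype X] in
lemma twist_T_of_triv (hN : ∀ z ∈ commutator G, ∀ x : X, z • x = x) [Fintype X]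
    (Φ : Finset X) : Twist (T Φ : G → ℚ) := by
  refine twist_of_abInv ?_
  intro g z hz
  unfold T
  refine Finset.sum_congr rfl (fun x _ => ?_)
  rw [a0_ab hN, a0_ab hN, mul_smul, hN z hz]

include hc hc2 hcf hH1 hH2 hH3 in
/-- **Individual functions, averages and abelian fields.** -/
theorem twist_a0_iff [MulAction.IsPretransitive G X] {p : ℕ} (hp : p.Prime) (hp2 : p ≠ 2)
    (hX : Fintype.card X = 2 * p) :
    (∀ Φ : Finset X, IsHalf c Φ → ∀ x : X, Twist (a0 x Φ : G → ℚ)) ↔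
      (Dbl X c ∨ ∀ z ∈ commutator G, ∀ x : X, z • x = x) := by
  constructor
  · intro hall
    rcases normal_cases hc hc2 hcf hH2 hH3 hp hX (commutator_le_sub hc hH1) with h2 | h2
    · left
      refine dbl_of hc hc2 hcf hH1 hH2 hH3 hp hp2 hX (commutator_le_sub hc hH1) h2
        (fun x y g hg j hj => ?_)
      have h1 := (L_a0_iff hc hc2 hcf (dfL (g ^ j) g) (dfL_one _ _) x).mp (fun Φ hΦ => by
        have h3 := hall Φ hΦ x j hj 1 g hg
        rw [one_mul, one_pow, sub_self] at h3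
        rw [dfL_apply, h3]) y
      rw [dfL_apply, sub_eq_zero] at h1
      exact h1
    · exact Or.inr h2
  · rintro (hD | hN) Φ hΦ x
    · exact twist_of_zInv ((zinv_a0_iff hc hc2 hcf hH1 hH2 hH3 hp hp2 hX).mpr hD Φ hΦ x)
    · exact twist_of_triv hN x Φ

include hc hc2 hcf hH1 hH2 hH3 in
/-- **Heights, averages and abelian fields.** -/
theorem twist_T_iff [MulAction.IsPretransitive G X] {p : ℕ} (hp : p.Prime) (hp2 : p ≠ 2)
    (hX : Fintype.card X = 2 * p) :
    (∀ Φ : Finset X, IsHalf c Φ → Twist (T Φ : G → ℚ)) ↔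
      (Hmg X c ∨ ∀ z ∈ commutator G, ∀ x : X, z • x = x) := by
  constructor
  · intro hall
    rcases normal_cases hc hc2 hcf hH2 hH3 hp hX (commutator_le_sub hc hH1) with h2 | h2
    · left
      refine hmg_of hc hc2 hcf hH1 hH2 hH3 hp hp2 hX (commutator_le_sub hc hH1) h2
        (fun x y g hg j hj => ?_)
      have h0 : ∀ x : X, dfL (g ^ j) g (dlF c x x) = 0 := fun x => by
        rw [dfL_apply, dlF_self hc hc2 x (zpowers_pow hj g), sub_self]
      have h1 := (L_T_iff hc hc2 hcf (dfL (g ^ j) g) (dfL_one _ _) h0).mp (fun Φ hΦ => by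
        have h3 := hall Φ hΦ j hj 1 g hg
        rw [one_mul, one_pow, sub_self] at h3
        rw [dfL_apply, h3]) x y
      rw [dfL_apply, dfL_apply] at h1
      linarith
    · exact Or.inr h2
  · rintro (hD | hN) Φ hΦ
    · exact twist_of_zInv ((zinv_T_iff hc hc2 hcf hH1 hH2 hH3 hp hp2 hX).mpr hD Φ hΦ)
    · exact twist_T_of_triv hN Φ

end

end Pool.Agent.Run7.h333.CZ
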