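import Pool.Agent.Run7.h333.CZ.Eig
import Pool.Agent.Run7.h333.CZ.PrimeGrp

/-!
# The criterion in terms of characters: the group theory
-/

set_option autoImplicit false

open scoped Classical commutatorElement

namespace Pool.Agent.Run7.h333.CZ

open Pool.Agent.Q11.CZ Pool.Agent.N770.CP

section gal

variable {G : Type} [Group G] [Fintype G]
variable {n : ℕ} [NeZero n] {L : Type} [Field L] [NumberField L]
  [hL : IsCyclotomicExtension {n} ℚ L] (φ : L →+* ℂ)

variable (n) in
omit [Fintype G] in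
/-- the values of `f` at the powers of `g` are conjugate. -/
def GalComp (f : G → ℂ) : Prop := ∀ g, ∃ x : L, φ x = f g ∧ ∀ t : (ZMod n)ˣ,
  φ ((IsCyclotomicExtension.Rat.galEquivZMod n L).symm t x) = f (g ^ (t : ZMod n).val)

omit [Fintype G] in
lemma galComp_chr {W : Type} [AddCommGroup W] [Module ℂ W] [FiniteDimensional ℂ W]
    (ρ : Representation ℂ G W) (hn : Nat.card G = n) : GalComp n φ (chr ρ) :=
  fun g => exists_val ρ hn φ g

variable {φ}

omit [Fintype G] in
lemma galComp_add_inv {f : G → ℂ} (hf : GalComp n φ f) : GalComp n φ (fun g => f g + f g⁻¹) := by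
  intro g
  obtain ⟨x, hx, hx'⟩ := hf g
  obtain ⟨y, hy, hy'⟩ := hf g⁻¹
  refine ⟨x + y, by rw [map_add, hx, hy], fun t => ?_⟩
  rw [map_add, map_add, hx', hy', inv_pow]

omit [Fintype G] [NeZero n] in
lemma pow_unit (hn : Nat.card G = n) {j : ℕ} (hj : j.Coprime n) :
    ∃ t : (ZMod n)ˣ, ∀ g : G, g ^ (t : ZMod n).val = g ^ j := by
  refine ⟨ZMod.unitOfCoprime j hj, fun g => ?_⟩
  rw [ZMod.coe_unitOfCoprime, ZMod.val_natCast, ← hn, pow_mod_natCard]

lemma rat_of_z (hn : Nat.card G = n) {f : G → ℂ} (hf : GalComp n φ f)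
    (hz : ∀ g g' : G, Subgroup.zpowers g = Subgroup.zpowers g' → f g = f g') (g : G) :
    ∃ q : ℚ, f g = q := by
  obtain ⟨x, hx, hx'⟩ := hf g
  have hgal : IsGalois ℚ L := IsCyclotomicExtension.isGalois {n} ℚ L
  have h1 : ∀ σ : L ≃ₐ[ℚ] L, σ x = x := by
    intro σ
    apply φ.injective
    have h2 := hx' (IsCyclotomicExtension.Rat.galEquivZMod n L σ)
    rw [MulEquiv.symm_apply_apply] at h2
    rw [h2, hx]
    refine (hz _ _ ?_).symm
    refine (zpowers_pow ?_ g).symm
    rw [hn]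
    exact ZMod.val_coe_unit_coprime _
  obtain ⟨q, hq⟩ := (IsGalois.mem_range_algebraMap_iff_fixed x).mpr h1
  refine ⟨q, ?_⟩
  rw [← hx, ← hq]
  simp

omit [Fintype G] in
lemma pow_eq_of_rat (hn : Nat.card G = n) {f : G → ℂ} (hf : GalComp n φ f) (g : G)
    (hg : ∃ q : ℚ, f g = q) {j : ℕ} (hj : j.Coprime n) : f (g ^ j) = f g := by
  obtain ⟨q, hq⟩ := hg
  obtain ⟨x, hx, hx'⟩ := hf g
  obtain ⟨t, ht⟩ := pow_unit hn hj
  have h1 : x = (q : L) := by
    apply φ.injective
    rw [hx, hq, map_ratCast]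
  rw [← ht, ← hx', h1, map_ratCast, map_ratCast, hq]

omit [Fintype G] in
lemma sum_pow_zero (hn : Nat.card G = n) {f : G → ℂ} (hf : GalComp n φ f) {ι : Type}
    (S : Finset ι) (γ : ι → G) (h : ∑ i ∈ S, f (γ i) = 0) {j : ℕ} (hj : j.Coprime n) :
    ∑ i ∈ S, f (γ i ^ j) = 0 := by
  obtain ⟨t, ht⟩ := pow_unit hn hj
  choose x hx hx' using hf
  have h1 : ∑ i ∈ S, x (γ i) = 0 := by
    apply φ.injective
    rw [map_sum, map_zero, ← h]
    exact Finset.sum_congr rfl (fun i _ => hx _)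
  have h2 : ∀ i, f (γ i ^ j) =
      φ ((IsCyclotomicExtension.Rat.galEquivZMod n L).symm t (x (γ i))) := fun i => by
    rw [hx', ht]
  rw [Finset.sum_congr rfl (fun i _ => h2 i), ← map_sum, ← map_sum, h1, map_zero, map_zero]

/-- the condition for the sum of the two spaces, for complex functions. -/
def TwistC (f : G → ℂ) : Prop := ∀ j : ℕ, j.Coprime (Nat.card G) → ∀ g : G, ∀ z ∈ commutator G,
  f ((g * z) ^ j) - f (g * z) = f (g ^ j) - f g

lemma rat_of_twist (hn : Nat.card G = n) {f : G → ℂ} (hf : GalComp n φ f)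
    (h0 : ∀ g : G, ∑ z : commutator G, f (g * z) = 0) (ht : TwistC f) (g : G) :
    ∃ q : ℚ, f g = q := by
  refine rat_of_z hn hf (fun g g' hgg => ?_) g
  obtain ⟨j, hj, hu⟩ : ∃ j : ℕ, j.Coprime (Nat.card G) ∧ g' = g ^ j := by
    obtain ⟨u, hu⟩ := exists_unit hgg
    exact ⟨_, ZMod.val_coe_unit_coprime u, hu⟩
  have hj' : j.Coprime n := by rw [← hn]; exact hj
  have h1 := sum_pow_zero hn hf Finset.univ (fun z : commutator G => g * (z : G)) (h0 g) hj'
  have h2 : ∀ z : commutator G, f ((g * z) ^ j) - f (g * z) =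
      f (g ^ j) - f g := fun z => ht _ hj g z z.2
  have h3 : ∑ z : commutator G, (f ((g * z) ^ j) - f (g * z)) =
      Fintype.card (commutator G) * (f (g ^ j) - f g) := by
    rw [Finset.sum_congr rfl (fun z _ => h2 z), Finset.sum_const, Finset.card_univ,
      nsmul_eq_mul]
  rw [Finset.sum_sub_distrib, h0 g, sub_zero] at h3
  rw [h1] at h3
  have h4 : (Fintype.card (commutator G) : ℂ) ≠ 0 := by exact_mod_cast Fintype.card_ne_zero
  rcases mul_eq_zero.mp h3.symm with h5 | h5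
  · exact absurd h5 h4
  · rw [hu]
    exact (sub_eq_zero.mp h5).symm

lemma twist_of_rat (hn : Nat.card G = n) {f : G → ℂ} (hf : GalComp n φ f)
    (hr : ∀ g, ∃ q : ℚ, f g = q) : TwistC f := by
  intro j hj g z _
  rw [hn] at hj
  rw [pow_eq_of_rat hn hf _ (hr _) hj, pow_eq_of_rat hn hf _ (hr _) hj, sub_self, sub_self]

lemma z_of_rat (hn : Nat.card G = n) {f : G → ℂ} (hf : GalComp n φ f)
    (hr : ∀ g, ∃ q : ℚ, f g = q) (g g' : G) (hgg : Subgroup.zpowers g = Subgroup.zpowers g') :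
    f g = f g' := by
  obtain ⟨j, hj, hu⟩ : ∃ j : ℕ, j.Coprime (Nat.card G) ∧ g' = g ^ j := by
    obtain ⟨u, hu⟩ := exists_unit hgg
    exact ⟨_, ZMod.val_coe_unit_coprime u, hu⟩
  rw [hn] at hj
  rw [hu, pow_eq_of_rat hn hf g (hr g) hj]

end gal

section irr

variable {G : Type} [Group G] [Fintype G]
variable {W : Type} [AddCommGroup W] [Module ℂ W] [FiniteDimensional ℂ W]
  (ρ : Representation ℂ G W)

omit [Fintype G] in
lemma chr_one : chr ρ 1 = Module.finrank ℂ W := by
  unfold chr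
  rw [map_one]
  exact LinearMap.trace_one ℂ W

omit [Fintype G] [FiniteDimensional ℂ W] in
lemma nontrivial_of_irr [hρ : ρ.IsIrreducible] : Nontrivial W := by
  by_contra h
  rw [not_nontrivial_iff_subsingleton] at h
  have h1 : (⊥ : Subrepresentation ρ) = ⊤ := by
    apply Subrepresentation.toSubmodule_injective
    exact Subsingleton.elim _ _
  exact bot_ne_top h1

omit [Fintype G] [FiniteDimensional ℂ W] in
/-- if all operators are scalar, the dimension is one. -/
lemma finrank_of_scalar [hρ : ρ.IsIrreducible] (h : ∀ g, ∃ μ : ℂ, ∀ w, ρ g w = μ • w) :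
    Module.finrank ℂ W = 1 := by
  have hnt := nontrivial_of_irr ρ
  obtain ⟨w, hw⟩ := exists_ne (0 : W)
  let S : Subrepresentation ρ :=
    { toSubmodule := Submodule.span ℂ {w}
      apply_mem_toSubmodule := fun g v hv => by
        obtain ⟨μ, hμ⟩ := h g
        rw [hμ]
        exact Submodule.smul_mem _ _ hv }
  rcases eq_bot_or_eq_top S with h1 | h1
  · exfalso
    have h2 : Submodule.span ℂ {w} = ⊥ := congrArg Subrepresentation.toSubmodule h1
    rw [Submodule.span_singleton_eq_bot] at h2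
    exact hw h2
  · have h2 : Submodule.span ℂ {w} = ⊤ := congrArg Subrepresentation.toSubmodule h1
    rw [finrank_eq_one_iff_of_nonzero w hw]
    exact h2

/-- the sums of a nonlinear irreducible character over the cosets of the commutator subgroup. -/
lemma sum_comm_zero [hρ : ρ.IsIrreducible] (h1 : chr ρ 1 ≠ 1) (g : G) :
    ∑ z : commutator G, chr ρ (g * z) = 0 := by
  set Q : W →ₗ[ℂ] W := ∑ z : commutator G, ρ z with hQ
  have hQa : ∀ w, Q w = ∑ z : commutator G, ρ z w := fun w => by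
    rw [hQ, LinearMap.sum_apply]
  have hQc : ∀ g w, Q (ρ g w) = ρ g (Q w) := by
    intro g w
    rw [hQa, hQa, map_sum]
    let e : commutator G ≃ commutator G :=
      (MulAut.conjNormal g : commutator G ≃* commutator G).toEquiv
    refine (Fintype.sum_equiv e _ _ (fun z => ?_)).symm
    have h2 : ((e z : commutator G) : G) = g * z * g⁻¹ := MulAut.conjNormal_apply g z
    rw [h2, ← Module.End.mul_apply, ← Module.End.mul_apply, ← map_mul, ← map_mul,
      inv_mul_cancel_right]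
  obtain ⟨μ, hμ⟩ := schur ρ Q hQc
  have hμ0 : μ = 0 := by
    by_contra hne
    -- the commutator subgroup acts trivially
    have h2 : ∀ z ∈ commutator G, ∀ w, ρ z w = w := by
      intro z hz w
      have h3 : ρ z (Q w) = Q w := by
        rw [hQa, map_sum]
        refine Fintype.sum_equiv (Equiv.mulLeft (⟨z, hz⟩ : commutator G)) _ _ (fun y => ?_)
        rw [← Module.End.mul_apply, ← map_mul]
        rfl
      rw [hμ, map_smul] at h3
      exact smul_right_injective W hne h3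
    apply h1
    rw [chr_one, finrank_of_scalar ρ, Nat.cast_one]
    intro a
    refine schur ρ (ρ a) (fun b w => ?_)
    have h3 := h2 ⁅a, b⁆ (Subgroup.commutator_mem_commutator (Subgroup.mem_top _)
      (Subgroup.mem_top _)) (ρ (b * a) w)
    rw [← Module.End.mul_apply, ← map_mul, commutatorElement_def] at h3
    have h4 : a * b * a⁻¹ * b⁻¹ * (b * a) = a * b := by group
    rw [h4, map_mul, map_mul, Module.End.mul_apply, Module.End.mul_apply] at h3
    exact h3
  have h2 : ∑ z : commutator G, chr ρ (g * z) = LinearMap.trace ℂ W (ρ g * Q) := by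
    rw [hQ, Finset.mul_sum, map_sum]
    refine Finset.sum_congr rfl (fun z _ => ?_)
    unfold chr
    rw [map_mul]
  have h3 : Q = 0 := by
    apply LinearMap.ext
    intro w
    rw [hμ, hμ0, zero_smul, LinearMap.zero_apply]
  rw [h2, h3, mul_zero, map_zero]

omit [Fintype G] [FiniteDimensional ℂ W] in
lemma chr_mul_comm (a b : G) : chr ρ (a * b) = chr ρ (b * a) := by
  unfold chr
  rw [map_mul ρ, map_mul ρ, LinearMap.trace_mul_comm]

lemma sum_comm_zero' [hρ : ρ.IsIrreducible] (h1 : chr ρ 1 ≠ 1) (g : G) :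
    ∑ z : commutator G, (chr ρ (g * z) + chr ρ (g * z)⁻¹) = 0 := by
  rw [Finset.sum_add_distrib, sum_comm_zero ρ h1 g, zero_add, ← sum_comm_zero ρ h1 g⁻¹]
  refine Fintype.sum_equiv (Equiv.inv (commutator G)) _ _ (fun z => ?_)
  rw [mul_inv_rev, chr_mul_comm]
  rfl

omit [Fintype G] in
/-- a linear character is trivial on commutators. -/
lemma twist_of_linear [Fintype G] (h1 : chr ρ 1 = 1) (g z : G) (hz : z ∈ commutator G) (j : ℕ) :
    chr ρ ((g * z) ^ j) = chr ρ (g ^ j) := by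
  have hfr : Module.finrank ℂ W = 1 := by
    rw [chr_one] at h1
    exact_mod_cast h1
  obtain ⟨w₀, hw₀, hw⟩ := finrank_eq_one_iff'.mp hfr
  have hsc : ∀ f : W →ₗ[ℂ] W, ∃ μ : ℂ, ∀ w, f w = μ • w := by
    intro f
    obtain ⟨μ, hμ⟩ := hw (f w₀)
    refine ⟨μ, fun w => ?_⟩
    obtain ⟨ν, rfl⟩ := hw w
    rw [map_smul, ← hμ, smul_comm]
  have hcomm : ∀ f f' : Module.End ℂ W, f * f' = f' * f := by
    intro f f'
    obtain ⟨μ, hμ⟩ := hsc f
    obtain ⟨ν, hν⟩ := hsc f'
    apply LinearMap.ext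
    intro w
    rw [Module.End.mul_apply, Module.End.mul_apply, hμ, hν, hμ, hν, smul_comm]
  have hker : commutator G ≤ MonoidHom.ker (ρ : G →* Module.End ℂ W) := by
    rw [commutator_def, Subgroup.commutator_le]
    intro a _ b _
    rw [MonoidHom.mem_ker, commutatorElement_def, map_mul, map_mul, map_mul,
      hcomm (ρ a) (ρ b), mul_assoc (ρ b), ← map_mul, mul_inv_cancel, map_one, mul_one,
      ← map_mul, mul_inv_cancel, map_one]
  have h2 : ρ z = 1 := hker hz
  unfold chr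
  rw [map_pow ρ, map_mul ρ, h2, mul_one, map_pow ρ]

end irr

section crit

variable {G : Type} [Group G] [Fintype G] {X : Type} [Fintype X] [MulAction G X]
variable {c : G} (hc : ∀ g, c * g = g * c) (hc2 : c * c = 1) (hcf : ∀ x : X, c • x ≠ x)

omit [Fintype G] [Fintype X] in
lemma oddChar_base [MulAction.IsPretransitive G X] (x y : X) {χ : G → ℂ}
    (h : OddChar c x χ) : OddChar c y χ := by
  obtain ⟨W, i1, i2, i3, ρ, hirr, hodd, ⟨w, hw0, hw⟩, hχ⟩ := h
  obtain ⟨k, rfl⟩ := MulAction.exists_smul_eq G x y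
  refine ⟨W, i1, i2, i3, ρ, hirr, hodd, ⟨ρ k w, ?_, ?_⟩, hχ⟩
  · intro h0
    apply hw0
    have h1 := congrArg (ρ k⁻¹) h0
    rw [← Module.End.mul_apply, ← map_mul, inv_mul_cancel, map_one, map_zero] at h1
    exact h1
  · intro g hg
    have h1 : (k⁻¹ * g * k) • x = x := by
      rw [mul_assoc, mul_smul, inv_smul_eq_iff, mul_smul, hg]
    have h2 := hw _ h1
    have h3 : g * k = k * (k⁻¹ * g * k) := by group
    rw [← Module.End.mul_apply, ← map_mul, h3, map_mul, Module.End.mul_apply, h2]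

omit [Fintype X] in
lemma cnt_symm (x y : X) (g : G) : cnt y x g = cnt x y g⁻¹ := by
  unfold cnt
  congr 1
  ext h
  simp only [Finset.mem_filter, Finset.mem_univ, true_and]
  have h1 : h⁻¹ * g⁻¹ * h = (h⁻¹ * g * h)⁻¹ := by group
  rw [h1, inv_smul_eq_iff]
  exact eq_comm

omit [Fintype X] in
include hc hc2 in
lemma dlF_symm (x y : X) (g : G) : dlF c y x g = dlF c x y g⁻¹ := by
  unfold dlF
  rw [cnt_symm x y, cnt_symm (c • x) y]
  have h1 := cnt_cc hc (c • x) y g⁻¹
  rw [← mul_smul, hc2, one_smul] at h1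
  rw [← h1]

/-- the linear functional with coefficients `a`. -/
noncomputable def coL (a : G → ℚ) : (G → ℚ) →ₗ[ℚ] ℚ where
  toFun f := ∑ g, a g * f g
  map_add' f f' := by
    simp only [Pi.add_apply, mul_add, Finset.sum_add_distrib]
  map_smul' r f := by
    simp only [Pi.smul_apply, smul_eq_mul, RingHom.id_apply, Finset.mul_sum]
    exact Finset.sum_congr rfl (fun g _ => by ring)

omit [Group G] in
lemma coL_apply (a f : G → ℚ) : coL a f = ∑ g, a g * f g := rfl

omit [Group G] in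
lemma coL_one {a : G → ℚ} (ha : ∑ g, a g = 0) : coL a (fun _ => 1) = 0 := by
  rw [coL_apply]
  simpa using ha

include hc hc2 in
lemma coL_dlF [MulAction.IsPretransitive G X] (x : X) (a : G → ℚ) :
    (∀ y : X, coL a (dlF c x y) = 0) ↔
      ∀ χ : G → ℂ, OddChar c x χ → ∑ g, (a g : ℂ) * χ g = 0 := by
  have h1 : ∀ y : X, ((coL a (dlF c x y) : ℚ) : ℂ) =
      ∑ g, (a g : ℂ) * ((dlF c x y g : ℚ) : ℂ) := by
    intro y
    rw [coL_apply]
    push_cast
    rfl
  constructor
  · intro h χ hχ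
    refine chr_of_sum_dlF hc2 x (fun g => (a g : ℂ)) (fun y => ?_) χ hχ
    rw [← h1, h y, Rat.cast_zero]
  · intro h y
    have h2 := sum_dlF_of_chr hc hc2 x (fun g => (a g : ℂ)) h y
    rw [← h1] at h2
    exact_mod_cast h2

include hc hc2 hcf in
/-- **Individual functions.** -/
theorem key_a0 [MulAction.IsPretransitive G X] (x₀ : X) {a : G → ℚ} (ha : ∑ g, a g = 0) :
    (∀ Φ : Finset X, IsHalf c Φ → ∀ x : X, coL a (a0 x Φ) = 0) ↔
      ∀ χ : G → ℂ, OddChar c x₀ χ → ∑ g, (a g : ℂ) * χ g = 0 := by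
  constructor
  · intro h
    refine (coL_dlF hc hc2 x₀ a).mp ?_
    exact (L_a0_iff hc hc2 hcf (coL a) (coL_one ha) x₀).mp (fun Φ hΦ => h Φ hΦ x₀)
  · intro h Φ hΦ x
    refine (L_a0_iff hc hc2 hcf (coL a) (coL_one ha) x).mpr ?_ Φ hΦ
    refine (coL_dlF hc hc2 x a).mpr (fun χ hχ => h χ (oddChar_base x x₀ hχ))

include hc hc2 hcf in
/-- **Heights.** -/
theorem key_T [MulAction.IsPretransitive G X] (x₀ : X) {a : G → ℚ} (ha : ∑ g, a g = 0)
    (hxx : ∀ x : X, coL a (dlF c x x) = 0) :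
    (∀ Φ : Finset X, IsHalf c Φ → coL a (T Φ) = 0) ↔
      ∀ χ : G → ℂ, OddChar c x₀ χ → ∑ g, (a g : ℂ) * (χ g + χ g⁻¹) = 0 := by
  set b : G → ℚ := fun g => a g + a g⁻¹ with hb
  have h1 : ∀ x y : X, coL a (dlF c x y) + coL a (dlF c y x) = coL b (dlF c x y) := by
    intro x y
    simp only [coL_apply, hb, add_mul, Finset.sum_add_distrib]
    congr 1
    refine Fintype.sum_equiv (Equiv.inv G) _ _ (fun g => ?_)
    rw [Equiv.inv_apply, inv_inv, dlF_symm hc hc2 x y]
  have h2 : ∀ χ : G → ℂ, ∑ g, (b g : ℂ) * χ g = ∑ g, (a g : ℂ) * (χ g + χ g⁻¹) := by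
    intro χ
    simp only [hb, Rat.cast_add, add_mul, mul_add, Finset.sum_add_distrib]
    congr 1
    refine Fintype.sum_equiv (Equiv.inv G) _ _ (fun g => ?_)
    rw [Equiv.inv_apply, inv_inv]
  rw [L_T_iff hc hc2 hcf (coL a) (coL_one ha) hxx]
  simp only [h1]
  constructor
  · intro h χ hχ
    rw [← h2]
    exact (coL_dlF hc hc2 x₀ b).mp (fun y => h x₀ y) χ hχ
  · intro h x y
    refine (coL_dlF hc hc2 x b).mpr (fun χ hχ => ?_) y
    rw [h2]
    exact h χ (oddChar_base x x₀ hχ)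

end crit

end Pool.Agent.Run7.h333.CZ
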