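import Pool.Agent.Run7.h333.CZ.Crit

/-!
# The criterion in terms of characters
-/

set_option autoImplicit false

open scoped Classical commutatorElement

namespace Pool.Agent.Run7.h333.CZ

open Pool.Agent.Q11.CZ Pool.Agent.N770.CP

section chars

variable {G : Type} [Group G] [Fintype G] {X : Type} [MulAction G X] {c : G}

/-- rational values. -/
def RatV (f : G → ℂ) : Prop := ∀ g, ∃ q : ℚ, f g = q

/-- rational real parts. -/
def RatRe (f : G → ℂ) : Prop := ∀ g, ∃ q : ℚ, (f g).re = q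

/-- the facts about an odd character. -/
lemma oddChar_facts {x : X} {χ : G → ℂ} (h : OddChar c x χ) :
    ((∀ g g' : G, Subgroup.zpowers g = Subgroup.zpowers g' → χ g = χ g') ↔ RatV χ) ∧
    ((∀ g g' : G, Subgroup.zpowers g = Subgroup.zpowers g' → χ g + χ g⁻¹ = χ g' + χ g'⁻¹) ↔
      RatRe χ) ∧
    (TwistC χ ↔ (RatV χ ∨ χ 1 = 1)) ∧
    (TwistC (fun g => χ g + χ g⁻¹) ↔ (RatRe χ ∨ χ 1 = 1)) := by
  obtain ⟨W, _, _, _, ρ, hirr, -, -, hχ⟩ := h
  have hχ' : χ = chr ρ := funext hχ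
  subst hχ'
  have hnz : NeZero (Nat.card G) := ⟨Nat.card_pos.ne'⟩
  obtain ⟨L, _, _, hL, ⟨φ⟩⟩ := exists_cyclotomic (Nat.card G)
  have hg := galComp_chr φ ρ rfl
  have hg' := galComp_add_inv hg
  have hre : ∀ g, chr ρ g + chr ρ g⁻¹ = ((2 * (chr ρ g).re : ℝ) : ℂ) := by
    intro g
    rw [chr_inv, Complex.add_conj]
  have hre' : RatRe (chr ρ) ↔ ∀ g, ∃ q : ℚ, chr ρ g + chr ρ g⁻¹ = q := by
    constructor
    · intro h g
      obtain ⟨q, hq⟩ := h g
      refine ⟨2 * q, ?_⟩
      rw [hre, hq]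
      push_cast
      rfl
    · intro h g
      obtain ⟨q, hq⟩ := h g
      refine ⟨q / 2, ?_⟩
      rw [hre] at hq
      have h1 : 2 * (chr ρ g).re = (q : ℝ) := by exact_mod_cast hq
      push_cast
      linarith
  refine ⟨⟨fun h g => rat_of_z rfl hg h g, fun h => z_of_rat rfl hg h⟩,
    ⟨fun h => hre'.mpr (fun g => rat_of_z rfl hg' h g), fun h => z_of_rat rfl hg' (hre'.mp h)⟩,
    ⟨fun h => ?_, ?_⟩, ⟨fun h => ?_, ?_⟩⟩
  · by_cases h1 : chr ρ 1 = 1
    · exact Or.inr h1
    · exact Or.inl (fun g => rat_of_twist rfl hg (fun g => sum_comm_zero ρ h1 g) h g)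
  · rintro (h | h)
    · exact twist_of_rat rfl hg h
    · intro j _ g z hz
      have e1 := twist_of_linear ρ h g z hz j
      have e2 := twist_of_linear ρ h g z hz 1
      rw [pow_one, pow_one] at e2
      rw [e1, e2]
  · by_cases h1 : chr ρ 1 = 1
    · exact Or.inr h1
    · exact Or.inl (hre'.mpr
        (fun g => rat_of_twist rfl hg' (fun g => sum_comm_zero' ρ h1 g) h g))
  · rintro (h | h)
    · exact twist_of_rat rfl hg' (hre'.mp h)
    · intro j _ g z hz
      have e1 := twist_of_linear ρ h g z hz j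
      have e2 := twist_of_linear ρ h g z hz 1
      rw [pow_one, pow_one] at e2
      simp only [chr_inv, e1, e2]

end chars

section crit

variable {G : Type} [Group G] [Fintype G] {X : Type} [Fintype X] [MulAction G X]
variable {c : G} (hc : ∀ g, c * g = g * c) (hc2 : c * c = 1) (hcf : ∀ x : X, c • x ≠ x)

/-- coefficients of `f ↦ f g - f g'`. -/
noncomputable def zco (g g' : G) (h : G) : ℚ := (if h = g then 1 else 0) - if h = g' then 1 else 0

/-- coefficients of `f ↦ f ((g z) ^ j) - f (g z) - (f (g ^ j) - f g)`. -/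
noncomputable def tco (j : ℕ) (g z : G) (h : G) : ℚ :=
  zco ((g * z) ^ j) (g * z) h - zco (g ^ j) g h

omit [Group G] in
lemma zco_sum (g g' : G) : ∑ h, zco g g' h = 0 := by
  unfold zco
  rw [Finset.sum_sub_distrib, Finset.sum_ite_eq', Finset.sum_ite_eq', if_pos (Finset.mem_univ _),
    if_pos (Finset.mem_univ _), sub_self]

lemma tco_sum (j : ℕ) (g z : G) : ∑ h, tco j g z h = 0 := by
  unfold tco
  rw [Finset.sum_sub_distrib, zco_sum, zco_sum, sub_self]

omit [Group G] in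
lemma zco_coL (g g' : G) (f : G → ℚ) : coL (zco g g') f = f g - f g' := by
  rw [coL_apply]
  unfold zco
  simp only [sub_mul, ite_mul, one_mul, zero_mul]
  rw [Finset.sum_sub_distrib, Finset.sum_ite_eq', Finset.sum_ite_eq', if_pos (Finset.mem_univ _),
    if_pos (Finset.mem_univ _)]

lemma tco_coL (j : ℕ) (g z : G) (f : G → ℚ) :
    coL (tco j g z) f = (f ((g * z) ^ j) - f (g * z)) - (f (g ^ j) - f g) := by
  rw [← zco_coL, ← zco_coL, coL_apply, coL_apply, coL_apply, ← Finset.sum_sub_distrib]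
  refine Finset.sum_congr rfl (fun h _ => ?_)
  unfold tco
  ring

omit [Group G] in
lemma zco_C (g g' : G) (f : G → ℂ) : ∑ h, (zco g g' h : ℂ) * f h = f g - f g' := by
  have h1 : ∀ h, (zco g g' h : ℂ) * f h = (if h = g then f h else 0) - if h = g' then f h else 0 := by
    intro h
    unfold zco
    split_ifs <;> simp
  rw [Finset.sum_congr rfl (fun h _ => h1 h), Finset.sum_sub_distrib, Finset.sum_ite_eq',
    Finset.sum_ite_eq', if_pos (Finset.mem_univ _), if_pos (Finset.mem_univ _)]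

lemma tco_C (j : ℕ) (g z : G) (f : G → ℂ) :
    ∑ h, (tco j g z h : ℂ) * f h = (f ((g * z) ^ j) - f (g * z)) - (f (g ^ j) - f g) := by
  rw [← zco_C, ← zco_C, ← Finset.sum_sub_distrib]
  refine Finset.sum_congr rfl (fun h _ => ?_)
  unfold tco
  push_cast
  ring

include hc hc2 hcf in
/-- **Criterion for the individual functions and the averages.** -/
theorem crit_a0 [MulAction.IsPretransitive G X] (x₀ : X) :
    (∀ Φ : Finset X, IsHalf c Φ → ∀ x : X, ZInv (a0 x Φ : G → ℚ)) ↔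
      ∀ χ : G → ℂ, OddChar c x₀ χ → RatV χ := by
  constructor
  · intro h χ hχ
    refine (oddChar_facts hχ).1.mp (fun g g' hgg => ?_)
    have h1 := (key_a0 hc hc2 hcf x₀ (zco_sum g g')).mp (fun Φ hΦ x => by
      rw [zco_coL, h Φ hΦ x g g' hgg, sub_self]) χ hχ
    rw [zco_C] at h1
    exact sub_eq_zero.mp h1
  · intro h Φ hΦ x g g' hgg
    have h1 := (key_a0 hc hc2 hcf x₀ (zco_sum g g')).mpr (fun χ hχ => by
      rw [zco_C, (oddChar_facts hχ).1.mpr (h χ hχ) g g' hgg, sub_self]) Φ hΦ x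
    rw [zco_coL] at h1
    exact sub_eq_zero.mp h1

include hc hc2 hcf in
/-- **Criterion for the heights and the averages.** -/
theorem crit_T [MulAction.IsPretransitive G X] (x₀ : X) :
    (∀ Φ : Finset X, IsHalf c Φ → ZInv (T Φ : G → ℚ)) ↔
      ∀ χ : G → ℂ, OddChar c x₀ χ → RatRe χ := by
  have h0 : ∀ (g g' : G), Subgroup.zpowers g = Subgroup.zpowers g' → ∀ x : X,
      coL (zco g g') (dlF c x x) = 0 := fun g g' hgg x => by
    rw [zco_coL, dlF_self hc hc2 x hgg, sub_self]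
  constructor
  · intro h χ hχ
    refine (oddChar_facts hχ).2.1.mp (fun g g' hgg => ?_)
    have h1 := (key_T hc hc2 hcf x₀ (zco_sum g g') (h0 g g' hgg)).mp (fun Φ hΦ => by
      rw [zco_coL, h Φ hΦ g g' hgg, sub_self]) χ hχ
    rw [zco_C g g' (fun g => χ g + χ g⁻¹)] at h1
    exact sub_eq_zero.mp h1
  · intro h Φ hΦ g g' hgg
    have h1 := (key_T hc hc2 hcf x₀ (zco_sum g g') (h0 g g' hgg)).mpr (fun χ hχ => by
      rw [zco_C g g' (fun g => χ g + χ g⁻¹)]
      rw [(oddChar_facts hχ).2.1.mpr (h χ hχ) g g' hgg, sub_self]) Φ hΦ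
    rw [zco_coL] at h1
    exact sub_eq_zero.mp h1

include hc hc2 hcf in
/-- **Criterion for the individual functions, averages and abelian fields.** -/
theorem crit_a0' [MulAction.IsPretransitive G X] (x₀ : X) :
    (∀ Φ : Finset X, IsHalf c Φ → ∀ x : X, Twist (a0 x Φ : G → ℚ)) ↔
      ∀ χ : G → ℂ, OddChar c x₀ χ → (RatV χ ∨ χ 1 = 1) := by
  constructor
  · intro h χ hχ
    refine (oddChar_facts hχ).2.2.1.mp (fun j hj g z hz => ?_)
    have h1 := (key_a0 hc hc2 hcf x₀ (tco_sum j g z)).mp (fun Φ hΦ x => by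
      rw [tco_coL, h Φ hΦ x j hj g z hz, sub_self]) χ hχ
    rw [tco_C] at h1
    exact sub_eq_zero.mp h1
  · intro h Φ hΦ x j hj g z hz
    have h1 := (key_a0 hc hc2 hcf x₀ (tco_sum j g z)).mpr (fun χ hχ => by
      rw [tco_C, (oddChar_facts hχ).2.2.1.mpr (h χ hχ) j hj g z hz, sub_self]) Φ hΦ x
    rw [tco_coL] at h1
    exact sub_eq_zero.mp h1

include hc hc2 hcf in
/-- **Criterion for the heights, averages and abelian fields.** -/
theorem crit_T' [MulAction.IsPretransitive G X] (x₀ : X) :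
    (∀ Φ : Finset X, IsHalf c Φ → Twist (T Φ : G → ℚ)) ↔
      ∀ χ : G → ℂ, OddChar c x₀ χ → (RatRe χ ∨ χ 1 = 1) := by
  have h0 : ∀ j : ℕ, j.Coprime (Nat.card G) → ∀ g : G, ∀ z ∈ commutator G, ∀ x : X,
      coL (tco j g z) (dlF c x x) = 0 := fun j hj g z hz x => by
    have h1 : ZInv (dlF c x x : G → ℚ) := fun g g' hgg => dlF_self hc hc2 x hgg
    rw [tco_coL, twist_of_zInv h1 j hj g z hz, sub_self]
  constructor
  · intro h χ hχ
    refine (oddChar_facts hχ).2.2.2.mp (fun j hj g z hz => ?_)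
    have h1 := (key_T hc hc2 hcf x₀ (tco_sum j g z) (h0 j hj g z hz)).mp (fun Φ hΦ => by
      rw [tco_coL, h Φ hΦ j hj g z hz, sub_self]) χ hχ
    rw [tco_C j g z (fun g => χ g + χ g⁻¹)] at h1
    exact sub_eq_zero.mp h1
  · intro h Φ hΦ j hj g z hz
    have h1 := (key_T hc hc2 hcf x₀ (tco_sum j g z) (h0 j hj g z hz)).mpr (fun χ hχ => by
      rw [tco_C j g z (fun g => χ g + χ g⁻¹),
        (oddChar_facts hχ).2.2.2.mpr (h χ hχ) j hj g z hz, sub_self]) Φ hΦ
    rw [tco_coL] at h1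
    exact sub_eq_zero.mp h1

end crit

end Pool.Agent.Run7.h333.CZ
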