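import Pool.Agent.Run7.h333.CZ.Circ
import Pool.Agent.N770.CP.Sharp2

/-!
# Transitive actions of degree `2 p` with a free central involution
-/

set_option autoImplicit false

open scoped Classical

namespace Pool.Agent.Run7.h333.CZ

open Pool.Agent.Q11.CZ Pool.Agent.N770.CP

variable {G : Type} [Group G] [Fintype G] {X : Type} [Fintype X] [MulAction G X]

/-- `h` acts as a `p`-cycle on the pairs `{x, c x}`. -/
structure IsCyc (X : Type) [MulAction G X] (c : G) (p : ℕ) (h : G) : Prop where
  pow_p : ∀ x : X, h ^ p • x = x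
  exh : ∀ x y : X, ∃ i : ℕ, h ^ i • x = y ∨ h ^ i • x = c • y

section

variable {c : G} (hc : ∀ g, c * g = g * c) (hc2 : c * c = 1) (hcf : ∀ x : X, c • x ≠ x)
  {p : ℕ} (hp : p.Prime) (hp2 : p ≠ 2) (hX : Fintype.card X = 2 * p)

omit [Fintype G] [Fintype X] in
lemma pow_mod {h : G} {p : ℕ} (hh : ∀ x : X, h ^ p • x = x) (n : ℕ) (x : X) :
    h ^ (n % p) • x = h ^ n • x := by
  have h1 : ∀ m : ℕ, (h ^ p) ^ m • x = x := by
    intro m
    induction m with
    | zero => rw [pow_zero, one_smul]
    | succ m ih => rw [pow_succ, mul_smul, hh, ih]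
  conv_rhs => rw [← Nat.mod_add_div n p, pow_add, mul_smul, pow_mul, h1]

omit [Fintype G] in
include hc hc2 hcf hp hp2 hX in
lemma exists_cyc (N : Subgroup G) (hN : ∀ x y : X, ∃ n ∈ N, n • x = y ∨ n • x = c • y) :
    ∃ h ∈ N, IsCyc X c p h := by
  have hpf : Fact p.Prime := ⟨hp⟩
  have hcc : ∀ x : X, c • (c • x) = x := fun x => by rw [← mul_smul, hc2, one_smul]
  -- the group generated by `N` and `c`
  let N' : Subgroup G :=
    { carrier := {g | g ∈ N ∨ c * g ∈ N}
      one_mem' := Or.inl N.one_mem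
      mul_mem' := by
        rintro a b (ha | ha) (hb | hb)
        · exact Or.inl (N.mul_mem ha hb)
        · right
          have h1 : c * (a * b) = a * (c * b) := by rw [← mul_assoc, hc a, mul_assoc]
          rw [h1]
          exact N.mul_mem ha hb
        · right
          rw [← mul_assoc]
          exact N.mul_mem ha hb
        · left
          have h1 : a * b = (c * a) * (c * b) := by
            calc a * b = (c * c) * (a * b) := by rw [hc2, one_mul]
              _ = (c * a) * (c * b) := by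
                rw [mul_assoc c a, ← mul_assoc a c b, ← hc a]
                simp only [mul_assoc]
          rw [h1]
          exact N.mul_mem ha hb
      inv_mem' := by
        rintro a (ha | ha)
        · exact Or.inl (N.inv_mem ha)
        · right
          have h1 : c * a⁻¹ = (c * a)⁻¹ := by
            rw [mul_inv_rev, inv_eq_of_mul_eq_one_left hc2, hc]
          rw [h1]
          exact N.inv_mem ha }
  have hsq : ∀ n ∈ N', n ^ 2 ∈ N := by
    rintro n (hn | hn)
    · exact N.pow_mem hn 2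
    · have h1 : n ^ 2 = (c * n) ^ 2 := by
        rw [(show Commute c n from hc n).mul_pow, pow_two c, hc2, one_mul]
      rw [h1]
      exact N.pow_mem hn 2
  have htr : ∀ x y : X, ∃ n ∈ N', n • x = y := by
    intro x y
    obtain ⟨n, hn, h1 | h1⟩ := hN x y
    · exact ⟨n, Or.inl hn, h1⟩
    · refine ⟨c * n, Or.inr ?_, ?_⟩
      · rw [← mul_assoc, hc2, one_mul]
        exact hn
      · rw [mul_smul, h1, hcc]
  have hne : Nonempty X := by
    rw [← Fintype.card_pos_iff, hX]
    have := hp.pos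
    omega
  obtain ⟨x₁⟩ := hne
  -- an element of order `p` in the image
  let NB : Subgroup (Equiv.Perm X) := N'.map (MulAction.toPermHom G X)
  have hdvd : p ∣ Fintype.card NB := by
    have h1 := MulAction.card_orbit_mul_card_stabilizer_eq_card_group NB x₁
    have h2 : MulAction.orbit NB x₁ = Set.univ := by
      rw [Set.eq_univ_iff_forall]
      intro y
      obtain ⟨n, hn, hny⟩ := htr x₁ y
      exact ⟨⟨MulAction.toPermHom G X n, Subgroup.mem_map_of_mem _ hn⟩, hny⟩
    have h3 : Fintype.card (MulAction.orbit NB x₁) = 2 * p := by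
      rw [← hX, ← Fintype.card_congr (Equiv.Set.univ X)]
      exact Fintype.card_congr (Equiv.setCongr h2)
    rw [h3] at h1
    rw [← h1, mul_comm 2 p, mul_assoc]
    exact dvd_mul_right _ _
  obtain ⟨σ, hσ⟩ := exists_prime_orderOf_dvd_card p hdvd
  obtain ⟨n, hn, hnσ⟩ := Subgroup.mem_map.mp σ.2
  have hσ' : orderOf (σ : Equiv.Perm X) = p := by
    rw [← hσ]
    exact Subgroup.orderOf_coe σ
  have hpow : ∀ (m : ℕ) (x : X), ((σ : Equiv.Perm X) ^ m) x = n ^ m • x := by
    intro m x
    rw [← hnσ, ← map_pow]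
    rfl
  have hnp : ∀ x : X, n ^ p • x = x := by
    intro x
    rw [← hpow, ← hσ', pow_orderOf_eq_one]
    rfl
  set h := n ^ 2 with hh
  have hhp : ∀ x : X, h ^ p • x = x := by
    intro x
    rw [hh, ← pow_mul, mul_comm, pow_mul, pow_two, mul_smul, hnp, hnp]
  refine ⟨h, hsq n hn, hhp, ?_⟩
  -- a point which is moved
  obtain ⟨x₀, hx₀⟩ : ∃ x₀ : X, h • x₀ ≠ x₀ := by
    by_contra hcon
    push Not at hcon
    have h1 : (σ : Equiv.Perm X) ^ 2 = 1 := by
      apply Equiv.ext
      intro x
      rw [hpow]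
      exact hcon x
    have h2 := orderOf_dvd_of_pow_eq_one h1
    rw [hσ'] at h2
    exact hp2 ((Nat.prime_dvd_prime_iff_eq hp Nat.prime_two).mp h2)
  have hper : ∀ m : ℕ, h ^ m • x₀ = x₀ ↔ p ∣ m := by
    intro m
    rw [MulAction.pow_smul_eq_iff_period_dvd]
    have h1 : MulAction.period h x₀ ∣ p := by
      rw [← MulAction.pow_smul_eq_iff_period_dvd]
      exact hhp x₀
    rcases (Nat.dvd_prime hp).mp h1 with h2 | h2
    · exact absurd (MulAction.period_eq_one_iff.mp h2) hx₀
    · rw [h2]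
  have hcomm : ∀ (m : ℕ) (x : X), h ^ m • (c • x) = c • (h ^ m • x) := by
    intro m x
    rw [← mul_smul, ← mul_smul, hc]
  have hperc : ∀ m : ℕ, h ^ m • x₀ ≠ c • x₀ := by
    intro m hm
    have h1 : h ^ (m * 2) • x₀ = x₀ := by
      rw [mul_two, pow_add, mul_smul, hm, hcomm, hm, hcc]
    rw [hper] at h1
    have h2 : p ∣ m := by
      rcases (Nat.Prime.dvd_mul hp).mp h1 with h | h
      · exact h
      · exact absurd ((Nat.prime_dvd_prime_iff_eq hp Nat.prime_two).mp h) hp2
    rw [(hper m).mpr h2] at hm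
    exact hcf x₀ hm.symm
  -- differences of exponents
  have hdiff : ∀ (i j : ℕ) (y : X), i < p → h ^ i • x₀ = y → h ^ j • x₀ = y →
      h ^ (p - i + j) • x₀ = x₀ := by
    intro i j y hi h1 h2
    rw [pow_add, mul_smul, h2, ← h1, ← mul_smul, ← pow_add, Nat.sub_add_cancel hi.le, hhp]
  have hdiffc : ∀ (i j : ℕ) (y : X), i < p → h ^ i • x₀ = y → h ^ j • x₀ = c • y →
      h ^ (p - i + j) • x₀ = c • x₀ := by
    intro i j y hi h1 h2
    rw [pow_add, mul_smul, h2, ← h1, ← hcomm, ← mul_smul, ← pow_add,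
      Nat.sub_add_cancel hi.le, hhp]
  set F : ZMod p × Bool → X := fun q =>
    if q.2 then h ^ q.1.val • x₀ else c • (h ^ q.1.val • x₀) with hF
  have hval : ∀ i j : ZMod p, h ^ i.val • x₀ = h ^ j.val • x₀ → i = j := by
    intro i j hij
    have h1 := hdiff i.val j.val _ (ZMod.val_lt i) hij rfl
    rw [hper] at h1
    have h2 : (((p - i.val + j.val : ℕ)) : ZMod p) = 0 := by
      rw [ZMod.natCast_eq_zero_iff]
      exact h1
    rw [Nat.cast_add, Nat.cast_sub (ZMod.val_lt i).le, ZMod.natCast_zmod_val,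
      ZMod.natCast_zmod_val, ZMod.natCast_self, zero_sub, neg_add_eq_zero] at h2
    exact h2
  have hinj : Function.Injective F := by
    rintro ⟨i, a⟩ ⟨j, b⟩ hab
    simp only [hF] at hab
    cases a <;> cases b
    · simp only [Bool.false_eq_true, if_false] at hab
      rw [hval i j ((MulAction.injective c) hab)]
    · exfalso
      simp only [Bool.false_eq_true, if_false, if_true] at hab
      exact hperc _ (hdiffc i.val j.val _ (ZMod.val_lt i) rfl hab.symm)
    · exfalso
      simp only [Bool.false_eq_true, if_false, if_true] at hab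
      exact hperc _ (hdiffc j.val i.val _ (ZMod.val_lt j) rfl hab)
    · simp only [if_true] at hab
      rw [hval i j hab]
  have hbij : Function.Bijective F := by
    rw [Fintype.bijective_iff_injective_and_card]
    refine ⟨hinj, ?_⟩
    rw [Fintype.card_prod, ZMod.card, Fintype.card_bool, hX, mul_comm]
  -- all points are of this form
  have hrep : ∀ x : X, ∃ i : ℕ, i < p ∧ (x = h ^ i • x₀ ∨ x = c • (h ^ i • x₀)) := by
    intro x
    obtain ⟨⟨j, b⟩, hb⟩ := hbij.2 x
    refine ⟨j.val, ZMod.val_lt j, ?_⟩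
    simp only [hF] at hb
    cases b
    · right
      simpa using hb.symm
    · left
      simpa using hb.symm
  intro x y
  obtain ⟨i, hi, hx⟩ := hrep x
  obtain ⟨j, hj, hy⟩ := hrep y
  refine ⟨p - i + j, ?_⟩
  have h1 : h ^ (p - i + j) • (h ^ i • x₀) = h ^ j • x₀ := by
    rw [← mul_smul, ← pow_add, show p - i + j + i = p + j by omega, pow_add, mul_smul, hhp]
  rcases hx with hx | hx <;> rcases hy with hy | hy
  · left; rw [hx, hy, h1]
  · right; rw [hx, hy, h1, hcc]
  · right; rw [hx, hy, hcomm, h1]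
  · left; rw [hx, hy, hcomm, h1]

end

/-! ### coordinates -/

/-- the points `h ^ j x₀`. -/
noncomputable def P (h : G) (x₀ : X) {p : ℕ} (j : ZMod p) : X := h ^ j.val • x₀

section

variable {c : G} (hc : ∀ g, c * g = g * c) (hc2 : c * c = 1) (hcf : ∀ x : X, c • x ≠ x)
  {p : ℕ} [hp : Fact p.Prime] (hX : Fintype.card X = 2 * p) {h : G} (hh : IsCyc X c p h)

omit [Fintype G] [Fintype X] in
lemma P_zero (x₀ : X) : P h x₀ (0 : ZMod p) = x₀ := by
  unfold P
  rw [ZMod.val_zero, pow_zero, one_smul]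

omit [Fintype G] [Fintype X] in
include hh in
lemma pow_P (x₀ : X) (n : ℕ) (j : ZMod p) : h ^ n • P h x₀ j = P h x₀ (j + (n : ZMod p)) := by
  unfold P
  rw [← mul_smul, ← pow_add, ← pow_mod hh.pow_p]
  congr 2
  rw [ZMod.val_add, ZMod.val_natCast, Nat.add_comm n, ← Nat.add_mod_mod]

omit [Fintype G] [Fintype X] in
include hh hc2 in
lemma P_surj (x₀ y : X) : ∃ j : ZMod p, y = P h x₀ j ∨ y = c • P h x₀ j := by
  obtain ⟨i, hi⟩ := hh.exh x₀ y
  refine ⟨(i : ZMod p), ?_⟩
  have h1 : P h x₀ (i : ZMod p) = h ^ i • x₀ := by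
    unfold P
    rw [ZMod.val_natCast, pow_mod hh.pow_p]
  rw [h1]
  rcases hi with hi | hi
  · left; rw [hi]
  · right; rw [hi, ← mul_smul, hc2, one_smul]

omit [Fintype G] in
include hh hc2 hX in
lemma P_bij (x₀ : X) : Function.Bijective
    (fun q : ZMod p × Bool => if q.2 then P h x₀ q.1 else c • P h x₀ q.1) := by
  rw [Fintype.bijective_iff_surjective_and_card]
  constructor
  · intro y
    obtain ⟨j, hj | hj⟩ := P_surj hc2 hh x₀ y
    · exact ⟨(j, true), by simp [hj]⟩
    · exact ⟨(j, false), by simp [hj]⟩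
  · rw [Fintype.card_prod, ZMod.card, Fintype.card_bool, hX, mul_comm]

omit [Fintype G] in
include hh hc2 hX in
lemma P_inj (x₀ : X) {i j : ZMod p} (hij : P h x₀ i = P h x₀ j) : i = j := by
  have h1 := (P_bij hc2 hX hh x₀).1 (a₁ := (i, true)) (a₂ := (j, true)) (by simpa using hij)
  exact congrArg Prod.fst h1

omit [Fintype G] in
include hh hc2 hX in
lemma P_ne (x₀ : X) {i j : ZMod p} : P h x₀ i ≠ c • P h x₀ j := by
  intro hij
  have h1 := (P_bij hc2 hX hh x₀).1 (a₁ := (i, true)) (a₂ := (j, false)) (by simpa using hij)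
  have := congrArg Prod.snd h1
  simp at this

omit [Fintype G] in
include hh hc2 hX in
/-- sums over all points. -/
lemma sum_P {M : Type} [AddCommMonoid M] (x₀ : X) (f : X → M) :
    ∑ y, f y = ∑ j : ZMod p, (f (P h x₀ j) + f (c • P h x₀ j)) := by
  rw [← (Equiv.ofBijective _ (P_bij hc2 hX hh x₀)).sum_comp, Fintype.sum_prod_type]
  refine Finset.sum_congr rfl (fun j _ => ?_)
  simp

end

end Pool.Agent.Run7.h333.CZ
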