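import Pool.Agent.N770.CP.Sharp2

/-!
# Linear conditions on Colmez's class functions

`G` is a finite group with a central involution `c` acting freely on `X`.  Linear conditions on the
class functions of all half-systems are conditions on the differences `dlF c x y` of the numbers of
conjugates of `g` which map `x` to `y` and to `c y`.
-/

set_option autoImplicit false

open scoped Classical

namespace Pool.Agent.Run7.h333.CZ

open Pool.Agent.Q11.CZ Pool.Agent.N770.CP

variable {G : Type} [Group G] [Fintype G] {X : Type} [MulAction G X]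

/-- the difference of the numbers of the conjugates of `g` which map `x` to `y` and to `c y`. -/
noncomputable def dlF (c : G) (x y : X) (g : G) : ℚ := (cnt x y g : ℚ) - cnt x (c • y) g

section

variable {c : G} (hc : ∀ g, c * g = g * c) (hc2 : c * c = 1) (hcf : ∀ x : X, c • x ≠ x)

include hc2 in
lemma dlF_c (x y : X) (g : G) : dlF c x (c • y) g = - dlF c x y g := by
  have hcc : c • (c • y) = y := by rw [← mul_smul, hc2, one_smul]
  unfold dlF
  rw [hcc]
  ring

include hc in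
lemma dlF_cc (x y : X) (g : G) : dlF c (c • x) (c • y) g = dlF c x y g := by
  unfold dlF
  rw [cnt_cc hc x y, cnt_cc hc x (c • y)]

include hc hc2 in
lemma a0_dlF (x : X) {Φ : Finset X} (hΦ : IsHalf c Φ) (g : G) :
    (a0 x Φ g : ℚ) = 1 / 2 + (∑ y ∈ Φ, dlF c x y g) / (2 * Fintype.card G) := by
  have hG0 : (Fintype.card G : ℚ) ≠ 0 := card_ne
  have h1 := a0_add hc x hΦ g
  have h2 : (a0 x Φ g : ℚ) - a0 x Φ (c * g) = (∑ y ∈ Φ, dlF c x y g) / Fintype.card G := by
    rw [a0_cnt, a0_cnt, ← sub_div, ← Finset.sum_sub_distrib]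
    congr 1
    refine Finset.sum_congr rfl (fun y _ => ?_)
    unfold dlF
    rw [cnt_c hc x y hc2]
  have h3 : (∑ y ∈ Φ, dlF c x y g) / (2 * Fintype.card G) =
      ((∑ y ∈ Φ, dlF c x y g) / Fintype.card G) / 2 := by
    field_simp
  rw [h3, ← h2]
  linarith

include hc hc2 in
lemma a0_dlF' (x : X) {Φ : Finset X} (hΦ : IsHalf c Φ) :
    (a0 x Φ : G → ℚ) = (1 / 2 : ℚ) • (fun _ => (1 : ℚ)) +
      (1 / (2 * Fintype.card G) : ℚ) • ∑ y ∈ Φ, dlF c x y := by
  funext g
  simp only [Pi.add_apply, Pi.smul_apply, smul_eq_mul, Finset.sum_apply, mul_one]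
  rw [a0_dlF hc hc2 x hΦ]
  ring

variable (L : (G → ℚ) →ₗ[ℚ] ℚ) (hL1 : L (fun _ => 1) = 0)

include hc hc2 hL1 in
lemma L_a0 (x : X) {Φ : Finset X} (hΦ : IsHalf c Φ) :
    L (a0 x Φ : G → ℚ) = (∑ y ∈ Φ, L (dlF c x y)) / (2 * Fintype.card G) := by
  rw [a0_dlF' hc hc2 x hΦ, map_add, map_smul, map_smul, hL1, map_sum, smul_zero, zero_add,
    smul_eq_mul]
  ring

include hc hc2 hL1 in
lemma L_T {Φ : Finset X} (hΦ : IsHalf c Φ) :
    L (T Φ : G → ℚ) = (∑ x ∈ Φ, ∑ y ∈ Φ, L (dlF c x y)) / (2 * Fintype.card G) := by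
  have h1 : (T Φ : G → ℚ) = ∑ x ∈ Φ, a0 x Φ := by
    funext g
    unfold T
    rw [Finset.sum_apply]
  rw [h1, map_sum, Finset.sum_div]
  exact Finset.sum_congr rfl (fun x _ => L_a0 hc hc2 L hL1 x hΦ)

include hc2 in
lemma L_dlF_c (x y : X) : L (dlF c x (c • y)) = - L (dlF c x y) := by
  rw [← map_neg]
  congr 1
  funext g
  exact dlF_c hc2 x y g

include hc in
lemma L_dlF_cc (x y : X) : L (dlF c (c • x) (c • y)) = L (dlF c x y) := by
  congr 1
  funext g
  exact dlF_cc hc x y g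

omit [Fintype G] in
include hc2 hcf in
/-- a half-system which contains `y`. -/
lemma exists_half_mem [Fintype X] (y : X) : ∃ Φ : Finset X, IsHalf c Φ ∧ y ∈ Φ := by
  obtain ⟨Φ₀, hΦ₀⟩ := exists_half (X := X) hc2 hcf
  rw [mem_halves] at hΦ₀
  by_cases hy : y ∈ Φ₀
  · exact ⟨Φ₀, hΦ₀, hy⟩
  · refine ⟨_, isHalf_toggle hc2 hΦ₀ y, ?_⟩
    rw [Finset.mem_symmDiff]
    right
    exact ⟨Finset.mem_insert_self _ _, hy⟩

include hc hc2 hcf hL1 in
/-- **Linear conditions on the class functions.** -/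
theorem L_a0_iff [Fintype X] (x : X) :
    (∀ Φ : Finset X, IsHalf c Φ → L (a0 x Φ : G → ℚ) = 0) ↔ ∀ y : X, L (dlF c x y) = 0 := by
  have hG0 : (Fintype.card G : ℚ) ≠ 0 := card_ne
  constructor
  · intro hall y
    obtain ⟨Φ, hΦ, hy⟩ := exists_half_mem hc2 hcf y
    have hcy : c • y ∉ Φ := fun h => (hΦ y).mp h hy
    have h1 := hall Φ hΦ
    have h2 := hall _ (isHalf_replace hc2 hΦ hy)
    rw [L_a0 hc hc2 L hL1 x hΦ, div_eq_zero_iff] at h1
    rw [L_a0 hc hc2 L hL1 x (isHalf_replace hc2 hΦ hy), div_eq_zero_iff] at h2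
    have h3 : (2 * (Fintype.card G : ℚ)) ≠ 0 := mul_ne_zero two_ne_zero hG0
    have h4 := h1.resolve_right h3
    have h5 := h2.resolve_right h3
    have e2 : c • y ∉ Φ.erase y := fun h => hcy (Finset.mem_of_mem_erase h)
    rw [Finset.sum_insert e2, L_dlF_c hc2] at h5
    have e3 := Finset.add_sum_erase Φ (fun u => L (dlF c x u)) hy
    linarith
  · intro h Φ hΦ
    rw [L_a0 hc hc2 L hL1 x hΦ, Finset.sum_eq_zero (fun y _ => h y), zero_div]

include hc hc2 hcf hL1 in
/-- **Linear conditions on the sums over the CM types.** -/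
theorem L_T_iff [Fintype X] (hxx : ∀ x : X, L (dlF c x x) = 0) :
    (∀ Φ : Finset X, IsHalf c Φ → L (T Φ : G → ℚ) = 0) ↔
      ∀ x y : X, L (dlF c x y) + L (dlF c y x) = 0 := by
  have hG0 : (Fintype.card G : ℚ) ≠ 0 := card_ne
  have hG2 : (2 * (Fintype.card G : ℚ)) ≠ 0 := mul_ne_zero two_ne_zero hG0
  have hcc : ∀ u : X, c • (c • u) = u := fun u => by rw [← mul_smul, hc2, one_smul]
  set B : X → X → ℚ := fun x y => L (dlF c x y) with hB
  have hBc : ∀ x y, B x (c • y) = - B x y := fun x y => L_dlF_c hc2 L x y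
  have hBcc : ∀ x y, B (c • x) (c • y) = B x y := fun x y => L_dlF_cc hc L x y
  have hBc' : ∀ x y, B (c • x) y = - B x y := fun x y => by
    have := hBcc x (c • y)
    rw [hcc, hBc] at this
    exact this
  have hsum : ∀ Φ : Finset X, IsHalf c Φ →
      (L (T Φ : G → ℚ) = 0 ↔ ∑ x ∈ Φ, ∑ y ∈ Φ, B x y = 0) := by
    intro Φ hΦ
    rw [L_T hc hc2 L hL1 hΦ, div_eq_zero_iff, or_iff_left hG2]
  constructor
  · intro hall x y
    by_cases hyx : y = x
    · have := hxx x
      rw [hyx]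
      change B x x + B x x = 0
      have h1 : B x x = 0 := this
      rw [h1, add_zero]
    by_cases hycx : y = c • x
    · rw [hycx]
      change B x (c • x) + B (c • x) x = 0
      have h1 : B x x = 0 := hxx x
      rw [hBc, hBc', h1, neg_zero, add_zero]
    have hxcy : x ≠ c • y := fun h => hycx (by rw [h, hcc])
    obtain ⟨Φ₁, hΦ₁, hx₁⟩ := exists_half_mem hc2 hcf x
    obtain ⟨Φ, hΦ, hx, hy⟩ : ∃ Φ : Finset X, IsHalf c Φ ∧ x ∈ Φ ∧ y ∈ Φ := by
      by_cases hy : y ∈ Φ₁
      · exact ⟨Φ₁, hΦ₁, hx₁, hy⟩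
      · refine ⟨_, isHalf_toggle hc2 hΦ₁ y, ?_, ?_⟩
        · rw [Finset.mem_symmDiff]
          left
          refine ⟨hx₁, ?_⟩
          rw [Finset.mem_insert, Finset.mem_singleton]
          rintro (h | h)
          · exact hyx h.symm
          · exact hxcy h
        · rw [Finset.mem_symmDiff]
          right
          exact ⟨Finset.mem_insert_self _ _, hy⟩
    set Ψ := (Φ.erase x).erase y with hΨ
    have hcx : c • x ∉ Φ := fun h => (hΦ x).mp h hx
    have hcy : c • y ∉ Φ := fun h => (hΦ y).mp h hy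
    have hy' : y ∈ Φ.erase x := Finset.mem_erase.mpr ⟨hyx, hy⟩
    have hsub : ∀ u, u ∈ Ψ → u ∈ Φ := fun u hu =>
      Finset.mem_of_mem_erase (Finset.mem_of_mem_erase hu)
    have hxΨ : x ∉ Ψ := fun h => (Finset.notMem_erase x Φ) (Finset.mem_of_mem_erase h)
    have hyΨ : y ∉ Ψ := Finset.notMem_erase y _
    have hcxΨ : c • x ∉ Ψ := fun h => hcx (hsub _ h)
    have hcyΨ : c • y ∉ Ψ := fun h => hcy (hsub _ h)
    have e0 : Φ = insert x (insert y Ψ) := by
      rw [hΨ, Finset.insert_erase hy', Finset.insert_erase hx]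
    have i1 : IsHalf c (insert (c • x) (insert y Ψ)) := by
      have h := isHalf_replace hc2 hΦ hx
      rwa [show Φ.erase x = insert y Ψ by rw [hΨ, Finset.insert_erase hy']] at h
    have i2 : IsHalf c (insert x (insert (c • y) Ψ)) := by
      have h := isHalf_replace hc2 hΦ hy
      have e1 : Φ.erase y = insert x Ψ := by
        rw [hΨ, Finset.erase_right_comm, Finset.insert_erase]
        exact Finset.mem_erase.mpr ⟨fun h => hyx h.symm, hx⟩
      rw [e1, Finset.insert_comm] at h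
      exact h
    have i3 : IsHalf c (insert (c • x) (insert (c • y) Ψ)) := by
      have h := isHalf_replace hc2 i1 (y := y)
        (Finset.mem_insert_of_mem (Finset.mem_insert_self _ _))
      have e1 : (insert (c • x) (insert y Ψ)).erase y = insert (c • x) Ψ := by
        rw [Finset.erase_insert_of_ne (fun h => hycx h.symm), Finset.erase_insert hyΨ]
      rw [e1, Finset.insert_comm] at h
      exact h
    have i0 : IsHalf c (insert x (insert y Ψ)) := by rwa [← e0]
    have n1 : c • x ≠ y := fun h => hycx h.symm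
    have n2 : c • x ≠ c • y := fun h => hyx ((MulAction.injective c) h).symm
    have k0 := (hsum _ i0).mp (hall _ i0)
    have k1 := (hsum _ i1).mp (hall _ i1)
    have k2 := (hsum _ i2).mp (hall _ i2)
    have k3 := (hsum _ i3).mp (hall _ i3)
    rw [sum_two hxΨ hyΨ (Ne.symm hyx)] at k0
    rw [sum_two hcxΨ hyΨ n1] at k1
    rw [sum_two hxΨ hcyΨ hxcy] at k2
    rw [sum_two hcxΨ hcyΨ n2] at k3
    simp only [hBc, hBc', neg_neg] at k0 k1 k2 k3
    change B x y + B y x = 0
    linarith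
  · intro h Φ hΦ
    rw [hsum Φ hΦ]
    have h2 : (2 : ℚ) * ∑ x ∈ Φ, ∑ y ∈ Φ, B x y = ∑ x ∈ Φ, ∑ y ∈ Φ, (B x y + B y x) := by
      rw [two_mul]
      conv_lhs => rhs; rw [Finset.sum_comm]
      rw [← Finset.sum_add_distrib]
      exact Finset.sum_congr rfl (fun x _ => Finset.sum_add_distrib.symm)
    have h3 : ∑ x ∈ Φ, ∑ y ∈ Φ, (B x y + B y x) = 0 :=
      Finset.sum_eq_zero (fun x _ => Finset.sum_eq_zero (fun y _ => h x y))
    rw [h3] at h2
    linarith

end

end Pool.Agent.Run7.h333.CZ
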