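import Pool.Agent.Run7.h333.CZ.Link
import Pool.Agent.Run7.h333.CZ.Lin

/-!
# Double transitivity and double homogeneity

`H` is a subgroup which contains exactly one of `g`, `c g` for every `g`, and all stabilizers.
-/

set_option autoImplicit false

open scoped Classical

namespace Pool.Agent.Run7.h333.CZ

open Pool.Agent.Q11.CZ Pool.Agent.N770.CP

variable {G : Type} [Group G] [Fintype G] {X : Type} [Fintype X] [MulAction G X]

/-- `G` is doubly transitive on the pairs `{x, c x}`. -/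
def Dbl (X : Type) [MulAction G X] (c : G) : Prop :=
  ∀ x y x' y' : X, y ≠ x → y ≠ c • x → y' ≠ x' → y' ≠ c • x' →
    ∃ g : G, (g • x = x' ∨ g • x = c • x') ∧ (g • y = y' ∨ g • y = c • y')

/-- `G` is doubly homogeneous on the pairs `{x, c x}`. -/
def Hmg (X : Type) [MulAction G X] (c : G) : Prop :=
  ∀ x y x' y' : X, y ≠ x → y ≠ c • x → y' ≠ x' → y' ≠ c • x' →
    ∃ g : G, ((g • x = x' ∨ g • x = c • x') ∧ (g • y = y' ∨ g • y = c • y')) ∨
      ((g • x = y' ∨ g • x = c • y') ∧ (g • y = x' ∨ g • y = c • x'))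

section

omit [Fintype X] in
lemma cnt_congr (x y : X) {g g' : G} (h : ∀ z : X, g • z = g' • z) : cnt x y g = cnt x y g' := by
  unfold cnt
  congr 1
  ext k
  simp only [Finset.mem_filter, Finset.mem_univ, true_and, mul_assoc, mul_smul, h]

omit [Fintype X] in
lemma cnt_smul (k : G) (x y : X) (g : G) : cnt (k • x) (k • y) g = cnt x y g := by
  unfold cnt
  refine Finset.card_bijective (fun h => h * k) (Group.mulRight_bijective k) (fun h => ?_)
  simp only [Finset.mem_filter, Finset.mem_univ, true_and]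
  have h4 : ((h * k)⁻¹ * g * (h * k)) • x = k⁻¹ • ((h⁻¹ * g * h) • (k • x)) := by
    have h2 : (h * k)⁻¹ * g * (h * k) = k⁻¹ * ((h⁻¹ * g * h) * k) := by group
    rw [h2, mul_smul k⁻¹, mul_smul (h⁻¹ * g * h) k]
  rw [h4, inv_smul_eq_iff]

omit [Fintype X] in
/-- the points fixed by `g` and `g'` are the same. -/
lemma cnt_self_zpowers (x : X) {g g' : G} (h : Subgroup.zpowers g = Subgroup.zpowers g') :
    cnt x x g = cnt x x g' := by
  have key : ∀ {a b : G}, Subgroup.zpowers a = Subgroup.zpowers b →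
      ∀ y : X, a • y = y → b • y = y := by
    intro a b hab y hy
    have h1 : a ∈ MulAction.stabilizer G y := hy
    have h2 : Subgroup.zpowers a ≤ MulAction.stabilizer G y := by
      rw [Subgroup.zpowers_le]; exact h1
    rw [hab] at h2
    exact h2 (Subgroup.mem_zpowers b)
  unfold cnt
  congr 1
  ext k
  simp only [Finset.mem_filter, Finset.mem_univ, true_and, mul_assoc, mul_smul, inv_smul_eq_iff]
  exact ⟨key h _, key h.symm _⟩

omit [Fintype X] in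
/-- the sum of the numbers over a set of points. -/
lemma sum_cnt (x : X) (S : Finset X) (g : G) :
    ∑ y ∈ S, cnt x y g = (Finset.univ.filter fun k : G => (k⁻¹ * g * k) • x ∈ S).card := by
  rw [Finset.card_eq_sum_card_fiberwise (f := fun h : G => (h⁻¹ * g * h) • x) (t := S)]
  · refine Finset.sum_congr rfl (fun y hy => ?_)
    unfold cnt
    congr 1
    ext h
    simp only [Finset.mem_filter, Finset.mem_univ, true_and]
    exact ⟨fun h => ⟨h ▸ hy, h⟩, fun h => h.2⟩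
  · intro h hh
    simpa using hh

end

section

variable {c : G} (hc : ∀ g, c * g = g * c) (hc2 : c * c = 1) (hcf : ∀ x : X, c • x ≠ x)
variable {H : Subgroup G} (hH1 : ∀ g, g ∈ H ∨ c * g ∈ H) (hH2 : c ∉ H)
  (hH3 : ∀ z : X, MulAction.stabilizer G z ≤ H)

omit [Fintype G] in
include hc hH1 in
lemma conj_mem {g : G} (hg : g ∈ H) (k : G) : k⁻¹ * g * k ∈ H := by
  rcases hH1 k with hk | hk
  · exact H.mul_mem (H.mul_mem (H.inv_mem hk) hg) hk
  · have h1 : k⁻¹ * g * k = (c * k)⁻¹ * g * (c * k) := by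
      have h2 : (c * k)⁻¹ * g * (c * k) = k⁻¹ * c⁻¹ * (g * c) * k := by group
      rw [h2, ← hc g]
      group
    rw [h1]
    exact H.mul_mem (H.mul_mem (H.inv_mem hk) hg) hk

omit [Fintype G] in
include hc hH1 in
lemma conj_mem_iff (g k : G) : k⁻¹ * g * k ∈ H ↔ g ∈ H := by
  refine ⟨fun h => ?_, fun h => conj_mem hc hH1 h k⟩
  have h1 := conj_mem hc hH1 h k⁻¹
  have h2 : (k⁻¹)⁻¹ * (k⁻¹ * g * k) * k⁻¹ = g := by group
  rwa [h2] at h1

omit [Fintype G] [Fintype X] in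
include hc2 hH2 hH3 in
/-- points of one orbit of `H` are not related by `c`. -/
lemma not_both {x y : X} {g k : G} (hg : g ∈ H) (hgx : g • x = c • y) (hk : k ∈ H)
    (hkx : k • x = y) : False := by
  have h1 : (k⁻¹ * (c * g)) • x = x := by
    rw [mul_smul, mul_smul, hgx, ← mul_smul c c, hc2, one_smul, inv_smul_eq_iff, hkx]
  have h2 : k⁻¹ * (c * g) ∈ H := hH3 x h1
  apply hH2
  have h3 : c = k * (k⁻¹ * (c * g)) * g⁻¹ := by group
  rw [h3]
  exact H.mul_mem (H.mul_mem hk h2) (H.inv_mem hg)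

omit [Fintype G] [Fintype X] in
include hc2 hH1 in
lemma rel_or [MulAction.IsPretransitive G X] (x y : X) :
    (∃ g ∈ H, g • x = y) ∨ ∃ g ∈ H, g • x = c • y := by
  obtain ⟨g, hg⟩ := MulAction.exists_smul_eq G x y
  rcases hH1 g with h | h
  · exact Or.inl ⟨g, h, hg⟩
  · exact Or.inr ⟨c * g, h, by rw [mul_smul, hg]⟩

omit [Fintype G] [Fintype X] in
include hH3 in
lemma mem_of_rel {x : X} {g k : G} (hk : k ∈ H) (hgk : g • x = k • x) : g ∈ H := by
  have h1 : k⁻¹ * g ∈ H := hH3 x (by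
    rw [MulAction.mem_stabilizer_iff, mul_smul, hgk, inv_smul_smul])
  have h2 : g = k * (k⁻¹ * g) := by group
  rw [h2]
  exact H.mul_mem hk h1

omit [Fintype X] in
include hc hc2 hH1 hH2 hH3 in
lemma cnt_zero {x y : X} (hxy : ∃ k ∈ H, k • x = y) {g : G} (hg : g ∈ H) :
    cnt x (c • y) g = 0 := by
  unfold cnt
  rw [Finset.card_eq_zero, Finset.filter_eq_empty_iff]
  intro h _ hh
  obtain ⟨k, hk, hkx⟩ := hxy
  exact not_both hc2 hH2 hH3 (conj_mem hc hH1 hg h) hh hk hkx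

/-! ### necessity -/

omit [Fintype X] in
lemma exists_exp {p : ℕ} (hp : p.Prime) {i₀ i : ℕ} (hi₀ : ¬ p ∣ i₀) (hi : ¬ p ∣ i) :
    ∃ j : ℕ, j.Coprime (Nat.card G) ∧ i₀ * j ≡ i [MOD p] := by
  have hpf : Fact p.Prime := ⟨hp⟩
  have h0 : Nat.card G * p ≠ 0 := mul_ne_zero Nat.card_pos.ne' hp.ne_zero
  have : NeZero (Nat.card G * p) := ⟨h0⟩
  have hi₀' : ((i₀ : ZMod p)) ≠ 0 := by rwa [Ne, ZMod.natCast_eq_zero_iff]
  have hi' : ((i : ZMod p)) ≠ 0 := by rwa [Ne, ZMod.natCast_eq_zero_iff]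
  have hu : ((i₀ : ZMod p))⁻¹ * i ≠ 0 := mul_ne_zero (inv_ne_zero hi₀') hi'
  obtain ⟨v, hv⟩ := ZMod.unitsMap_surjective (Dvd.intro_left (Nat.card G) rfl : p ∣ Nat.card G * p)
    (Units.mk0 _ hu)
  refine ⟨(v : ZMod (Nat.card G * p)).val, ?_, ?_⟩
  · exact Nat.Coprime.coprime_dvd_right (Dvd.intro _ rfl) (ZMod.val_coe_unit_coprime v)
  · rw [← ZMod.natCast_eq_natCast_iff]
    have h1 : (((v : ZMod (Nat.card G * p)).val : ℕ) : ZMod p) = ((i₀ : ZMod p))⁻¹ * i := by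
      have h2 := congrArg (fun u : (ZMod p)ˣ => (u : ZMod p)) hv
      simp only [Units.val_mk0] at h2
      rw [← h2, ZMod.unitsMap_val, ZMod.cast_eq_val]
    push_cast
    rw [h1, ← mul_assoc, mul_inv_cancel₀ hi₀', one_mul]

section necessity

variable {p : ℕ} (hp : p.Prime) {N : Subgroup G} (hNH : N ≤ H) {h : G} (hhN : h ∈ N)
  (hh : IsCyc X c p h)

omit [Fintype G] [Fintype X] in
include hc2 hH2 hH3 hNH hhN hh in
lemma exp_of_rel {x y : X} (hxy : ∃ k ∈ H, k • x = y) (hyx : y ≠ x) :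
    ∃ i₀ : ℕ, h ^ i₀ • x = y ∧ ¬ p ∣ i₀ := by
  obtain ⟨k, hk, hkx⟩ := hxy
  obtain ⟨i₀, hi₀ | hi₀⟩ := hh.exh x y
  · refine ⟨i₀, hi₀, fun hd => hyx ?_⟩
    rw [← hi₀, ← pow_mod hh.pow_p, Nat.mod_eq_zero_of_dvd hd, pow_zero, one_smul]
  · exact (not_both hc2 hH2 hH3 (H.pow_mem (hNH hhN) i₀) hi₀ hk hkx).elim

omit [Fintype X] in
include hc hc2 hH1 hH2 hH3 hp hNH hhN hh in
lemma cnt_pos_of {x y : X} (hxy : ∃ k ∈ H, k • x = y) (hyx : y ≠ x)
    (hd : ∀ g ∈ N, ∀ j : ℕ, j.Coprime (Nat.card G) → dlF c x y (g ^ j) = dlF c x y g)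
    {i : ℕ} (hi : ¬ p ∣ i) : 0 < cnt x y (h ^ i) := by
  obtain ⟨i₀, hi₀, hpi₀⟩ := exp_of_rel hc2 hH2 hH3 hNH hhN hh hxy hyx
  obtain ⟨j, hj, hij⟩ := exists_exp (G := G) hp hpi₀ hi
  have h1 := hd (h ^ i₀) (N.pow_mem hhN i₀) j hj
  have h2 : cnt x (c • y) ((h ^ i₀) ^ j) = 0 :=
    cnt_zero hc hc2 hH1 hH2 hH3 hxy (H.pow_mem (H.pow_mem (hNH hhN) _) _)
  have h3 : cnt x (c • y) (h ^ i₀) = 0 :=
    cnt_zero hc hc2 hH1 hH2 hH3 hxy (H.pow_mem (hNH hhN) _)
  unfold dlF at h1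
  rw [h2, h3, Nat.cast_zero, sub_zero, sub_zero] at h1
  have h4 : cnt x y ((h ^ i₀) ^ j) = cnt x y (h ^ i) := by
    refine cnt_congr x y (fun z => ?_)
    rw [← pow_mul, ← pow_mod hh.pow_p, hij, pow_mod hh.pow_p]
  rw [h4] at h1
  have h5 : 0 < cnt x y (h ^ i₀) := by
    unfold cnt
    exact Finset.card_pos.mpr ⟨1, by simpa using hi₀⟩
  have h6 : cnt x y (h ^ i) = cnt x y (h ^ i₀) := by exact_mod_cast h1
  omega

omit [Fintype X] in
include hc hc2 hH1 hH2 hH3 hp hNH hhN hh in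
lemma cnt_pos_of_sum {x y : X} (hxy : ∃ k ∈ H, k • x = y) (hyx : y ≠ x)
    (hd : ∀ g ∈ N, ∀ j : ℕ, j.Coprime (Nat.card G) →
      dlF c x y (g ^ j) + dlF c y x (g ^ j) = dlF c x y g + dlF c y x g)
    {i : ℕ} (hi : ¬ p ∣ i) : 0 < cnt x y (h ^ i) ∨ 0 < cnt y x (h ^ i) := by
  have hyx' : ∃ k ∈ H, k • y = x := by
    obtain ⟨k, hk, hkx⟩ := hxy
    exact ⟨k⁻¹, H.inv_mem hk, by rw [← hkx, inv_smul_smul]⟩
  obtain ⟨i₀, hi₀, hpi₀⟩ := exp_of_rel hc2 hH2 hH3 hNH hhN hh hxy hyx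
  obtain ⟨j, hj, hij⟩ := exists_exp (G := G) hp hpi₀ hi
  have h1 := hd (h ^ i₀) (N.pow_mem hhN i₀) j hj
  have h2 : cnt x (c • y) ((h ^ i₀) ^ j) = 0 :=
    cnt_zero hc hc2 hH1 hH2 hH3 hxy (H.pow_mem (H.pow_mem (hNH hhN) _) _)
  have h3 : cnt x (c • y) (h ^ i₀) = 0 :=
    cnt_zero hc hc2 hH1 hH2 hH3 hxy (H.pow_mem (hNH hhN) _)
  have h2' : cnt y (c • x) ((h ^ i₀) ^ j) = 0 :=
    cnt_zero hc hc2 hH1 hH2 hH3 hyx' (H.pow_mem (H.pow_mem (hNH hhN) _) _)
  have h3' : cnt y (c • x) (h ^ i₀) = 0 :=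
    cnt_zero hc hc2 hH1 hH2 hH3 hyx' (H.pow_mem (hNH hhN) _)
  unfold dlF at h1
  rw [h2, h3, h2', h3', Nat.cast_zero, sub_zero, sub_zero, sub_zero, sub_zero] at h1
  have h4 : ∀ x y : X, cnt x y ((h ^ i₀) ^ j) = cnt x y (h ^ i) := by
    intro x y
    refine cnt_congr x y (fun z => ?_)
    rw [← pow_mul, ← pow_mod hh.pow_p, hij, pow_mod hh.pow_p]
  rw [h4, h4] at h1
  have h5 : 0 < cnt x y (h ^ i₀) := by
    unfold cnt
    exact Finset.card_pos.mpr ⟨1, by simpa using hi₀⟩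
  have h6 : cnt x y (h ^ i) + cnt y x (h ^ i) = cnt x y (h ^ i₀) + cnt y x (h ^ i₀) := by
    exact_mod_cast h1
  omega

omit [Fintype X] in
include hc hc2 hh in
/-- an element which maps `x` to `± x'` and `y` to `± h ^ i x'`. -/
lemma exists_of_cnt {x y : X} {i : ℕ} (hpos : 0 < cnt x y (h ^ i)) (x' : X) :
    ∃ g : G, (g • x = x' ∨ g • x = c • x') ∧
      (g • y = h ^ i • x' ∨ g • y = c • (h ^ i • x')) := by
  unfold cnt at hpos
  obtain ⟨k, hk⟩ := Finset.card_pos.mp hpos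
  simp only [Finset.mem_filter, Finset.mem_univ, true_and] at hk
  have hk' : h ^ i • (k • x) = k • y := by
    rw [mul_assoc, mul_smul, inv_smul_eq_iff, mul_smul] at hk
    exact hk
  obtain ⟨l, hl⟩ := hh.exh x' (k • x)
  have hcomm : ∀ (g : G) (z : X), g • (c • z) = c • (g • z) := fun g z => by
    rw [← mul_smul, ← mul_smul, hc]
  have hil : ∀ z : X, (h ^ l)⁻¹ • (h ^ i • z) = h ^ i • ((h ^ l)⁻¹ • z) := fun z => by
    rw [← mul_smul, ← mul_smul]
    congr 1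
    exact ((Commute.refl h).pow_pow i l).inv_right.eq.symm
  refine ⟨(h ^ l)⁻¹ * k, ?_⟩
  rw [mul_smul, mul_smul, ← hk', hil]
  rcases hl with hl | hl
  · have h1 : (h ^ l)⁻¹ • (k • x) = x' := by rw [← hl, inv_smul_smul]
    rw [h1]
    exact ⟨Or.inl rfl, Or.inl rfl⟩
  · have h1 : (h ^ l)⁻¹ • (k • x) = c • x' := by
      have h2 : k • x = c • (h ^ l • x') := by
        rw [hl, ← mul_smul, hc2, one_smul]
      rw [h2, hcomm, inv_smul_smul]
    rw [h1, hcomm]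
    exact ⟨Or.inr rfl, Or.inr rfl⟩

end necessity

include hc hc2 hcf hH1 hH2 hH3 in
/-- **Necessity of double transitivity.** -/
theorem dbl_of [MulAction.IsPretransitive G X] {p : ℕ} (hp : p.Prime) (hp2 : p ≠ 2)
    (hX : Fintype.card X = 2 * p) {N : Subgroup G} (hNH : N ≤ H)
    (hN : ∀ x y : X, ∃ n ∈ N, n • x = y ∨ n • x = c • y)
    (hd : ∀ x y : X, ∀ g ∈ N, ∀ j : ℕ, j.Coprime (Nat.card G) →
      dlF c x y (g ^ j) = dlF c x y g) : Dbl X c := by
  obtain ⟨h, hhN, hh⟩ := exists_cyc hc hc2 hcf hp hp2 hX N hN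
  intro x y x' y' hyx hycx hyx' hycx'
  have hcc : ∀ x : X, c • (c • x) = x := fun x => by rw [← mul_smul, hc2, one_smul]
  have key : ∀ y y' : X, y ≠ x → y' ≠ x' → (∃ g ∈ H, g • x = y) → (∃ g ∈ H, g • x' = y') →
      ∃ g : G, (g • x = x' ∨ g • x = c • x') ∧ (g • y = y' ∨ g • y = c • y') := by
    intro y y' hy hy' h1 h2
    obtain ⟨i, hi, hpi⟩ := exp_of_rel hc2 hH2 hH3 hNH hhN hh h2 hy'
    have h3 := cnt_pos_of hc hc2 hH1 hH2 hH3 hp hNH hhN hh h1 hy (hd x y) hpi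
    rw [← hi]
    exact exists_of_cnt hc hc2 hh h3 x'
  have hswap : ∀ {a b : X}, a = c • b → c • a = b := fun {a b} h => by rw [h, hcc]
  have hswap' : ∀ {a b : X}, c • a = b → a = c • b := fun {a b} h => by rw [← h, hcc]
  have hcomm : ∀ (g : G) (z : X), g • (c • z) = c • (g • z) := fun g z => by
    rw [← mul_smul, ← mul_smul, hc]
  have n1 : c • y ≠ x := fun h => hycx (hswap' h)
  have n2 : c • y' ≠ x' := fun h => hycx' (hswap' h)
  rcases rel_or hc2 hH1 x y with h1 | h1 <;> rcases rel_or hc2 hH1 x' y' with h2 | h2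
  · exact key y y' hyx hyx' h1 h2
  · obtain ⟨g, hg1, hg2⟩ := key y (c • y') hyx n2 h1 h2
    refine ⟨g, hg1, ?_⟩
    rw [hcc] at hg2
    exact hg2.symm
  · obtain ⟨g, hg1, hg2⟩ := key (c • y) y' n1 hyx' h1 h2
    refine ⟨g, hg1, ?_⟩
    rw [hcomm] at hg2
    rcases hg2 with h | h
    · right; exact hswap' h
    · left; exact (MulAction.injective c) h
  · obtain ⟨g, hg1, hg2⟩ := key (c • y) (c • y') n1 n2 h1 h2
    refine ⟨g, hg1, ?_⟩
    rw [hcomm, hcc] at hg2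
    rcases hg2 with h | h
    · left; exact (MulAction.injective c) h
    · right; exact hswap' h

include hc hc2 hcf hH1 hH2 hH3 in
/-- **Necessity of double homogeneity.** -/
theorem hmg_of [MulAction.IsPretransitive G X] {p : ℕ} (hp : p.Prime) (hp2 : p ≠ 2)
    (hX : Fintype.card X = 2 * p) {N : Subgroup G} (hNH : N ≤ H)
    (hN : ∀ x y : X, ∃ n ∈ N, n • x = y ∨ n • x = c • y)
    (hd : ∀ x y : X, ∀ g ∈ N, ∀ j : ℕ, j.Coprime (Nat.card G) →
      dlF c x y (g ^ j) + dlF c y x (g ^ j) = dlF c x y g + dlF c y x g) : Hmg X c := by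
  obtain ⟨h, hhN, hh⟩ := exists_cyc hc hc2 hcf hp hp2 hX N hN
  intro x y x' y' hyx hycx hyx' hycx'
  have hcc : ∀ x : X, c • (c • x) = x := fun x => by rw [← mul_smul, hc2, one_smul]
  have key : ∀ y y' : X, y ≠ x → y' ≠ x' → (∃ g ∈ H, g • x = y) → (∃ g ∈ H, g • x' = y') →
      ∃ g : G, ((g • x = x' ∨ g • x = c • x') ∧ (g • y = y' ∨ g • y = c • y')) ∨
        ((g • y = x' ∨ g • y = c • x') ∧ (g • x = y' ∨ g • x = c • y')) := by
    intro y y' hy hy' h1 h2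
    obtain ⟨i, hi, hpi⟩ := exp_of_rel hc2 hH2 hH3 hNH hhN hh h2 hy'
    rw [← hi]
    rcases cnt_pos_of_sum hc hc2 hH1 hH2 hH3 hp hNH hhN hh h1 hy (hd x y) hpi with h3 | h3
    · obtain ⟨g, hg⟩ := exists_of_cnt hc hc2 hh h3 x'
      exact ⟨g, Or.inl hg⟩
    · obtain ⟨g, hg⟩ := exists_of_cnt hc hc2 hh h3 x'
      exact ⟨g, Or.inr hg⟩
  have hswap' : ∀ {a b : X}, c • a = b → a = c • b := fun {a b} h => by rw [← h, hcc]
  have hcomm : ∀ (g : G) (z : X), g • (c • z) = c • (g • z) := fun g z => by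
    rw [← mul_smul, ← mul_smul, hc]
  have n1 : c • y ≠ x := fun h => hycx (hswap' h)
  have n2 : c • y' ≠ x' := fun h => hycx' (hswap' h)
  -- the conditions only depend on the pairs
  have e1 : ∀ (g : G) (a b : X), (g • a = c • b ∨ g • a = c • (c • b)) ↔
      (g • a = b ∨ g • a = c • b) := by
    intro g a b
    rw [hcc, or_comm]
  have e2 : ∀ (g : G) (a b : X), (g • (c • a) = b ∨ g • (c • a) = c • b) ↔
      (g • a = b ∨ g • a = c • b) := by
    intro g a b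
    rw [hcomm]
    constructor
    · rintro (h | h)
      · right; exact hswap' h
      · left; exact (MulAction.injective c) h
    · rintro (h | h)
      · right; rw [h]
      · left; rw [h, hcc]
  rcases rel_or hc2 hH1 x y with h1 | h1 <;> rcases rel_or hc2 hH1 x' y' with h2 | h2
  · obtain ⟨g, hg⟩ := key y y' hyx hyx' h1 h2
    exact ⟨g, by tauto⟩
  · obtain ⟨g, hg⟩ := key y (c • y') hyx n2 h1 h2
    rw [e1, e1] at hg
    exact ⟨g, by tauto⟩
  · obtain ⟨g, hg⟩ := key (c • y) y' n1 hyx' h1 h2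
    rw [e2, e2] at hg
    exact ⟨g, by tauto⟩
  · obtain ⟨g, hg⟩ := key (c • y) (c • y') n1 n2 h1 h2
    rw [e1, e2, e2, e1] at hg
    exact ⟨g, by tauto⟩

end

end Pool.Agent.Run7.h333.CZ
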