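import Pool.Agent.Run7.h333.CZ.Rep

/-!
# The Galois action on the values of characters
-/

set_option autoImplicit false

open scoped Classical

namespace Pool.Agent.Run7.h333.CZ

open Pool.Agent.Q11.CZ Pool.Agent.N770.CP

section trace

variable {W : Type} [AddCommGroup W] [Module ℂ W] [FiniteDimensional ℂ W]

/-- The traces of the powers of an endomorphism of finite order. -/
lemma trace_pow_eq (A : Module.End ℂ W) {n : ℕ} (hn : 0 < n) (hA : A ^ n = 1) {ζ : ℂ}
    (hζ : IsPrimitiveRoot ζ n) : ∃ m : ℕ → ℕ, ∀ j : ℕ,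
      LinearMap.trace ℂ W (A ^ j) = ∑ a ∈ Finset.range n, (m a : ℂ) * ζ ^ (a * j) := by
  have hn0 : (n : ℂ) ≠ 0 := by exact_mod_cast hn.ne'
  have hζ0 : ζ ≠ 0 := hζ.ne_zero hn.ne'
  have hζn : ζ ^ n = 1 := hζ.pow_eq_one
  set e : ℕ → Module.End ℂ W := fun a =>
    (n : ℂ)⁻¹ • ∑ t ∈ Finset.range n, (ζ⁻¹) ^ (a * t) • A ^ t with he
  have hAe : ∀ a, A * e a = ζ ^ a • e a := by
    intro a
    simp only [he]
    rw [mul_smul_comm, smul_comm (ζ ^ a)]
    congr 1
    rw [Finset.mul_sum, Finset.smul_sum]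
    set F : ℕ → Module.End ℂ W := fun t => ζ ^ a • ((ζ⁻¹) ^ (a * t) • A ^ t) with hF
    have h1 : ∀ t, A * ((ζ⁻¹) ^ (a * t) • A ^ t) = F (t + 1) := by
      intro t
      rw [hF]
      simp only
      rw [mul_smul_comm, ← pow_succ', smul_smul]
      congr 1
      rw [mul_add, mul_one, pow_add, mul_left_comm, ← mul_pow, mul_inv_cancel₀ hζ0,
        one_pow, mul_one]
    rw [Finset.sum_congr rfl (fun t _ => h1 t)]
    have h2 := Finset.sum_range_succ F n
    have h3 := Finset.sum_range_succ' F n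
    have h4 : F n = F 0 := by
      rw [hF]
      simp only
      rw [hA, mul_zero, pow_zero, pow_zero, mul_comm a n, pow_mul, inv_pow, hζn, inv_one,
        one_pow]
    rw [h2, h4] at h3
    exact (add_right_cancel h3).symm
  have hAje : ∀ (j a : ℕ), A ^ j * e a = ζ ^ (a * j) • e a := by
    intro j a
    induction j with
    | zero => rw [pow_zero, one_mul, mul_zero, pow_zero, one_smul]
    | succ j ih => rw [pow_succ', mul_assoc, ih, mul_smul_comm, hAe, smul_smul, mul_add, mul_one,
        pow_add]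
  have hsum : ∑ a ∈ Finset.range n, e a = 1 := by
    simp only [he]
    rw [← Finset.smul_sum, Finset.sum_comm]
    have h1 : ∀ t ∈ Finset.range n, ∑ a ∈ Finset.range n, (ζ⁻¹) ^ (a * t) • A ^ t =
        if t = 0 then (n : ℂ) • (1 : Module.End ℂ W) else 0 := by
      intro t ht
      rw [← Finset.sum_smul]
      split_ifs with h0
      · rw [h0]
        simp
      · have h2 : (ζ⁻¹) ^ t ≠ 1 := by
          rw [inv_pow, Ne, inv_eq_one]
          exact hζ.pow_ne_one_of_pos_of_lt h0 (Finset.mem_range.mp ht)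
        have h3 : ∑ a ∈ Finset.range n, (ζ⁻¹) ^ (a * t) = 0 := by
          have h4 : ∀ a, (ζ⁻¹) ^ (a * t) = ((ζ⁻¹) ^ t) ^ a := fun a => by
            rw [← pow_mul, mul_comm]
          simp only [h4]
          have h5 := mul_neg_geom_sum ((ζ⁻¹) ^ t) n
          rw [← pow_mul, mul_comm t n, pow_mul, inv_pow ζ n, hζn, inv_one, one_pow,
            sub_self] at h5
          rcases mul_eq_zero.mp h5 with h6 | h6
          · exact absurd (sub_eq_zero.mp h6).symm h2
          · exact h6
        rw [h3, zero_smul]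
    rw [Finset.sum_congr rfl h1, Finset.sum_ite_eq', if_pos (Finset.mem_range.mpr hn), smul_smul,
      inv_mul_cancel₀ hn0, one_smul]
  have hidem : ∀ a, IsIdempotentElem (e a) := by
    intro a
    change e a * e a = e a
    have h1 : e a * e a = (n : ℂ)⁻¹ • ∑ t ∈ Finset.range n, (ζ⁻¹) ^ (a * t) • (A ^ t * e a) := by
      conv_lhs => lhs; simp only [he]
      rw [smul_mul_assoc, Finset.sum_mul]
      congr 1
    rw [h1]
    have h2 : ∀ t ∈ Finset.range n, (ζ⁻¹) ^ (a * t) • (A ^ t * e a) = e a := by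
      intro t _
      rw [hAje, smul_smul, ← mul_pow, inv_mul_cancel₀ hζ0, one_pow, one_smul]
    rw [Finset.sum_congr rfl h2, Finset.sum_const, Finset.card_range, ← Nat.cast_smul_eq_nsmul ℂ,
      smul_smul, inv_mul_cancel₀ hn0, one_smul]
  have htr : ∀ a, ∃ m : ℕ, LinearMap.trace ℂ W (e a) = m := by
    intro a
    have h1 : LinearMap.IsProj (LinearMap.range (e a)) (e a) := by
      refine ⟨fun x => ⟨x, rfl⟩, ?_⟩
      rintro _ ⟨y, rfl⟩
      rw [← Module.End.mul_apply, (hidem a).eq]
    exact ⟨_, h1.trace⟩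
  choose m hm using htr
  refine ⟨m, fun j => ?_⟩
  have h1 : A ^ j = ∑ a ∈ Finset.range n, ζ ^ (a * j) • e a := by
    calc A ^ j = A ^ j * ∑ a ∈ Finset.range n, e a := by rw [hsum, mul_one]
      _ = ∑ a ∈ Finset.range n, ζ ^ (a * j) • e a := by
        rw [Finset.mul_sum]
        exact Finset.sum_congr rfl (fun a _ => hAje j a)
  rw [h1, map_sum]
  refine Finset.sum_congr rfl (fun a _ => ?_)
  rw [map_smul, smul_eq_mul, hm, mul_comm]

end trace

section galois

variable {G : Type} [Group G] [Fintype G]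
variable {W : Type} [AddCommGroup W] [Module ℂ W] [FiniteDimensional ℂ W]
  (ρ : Representation ℂ G W)

/-- the character of the inverse. -/
lemma chr_inv (g : G) : chr ρ g⁻¹ = starRingEnd ℂ (chr ρ g) := by
  set n := Nat.card G with hn
  have hn0 : 0 < n := Nat.card_pos
  set ζ : ℂ := Complex.exp (2 * Real.pi * Complex.I / n) with hζdef
  have hζ : IsPrimitiveRoot ζ n := Complex.isPrimitiveRoot_exp n hn0.ne'
  have hA : (ρ g) ^ n = 1 := by rw [← map_pow, hn, pow_card_eq_one', map_one]
  obtain ⟨m, hm⟩ := trace_pow_eq (ρ g) hn0 hA hζ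
  have h1 : g⁻¹ = g ^ (n - 1) := by
    rw [inv_eq_iff_mul_eq_one, ← pow_succ', Nat.sub_add_cancel hn0, hn, pow_card_eq_one']
  have h2 : chr ρ g⁻¹ = ∑ a ∈ Finset.range n, (m a : ℂ) * ζ ^ (a * (n - 1)) := by
    unfold chr
    rw [h1, map_pow]
    exact hm _
  have h3 : chr ρ g = ∑ a ∈ Finset.range n, (m a : ℂ) * ζ ^ (a * 1) := by
    unfold chr
    have := hm 1
    rwa [pow_one] at this
  rw [h2, h3, map_sum]
  refine Finset.sum_congr rfl (fun a _ => ?_)
  have h4 : starRingEnd ℂ ζ = ζ ^ (n - 1) := by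
    have h5 : ‖ζ‖ = 1 := hζ.norm'_eq_one hn0.ne'
    rw [← Complex.inv_eq_conj h5]
    refine inv_eq_of_mul_eq_one_right ?_
    rw [← pow_succ', Nat.sub_add_cancel hn0]
    exact hζ.pow_eq_one
  rw [map_mul, map_natCast, mul_one, map_pow, h4, ← pow_mul, mul_comm (n - 1) a]

omit [Fintype G] in
/-- The values of the characters of `G` in a cyclotomic field. -/
lemma exists_val {n : ℕ} [NeZero n] (hn : Nat.card G = n) {L : Type} [Field L] [NumberField L]
    [hL : IsCyclotomicExtension {n} ℚ L] (φ : L →+* ℂ)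
    (g : G) : ∃ x : L, φ x = chr ρ g ∧
      ∀ t : (ZMod n)ˣ, φ ((IsCyclotomicExtension.Rat.galEquivZMod n L).symm t x) =
        chr ρ (g ^ (t : ZMod n).val) := by
  have hn0 : 0 < n := Nat.pos_of_ne_zero (NeZero.ne n)
  obtain ⟨z, hz⟩ := hL.exists_isPrimitiveRoot (Set.mem_singleton n) hn0.ne'
  have hζ : IsPrimitiveRoot (φ z) n := hz.map_of_injective φ.injective
  have hA : (ρ g) ^ n = 1 := by rw [← map_pow, ← hn, pow_card_eq_one', map_one]
  obtain ⟨m, hm⟩ := trace_pow_eq (ρ g) hn0 hA hζ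
  refine ⟨∑ a ∈ Finset.range n, (m a : L) * z ^ a, ?_, ?_⟩
  · have h1 := hm 1
    rw [pow_one] at h1
    unfold chr
    rw [h1, map_sum]
    refine Finset.sum_congr rfl (fun a _ => ?_)
    rw [map_mul, map_natCast, map_pow, mul_one]
  · intro t
    unfold chr
    rw [map_pow, hm, map_sum, map_sum]
    refine Finset.sum_congr rfl (fun a _ => ?_)
    rw [map_mul, map_natCast, map_mul, map_natCast, map_pow, map_pow]
    congr 1
    have h2 := IsCyclotomicExtension.Rat.galEquivZMod_apply_of_pow_eq n L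
      ((IsCyclotomicExtension.Rat.galEquivZMod n L).symm t) hz.pow_eq_one
    rw [MulEquiv.apply_symm_apply] at h2
    rw [h2, map_pow, ← pow_mul, mul_comm]

omit [Fintype G] in
/-- A cyclotomic field with an embedding into the complex numbers. -/
lemma exists_cyclotomic (n : ℕ) [NeZero n] : ∃ (L : Type) (_ : Field L) (_ : NumberField L),
    IsCyclotomicExtension {n} ℚ L ∧ Nonempty (L →+* ℂ) := by
  refine ⟨CyclotomicField n ℚ, inferInstance, inferInstance, ?_, inferInstance⟩
  have h := CyclotomicField.isCyclotomicExtension n ℚ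
  have e : (DivisionRing.toRatAlgebra : Algebra ℚ (CyclotomicField n ℚ)) =
      CyclotomicField.algebra n ℚ := Subsingleton.elim _ _
  rw [e]
  exact h

end galois

end Pool.Agent.Run7.h333.CZ
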