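import Pool.Agent.Run7.h333.CZ.Cyc

/-!
# Linked points

If some pair of independent points `x`, `y` is linked, the group preserves a decomposition
`X = U ⊔ c U`.
-/

set_option autoImplicit false

open scoped Classical

namespace Pool.Agent.Run7.h333.CZ

open Pool.Agent.Q11.CZ Pool.Agent.N770.CP

variable {G : Type} [Group G] [Fintype G] {X : Type} [Fintype X] [MulAction G X]

/-- the signed adjacency function of the orbit of `(x, y)`. -/
noncomputable def adj (c : G) (x y u v : X) : ℚ :=
  ((Finset.univ.filter fun g : G => g • x = u ∧ g • y = v).card : ℚ) -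
    (Finset.univ.filter fun g : G => g • x = u ∧ g • y = c • v).card

section

variable {c : G} (hc : ∀ g, c * g = g * c) (hc2 : c * c = 1) (hcf : ∀ x : X, c • x ≠ x)

omit [Fintype X] in
include hc in
lemma adj_smul (x y : X) (k : G) (u v : X) : adj c x y (k • u) (k • v) = adj c x y u v := by
  unfold adj
  congr 2
  · refine (Finset.card_bijective (fun g => k * g) (Group.mulLeft_bijective k) (fun g => ?_)).symm
    simp only [Finset.mem_filter, Finset.mem_univ, true_and, mul_smul]
    rw [(MulAction.injective k).eq_iff, (MulAction.injective k).eq_iff]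
  · refine (Finset.card_bijective (fun g => k * g) (Group.mulLeft_bijective k) (fun g => ?_)).symm
    simp only [Finset.mem_filter, Finset.mem_univ, true_and, mul_smul]
    have h1 : c • (k • v) = k • (c • v) := by rw [← mul_smul, hc, mul_smul]
    rw [(MulAction.injective k).eq_iff, h1, (MulAction.injective k).eq_iff]

omit [Fintype X] in
include hc2 in
lemma adj_c (x y u v : X) : adj c x y u (c • v) = - adj c x y u v := by
  have hcc : ∀ x : X, c • (c • x) = x := fun x => by rw [← mul_smul, hc2, one_smul]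
  unfold adj
  rw [hcc]
  ring

omit [Fintype X] in
/-- the value at a point of the orbit. -/
lemma adj_pos {x y : X} (hc : ∀ g, c * g = g * c) (hnl : ¬ ∃ k : G, k • x = x ∧ k • y = c • y)
    (g₀ : G) : 0 < adj c x y (g₀ • x) (g₀ • y) := by
  rw [adj_smul hc]
  unfold adj
  have h1 : (Finset.univ.filter fun g : G => g • x = x ∧ g • y = c • y) = ∅ := by
    rw [Finset.filter_eq_empty_iff]
    intro g _ h
    exact hnl ⟨g, h⟩
  rw [h1, Finset.card_empty, Nat.cast_zero, sub_zero]
  have h2 : 0 < (Finset.univ.filter fun g : G => g • x = x ∧ g • y = y).card :=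
    Finset.card_pos.mpr ⟨1, by simp⟩
  exact_mod_cast h2

include hc hc2 hcf in
/-- **Linked points.** -/
theorem exists_sub [MulAction.IsPretransitive G X] {p : ℕ} (hp : p.Prime) (hp2 : p ≠ 2)
    (hX : Fintype.card X = 2 * p) {x y : X} (hyx : y ≠ x) (hycx : y ≠ c • x)
    (hnl : ¬ ∃ k : G, k • x = x ∧ k • y = c • y) :
    ∃ H : Subgroup G, (∀ g, g ∈ H ∨ c * g ∈ H) ∧ c ∉ H ∧ ∀ z : X, MulAction.stabilizer G z ≤ H := by
  have hpf : Fact p.Prime := ⟨hp⟩
  have hcc : ∀ x : X, c • (c • x) = x := fun x => by rw [← mul_smul, hc2, one_smul]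
  obtain ⟨h, -, hh⟩ := exists_cyc hc hc2 hcf hp hp2 hX (⊤ : Subgroup G) (fun x y => by
    obtain ⟨g, hg⟩ := MulAction.exists_smul_eq G x y
    exact ⟨g, Subgroup.mem_top _, Or.inl hg⟩)
  set x₀ := x with hx₀
  -- the invariant half
  set U : X → ℚ := fun z => if ∃ j : ZMod p, z = P h x₀ j then 1 else -1 with hU
  have hU1 : ∀ j : ZMod p, U (P h x₀ j) = 1 := fun j => if_pos ⟨j, rfl⟩
  have hU2 : ∀ j : ZMod p, U (c • P h x₀ j) = -1 := fun j => if_neg (by
    rintro ⟨i, hi⟩
    exact P_ne hc2 hX hh x₀ hi.symm)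
  have hUc : ∀ z, U (c • z) = - U z := by
    intro z
    obtain ⟨j, rfl | rfl⟩ := P_surj hc2 hh x₀ z
    · rw [hU1, hU2]
    · rw [hcc, hU1, hU2, neg_neg]
  have hUh : ∀ (n : ℕ) z, U (h ^ n • z) = U z := by
    intro n z
    obtain ⟨j, rfl | rfl⟩ := P_surj hc2 hh x₀ z
    · rw [pow_P hh, hU1, hU1]
    · rw [← mul_smul, ← hc, mul_smul, pow_P hh, hU2, hU2]
  have hUpm : ∀ z, U z = 1 ∨ U z = -1 := by
    intro z
    rw [hU]
    simp only
    split_ifs
    · exact Or.inl rfl
    · exact Or.inr rfl
  set A : X → X → ℚ := adj c x₀ y with hA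
  set s : ZMod p → ℚ := fun l => A x₀ (P h x₀ l) with hs
  have hAP : ∀ i j : ZMod p, A (P h x₀ i) (P h x₀ j) = s (j - i) := by
    intro i j
    have h1 : P h x₀ i = h ^ i.val • x₀ := rfl
    have h2 : P h x₀ j = h ^ i.val • P h x₀ (j - i) := by
      rw [pow_P hh, ZMod.natCast_zmod_val, sub_add_cancel]
    rw [h1, h2, hA, adj_smul hc]
  -- the eigenvalue
  set m : ℚ := ∑ v, A x₀ v * U v with hm
  have hm' : m = 2 * ∑ l, s l := by
    rw [hm, sum_P hc2 hX hh x₀, Finset.mul_sum]
    refine Finset.sum_congr rfl (fun j _ => ?_)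
    rw [hU1, hU2, hA, adj_c hc2]
    simp only [hs, hA]
    ring
  have hSU : ∀ u, ∑ v, A u v * U v = m * U u := by
    have h1 : ∀ j : ZMod p, ∑ v, A (P h x₀ j) v * U v = m := by
      intro j
      rw [hm]
      refine (Fintype.sum_equiv (MulAction.toPerm (h ^ j.val)) _ _ (fun v => ?_)).symm
      rw [MulAction.toPerm_apply, hUh]
      congr 1
      rw [hA]
      exact (adj_smul hc _ _ _ _ _).symm
    intro u
    obtain ⟨j, rfl | rfl⟩ := P_surj hc2 hh x₀ u
    · rw [h1, hU1, mul_one]
    · rw [hU2, ← h1 j, mul_neg, mul_one, ← Finset.sum_neg_distrib]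
      refine (Fintype.sum_equiv (MulAction.toPerm c) _ _ (fun v => ?_)).symm
      rw [MulAction.toPerm_apply, hUc, hA, adj_smul hc]
      ring
  -- a nonzero entry
  obtain ⟨l, hl0, hsl⟩ : ∃ l : ZMod p, l ≠ 0 ∧ s l ≠ 0 := by
    have hpos := adj_pos hc hnl 1
    rw [one_smul, one_smul] at hpos
    obtain ⟨l, hl | hl⟩ := P_surj hc2 hh x₀ y
    · refine ⟨l, ?_, ?_⟩
      · rintro rfl
        rw [P_zero] at hl
        exact hyx hl
      · rw [hs]
        simp only
        rw [← hl]
        exact hpos.ne'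
    · refine ⟨l, ?_, ?_⟩
      · rintro rfl
        rw [P_zero] at hl
        exact hycx hl
      · rw [hs]
        simp only
        have h2 : P h x₀ l = c • y := by rw [hl, hcc]
        rw [h2, hA, adj_c hc2]
        exact neg_ne_zero.mpr hpos.ne'
  -- all translates are `± U`
  have hV : ∀ g : G, (∀ z, U (g • z) = U z) ∨ ∀ z, U (g • z) = - U z := by
    intro g
    set v : ZMod p → ℚ := fun j => U (g • P h x₀ j) with hv
    have h1 : ∀ i, ∑ j, s (j - i) * v j = (∑ j, s j) * v i := by
      intro i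
      have h2 : ∑ w, A (P h x₀ i) w * U (g • w) = m * U (g • P h x₀ i) := by
        rw [← hSU (g • P h x₀ i)]
        refine Fintype.sum_equiv (MulAction.toPerm g) _ _ (fun w => ?_)
        rw [MulAction.toPerm_apply]
        congr 1
        rw [hA]
        exact (adj_smul hc _ _ _ _ _).symm
      rw [sum_P hc2 hX hh x₀, hm'] at h2
      have h3 : ∀ j : ZMod p, A (P h x₀ i) (P h x₀ j) * U (g • P h x₀ j) +
          A (P h x₀ i) (c • P h x₀ j) * U (g • (c • P h x₀ j)) = 2 * (s (j - i) * v j) := by
        intro j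
        have h4 : A (P h x₀ i) (c • P h x₀ j) = - s (j - i) := by
          rw [← hAP, hA, adj_c hc2]
        have h5 : U (g • (c • P h x₀ j)) = - v j := by
          rw [← mul_smul, ← hc, mul_smul, hUc]
        rw [h4, h5, hAP]
        simp only [hv]
        ring
      rw [Finset.sum_congr rfl (fun j _ => h3 j), ← Finset.mul_sum] at h2
      have h6 : m = m := rfl
      simp only [hv] at h2 ⊢
      linarith
    have h2 := circ_const s v h1 hl0 hsl
    have h3 : ∀ j : ZMod p, U (g • P h x₀ j) = v 0 := fun j => h2 j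
    have h4 : ∀ j : ZMod p, U (g • (c • P h x₀ j)) = - v 0 := fun j => by
      rw [← mul_smul, ← hc, mul_smul, hUc, h3]
    rcases hUpm (g • P h x₀ (0 : ZMod p)) with h5 | h5
    · left
      have h6 : v 0 = 1 := h5
      intro z
      obtain ⟨j, rfl | rfl⟩ := P_surj hc2 hh x₀ z
      · rw [h3, hU1, h6]
      · rw [h4, hU2, h6]
    · right
      have h6 : v 0 = -1 := h5
      intro z
      obtain ⟨j, rfl | rfl⟩ := P_surj hc2 hh x₀ z
      · rw [h3, hU1, h6]
      · rw [h4, hU2, h6]
  let H : Subgroup G :=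
    { carrier := {g | ∀ z, U (g • z) = U z}
      one_mem' := fun z => by rw [one_smul]
      mul_mem' := fun {a b} ha hb z => by
        rw [mul_smul]
        exact (ha _).trans (hb z)
      inv_mem' := fun {a} ha z => by
        have := ha (a⁻¹ • z)
        rw [smul_inv_smul] at this
        exact this.symm }
  have hne0 : ∀ z, U z ≠ - U z := by
    intro z hz
    rcases hUpm z with h1 | h1 <;> rw [h1] at hz <;> norm_num at hz
  refine ⟨H, ?_, ?_, ?_⟩
  · intro g
    rcases hV g with h1 | h1
    · exact Or.inl h1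
    · right
      intro z
      rw [mul_smul, hUc, h1, neg_neg]
  · intro h1
    have h2 := h1 x₀
    rw [hUc] at h2
    exact hne0 x₀ h2.symm
  · intro z g hg
    rw [MulAction.mem_stabilizer_iff] at hg
    rcases hV g with h1 | h1
    · exact h1
    · exfalso
      have h2 := h1 z
      rw [hg] at h2
      exact hne0 z h2

end

end Pool.Agent.Run7.h333.CZ
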