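import Pool.Agent.Run7.h333.CZ.PrimeGrp
import Pool.Agent.N770.CP.Fields2

/-!
# CM fields of degree `2 p`: the translation
-/

set_option autoImplicit false

open scoped Classical
open NumberField

namespace Pool.Agent.Run7.h333.CZ

open Pool.Agent.N770.CP
open Pool.Agent.Results.MP_a2beea_nt.AveragedAndAbelian

variable {E K : Type} [Field E] [NumberField E] [Field K] [NumberField K]

/-- the restriction of an embedding to the maximal real subfield. -/
noncomputable def res (ψ : E →ₐ[ℚ] K) : maximalRealSubfield E →ₐ[ℚ] K :=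
  ψ.comp (IsScalarTower.toAlgHom ℚ (maximalRealSubfield E) E)

lemma res_smul (g : K ≃ₐ[ℚ] K) (ψ : E →ₐ[ℚ] K) : res (g • ψ) = g • res ψ := rfl

lemma res_surj [IsGalois ℚ K] (ψ : E →ₐ[ℚ] K) (f : maximalRealSubfield E →ₐ[ℚ] K) :
    ∃ θ : E →ₐ[ℚ] K, res θ = f := by
  obtain ⟨g, hg⟩ := Pool.Agent.Q11.CZ.exists_lift (res ψ) f
  exact ⟨g • ψ, by rw [res_smul, hg]⟩

lemma res_eq_iff [IsCMField E] [IsCMField K] (θ θ' : E →ₐ[ℚ] K) :
    res θ' = res θ ↔ θ' = θ ∨ θ' = conjugation K • θ := by
  constructor
  · intro h
    have hfix : ∀ x : E, x ∈ maximalRealSubfield E → θ' x = θ x := fun x hx =>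
      congrArg (fun f : maximalRealSubfield E →ₐ[ℚ] K => f ⟨x, hx⟩) h
    have htwo : ∀ x : E, θ' x = θ x ∨ θ' x = θ (conjugation E x) := by
      intro x
      have h1 : θ' (x + conjugation E x) = θ (x + conjugation E x) := by
        refine hfix _ ((conj_fix_iff _).mp ?_)
        rw [map_add, conj_conj, add_comm]
      have h2 : θ' (x * conjugation E x) = θ (x * conjugation E x) := by
        refine hfix _ ((conj_fix_iff _).mp ?_)
        rw [map_mul, conj_conj, mul_comm]
      rw [map_add, map_add] at h1
      rw [map_mul, map_mul] at h2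
      have h3 : (θ' x - θ x) * (θ' x - θ (conjugation E x)) = 0 := by
        have h4 : θ' (conjugation E x) = θ x + θ (conjugation E x) - θ' x := by
          rw [← h1]; ring
        rw [h4] at h2
        linear_combination -h2
      rcases mul_eq_zero.mp h3 with h | h
      · exact Or.inl (sub_eq_zero.mp h)
      · exact Or.inr (sub_eq_zero.mp h)
    by_cases h5 : ∀ x, θ' x = θ x
    · left
      exact AlgHom.ext h5
    · right
      push Not at h5
      obtain ⟨x0, hx0⟩ := h5
      have h0 : θ' x0 = θ (conjugation E x0) := (htwo x0).resolve_left hx0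
      apply AlgHom.ext
      intro x
      have key : θ' x = θ (conjugation E x) := by
        rcases htwo x with h1 | h1
        · rcases htwo (x + x0) with h2 | h2
          · exfalso
            apply hx0
            rw [map_add, map_add, h1] at h2
            exact add_left_cancel h2
          · rw [map_add, map_add, map_add, h0] at h2
            exact add_right_cancel h2
        · exact h1
      exact key.trans (emb_conj' θ x)
  · rintro (h | h)
    · rw [h]
    · rw [h]
      apply AlgHom.ext
      intro x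
      change conjugation K (θ x) = θ x
      rw [← emb_conj', (conj_fix_iff (x : E)).mpr x.2]

/-- the degree of `E`. -/
lemma finrank_E [IsCMField E] :
    Module.finrank ℚ E = 2 * Module.finrank ℚ (maximalRealSubfield E) := by
  have h1 := Module.finrank_mul_finrank ℚ (maximalRealSubfield E) E
  rw [← h1, Algebra.IsQuadraticExtension.finrank_eq_two (maximalRealSubfield E) E, mul_comm]

lemma card_emb [IsGalois ℚ K] (ψ : E →ₐ[ℚ] K) :
    Fintype.card (E →ₐ[ℚ] K) = Module.finrank ℚ E := by
  refine AlgHom.card_of_splits _ _ _ (fun x => ?_)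
  rw [← minpoly.algHom_eq ψ ψ.injective x]
  exact Normal.splits inferInstance (ψ x)

section sub

variable [IsGalois ℚ K] [IsCMField E] [IsCMField K]

/-- a quadratic subfield gives a subgroup. -/
lemma sub_of_quad (hodd : Odd (Module.finrank ℚ (maximalRealSubfield E))) (ψ : E →ₐ[ℚ] K)
    (k : IntermediateField ℚ E) (hk : Module.finrank ℚ k = 2) :
    ∃ H : Subgroup (K ≃ₐ[ℚ] K), (∀ g, g ∈ H ∨ conjugation K * g ∈ H) ∧ conjugation K ∉ H ∧
      ∀ z : E →ₐ[ℚ] K, MulAction.stabilizer (K ≃ₐ[ℚ] K) z ≤ H := by
  set L : IntermediateField ℚ K := k.map ψ with hL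
  have hL2 : Module.finrank ℚ L = 2 := by
    rw [← hk]
    exact (LinearEquiv.finrank_eq (IntermediateField.equivMap k ψ).toLinearEquiv).symm
  have hindex : L.fixingSubgroup.index = 2 := by
    have h2 : Nat.card L.fixingSubgroup * L.fixingSubgroup.index = Nat.card (K ≃ₐ[ℚ] K) :=
      Subgroup.card_mul_index _
    have h3 : Nat.card L.fixingSubgroup = Module.finrank L K :=
      IsGalois.card_fixingSubgroup_eq_finrank L
    have h4 : Nat.card (K ≃ₐ[ℚ] K) = Module.finrank ℚ K := IsGalois.card_aut_eq_finrank ℚ K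
    have h5 : Module.finrank ℚ L * Module.finrank L K = Module.finrank ℚ K :=
      Module.finrank_mul_finrank ℚ L K
    rw [h3, h4, ← h5, hL2] at h2
    have h6 : 0 < Module.finrank L K := Module.finrank_pos
    have h7 : Module.finrank L K * L.fixingSubgroup.index = Module.finrank L K * 2 := by
      rw [h2, mul_comm]
    exact Nat.eq_of_mul_eq_mul_left h6 h7
  have hc : conjugation K ∉ L.fixingSubgroup := by
    intro h
    rw [IntermediateField.mem_fixingSubgroup_iff] at h
    -- `k` is contained in the maximal real subfield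
    let M : IntermediateField ℚ E :=
      (IsScalarTower.toAlgHom ℚ (maximalRealSubfield E) E).fieldRange
    have hM : Module.finrank ℚ M = Module.finrank ℚ (maximalRealSubfield E) :=
      (LinearEquiv.finrank_eq (AlgEquiv.ofInjectiveField
        (IsScalarTower.toAlgHom ℚ (maximalRealSubfield E) E)).toLinearEquiv).symm
    have hkM : k ≤ M := by
      intro x hx
      have h1 : conjugation K (ψ x) = ψ x := h _ ⟨x, hx, rfl⟩
      rw [← emb_conj'] at h1
      have h2 : conjugation E x = x := (ψ : E →+* K).injective h1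
      exact ⟨⟨x, (conj_fix_iff x).mp h2⟩, rfl⟩
    have h3 := IntermediateField.finrank_dvd_of_le_right hkM
    rw [hk, hM] at h3
    exact (Nat.not_even_iff_odd.mpr hodd) (even_iff_two_dvd.mpr h3)
  have hnormal : L.fixingSubgroup.Normal := Subgroup.normal_of_index_eq_two hindex
  refine ⟨L.fixingSubgroup, ?_, hc, ?_⟩
  · intro g
    rw [Subgroup.mul_mem_iff_of_index_two hindex]
    tauto
  · intro z σ hσ
    obtain ⟨g, rfl⟩ := Pool.Agent.Q11.CZ.exists_lift ψ z
    rw [MulAction.mem_stabilizer_iff] at hσ
    have h1 : g⁻¹ * σ * g ∈ L.fixingSubgroup := by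
      rw [IntermediateField.mem_fixingSubgroup_iff]
      rintro _ ⟨x, hx, rfl⟩
      have h2 : (g⁻¹ * σ * g) • ψ = ψ := by
        rw [mul_assoc, mul_smul, mul_smul, hσ, inv_smul_smul]
      exact congrArg (fun f : E →ₐ[ℚ] K => f x) h2
    have h2 := hnormal.conj_mem _ h1 g
    have h3 : g * (g⁻¹ * σ * g) * g⁻¹ = σ := by group
    rwa [h3] at h2

/-- a subgroup gives a quadratic subfield. -/
lemma quad_of_sub (ψ : E →ₐ[ℚ] K) {H : Subgroup (K ≃ₐ[ℚ] K)}
    (hH1 : ∀ g, g ∈ H ∨ conjugation K * g ∈ H) (hH2 : conjugation K ∉ H)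
    (hH3 : ∀ z : E →ₐ[ℚ] K, MulAction.stabilizer (K ≃ₐ[ℚ] K) z ≤ H) :
    ∃ k : IntermediateField ℚ E, Module.finrank ℚ k = 2 := by
  have hindex : H.index = 2 := by
    rw [Subgroup.index_eq_two_iff]
    refine ⟨conjugation K, fun b => ?_⟩
    have hcc : conjugation K * conjugation K = 1 := Pool.Agent.Q11.CZ.conj_mul_self
    have hcomm : b * conjugation K = conjugation K * b :=
      (Pool.Agent.Q11.CZ.conj_comm b).symm
    rw [hcomm]
    rcases hH1 b with h | h
    · right
      refine ⟨h, fun h' => hH2 ?_⟩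
      have := H.mul_mem h' (H.inv_mem h)
      rwa [mul_inv_cancel_right] at this
    · left
      refine ⟨h, fun h' => hH2 ?_⟩
      have := H.mul_mem h (H.inv_mem h')
      rwa [mul_inv_cancel_right] at this
  set L := IntermediateField.fixedField H with hL
  have hfix : L.fixingSubgroup = H := IntermediateField.fixingSubgroup_fixedField H
  have hL2 : Module.finrank ℚ L = 2 := by
    have h2 : Nat.card H * H.index = Nat.card (K ≃ₐ[ℚ] K) := Subgroup.card_mul_index _
    have h3 : Nat.card L.fixingSubgroup = Module.finrank L K :=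
      IsGalois.card_fixingSubgroup_eq_finrank L
    rw [hfix] at h3
    have h4 : Nat.card (K ≃ₐ[ℚ] K) = Module.finrank ℚ K := IsGalois.card_aut_eq_finrank ℚ K
    have h5 : Module.finrank ℚ L * Module.finrank L K = Module.finrank ℚ K :=
      Module.finrank_mul_finrank ℚ L K
    rw [h3, h4, ← h5, hindex, mul_comm] at h2
    have h6 : 0 < Module.finrank L K := Module.finrank_pos
    exact (Nat.eq_of_mul_eq_mul_right h6 h2).symm
  have hle : L ≤ ψ.fieldRange := by
    have h1 : ψ.fieldRange.fixingSubgroup ≤ H := by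
      intro σ hσ
      refine hH3 ψ ?_
      rw [MulAction.mem_stabilizer_iff]
      rw [IntermediateField.mem_fixingSubgroup_iff] at hσ
      apply AlgHom.ext
      intro x
      exact hσ _ ⟨x, rfl⟩
    have h2 : IntermediateField.fixedField H ≤
        IntermediateField.fixedField ψ.fieldRange.fixingSubgroup := by
      intro x hx
      rw [IntermediateField.mem_fixedField_iff] at hx ⊢
      exact fun f hf => hx f (h1 hf)
    rw [IsGalois.fixedField_fixingSubgroup] at h2
    exact h2
  refine ⟨L.comap ψ, ?_⟩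
  rw [← hL2]
  have h1 : (L.comap ψ).map ψ = L := IntermediateField.map_comap_eq_self hle
  conv_rhs => rw [← h1]
  exact LinearEquiv.finrank_eq (IntermediateField.equivMap _ ψ).toLinearEquiv

/-- the commutator subgroup acts trivially only if `E` is abelian. -/
lemma abelian_of_triv (ψ : E →ₐ[ℚ] K)
    (hN : ∀ z ∈ commutator (K ≃ₐ[ℚ] K), ∀ θ : E →ₐ[ℚ] K, z • θ = θ) : IsAbelianGalois ℚ E := by
  set L := IntermediateField.fixedField (commutator (K ≃ₐ[ℚ] K)) with hL
  have hab : IsAbelianGalois ℚ L := by
    have key := Pool.Agent.Q11.CZ.abelian_fixed (F := ℚ) (K := K)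
    convert key
    exact Subsingleton.elim _ _
  have h1 : ∀ x : E, ψ x ∈ L := by
    intro x
    rw [hL, IntermediateField.mem_fixedField_iff]
    intro f hf
    exact congrArg (fun φ : E →ₐ[ℚ] K => φ x) (hN f hf ψ)
  let f : E →+* L := (ψ : E →+* K).codRestrict L.toSubfield.toSubring (fun x => h1 x)
  exact IsAbelianGalois.of_algHom f.toRatAlgHom

end sub

end Pool.Agent.Run7.h333.CZ
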