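import Pool.Agent.Run7.h333.CZ.Dbl

/-!
# Representations which occur in the odd functions on a transitive set
-/

set_option autoImplicit false

open scoped Classical

namespace Pool.Agent.Run7.h333.CZ

open Pool.Agent.Q11.CZ Pool.Agent.N770.CP

variable {G : Type} [Group G] [Fintype G]

section schur

variable {W : Type} [AddCommGroup W] [Module ℂ W] [FiniteDimensional ℂ W]
  (ρ : Representation ℂ G W)

omit [Fintype G] in
/-- Schur's lemma. -/
lemma schur [hρ : ρ.IsIrreducible] (f : W →ₗ[ℂ] W) (hf : ∀ g w, f (ρ g w) = ρ g (f w)) :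
    ∃ μ : ℂ, ∀ w, f w = μ • w := by
  have hnt : Nontrivial W := by
    by_contra h
    rw [not_nontrivial_iff_subsingleton] at h
    have h1 : (⊥ : Subrepresentation ρ) = ⊤ := by
      apply Subrepresentation.toSubmodule_injective
      exact Subsingleton.elim _ _
    exact bot_ne_top h1
  obtain ⟨μ, hμ⟩ := Module.End.exists_eigenvalue f
  refine ⟨μ, ?_⟩
  let S : Subrepresentation ρ :=
    { toSubmodule := Module.End.eigenspace f μ
      apply_mem_toSubmodule := fun g v hv => by
        rw [Module.End.mem_eigenspace_iff] at hv ⊢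
        rw [hf, hv, map_smul] }
  rcases eq_bot_or_eq_top S with h | h
  · exfalso
    apply hμ
    have h1 := congrArg Subrepresentation.toSubmodule h
    exact h1
  · intro w
    have h1 : w ∈ S.toSubmodule := by
      rw [h]
      exact Submodule.mem_top
    exact Module.End.mem_eigenspace_iff.mp h1

/-- the central operator attached to a function on the group. -/
noncomputable def cop (a : G → ℂ) : W →ₗ[ℂ] W :=
  ∑ g, a g • ∑ k : G, ρ (k⁻¹ * g * k)

omit [FiniteDimensional ℂ W] in
lemma cop_apply (a : G → ℂ) (w : W) :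
    cop ρ a w = ∑ g, a g • ∑ k : G, ρ (k⁻¹ * g * k) w := by
  unfold cop
  rw [LinearMap.sum_apply]
  refine Finset.sum_congr rfl (fun g _ => ?_)
  rw [LinearMap.smul_apply, LinearMap.sum_apply]

omit [FiniteDimensional ℂ W] in
lemma cop_comm (a : G → ℂ) (h : G) (w : W) : cop ρ a (ρ h w) = ρ h (cop ρ a w) := by
  rw [cop_apply, cop_apply, map_sum]
  refine Finset.sum_congr rfl (fun g _ => ?_)
  rw [map_smul, map_sum]
  congr 1
  refine Fintype.sum_equiv (Equiv.mulRight h) _ _ (fun k => ?_)
  simp only [Equiv.coe_mulRight]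
  rw [← Module.End.mul_apply, ← Module.End.mul_apply, ← map_mul, ← map_mul]
  congr 2
  group

/-- the character. -/
noncomputable def chr (g : G) : ℂ := LinearMap.trace ℂ W (ρ g)

omit [Fintype G] [FiniteDimensional ℂ W] in
lemma chr_conj (g k : G) : chr ρ (k⁻¹ * g * k) = chr ρ g := by
  unfold chr
  rw [map_mul ρ, LinearMap.trace_mul_comm, ← map_mul ρ]
  congr 2
  group

omit [FiniteDimensional ℂ W] in
lemma trace_cop (a : G → ℂ) :
    LinearMap.trace ℂ W (cop ρ a) = Fintype.card G * ∑ g, a g * chr ρ g := by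
  unfold cop
  rw [map_sum, Finset.mul_sum]
  refine Finset.sum_congr rfl (fun g _ => ?_)
  have h1 : ∀ k ∈ (Finset.univ : Finset G),
      LinearMap.trace ℂ W (ρ (k⁻¹ * g * k)) = chr ρ g := fun k _ => chr_conj ρ g k
  rw [map_smul, map_sum, Finset.sum_congr rfl h1, Finset.sum_const,
    Finset.card_univ, nsmul_eq_mul, smul_eq_mul]
  ring

/-- for an irreducible representation the operator vanishes if and only if the sum of the character
does. -/
lemma cop_eq_zero_iff [hρ : ρ.IsIrreducible] (a : G → ℂ) {w : W} (hw : w ≠ 0) :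
    cop ρ a w = 0 ↔ ∑ g, a g * chr ρ g = 0 := by
  obtain ⟨μ, hμ⟩ := schur ρ (cop ρ a) (fun g w => cop_comm ρ a g w)
  have h1 : cop ρ a = μ • LinearMap.id := by
    apply LinearMap.ext
    intro w
    rw [hμ, LinearMap.smul_apply, LinearMap.id_apply]
  have h2 := trace_cop ρ a
  rw [h1, map_smul, LinearMap.trace_id, smul_eq_mul] at h2
  have h3 : (Module.finrank ℂ W : ℂ) ≠ 0 := by
    have hnt : Nontrivial W := ⟨w, 0, hw⟩
    exact_mod_cast Module.finrank_pos.ne'
  have h4 : (Fintype.card G : ℂ) ≠ 0 := by
    exact_mod_cast Fintype.card_ne_zero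
  rw [hμ, smul_eq_zero, or_iff_left hw]
  constructor
  · intro h
    rw [h, zero_mul] at h2
    rcases mul_eq_zero.mp h2.symm with h5 | h5
    · exact absurd h5 h4
    · exact h5
  · intro h
    rw [h, mul_zero] at h2
    rcases mul_eq_zero.mp h2 with h5 | h5
    · exact h5
    · exact absurd h5 h3

end schur

section odd

variable {X : Type} [Fintype X] [MulAction G X]

/-- the permutation representation on the functions. -/
noncomputable def perm (G X : Type) [Group G] [MulAction G X] : Representation ℂ G (X → ℂ) where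
  toFun g :=
    { toFun := fun F y => F (g⁻¹ • y)
      map_add' := fun _ _ => rfl
      map_smul' := fun _ _ => rfl }
  map_one' := by
    apply LinearMap.ext
    intro F
    funext y
    change F ((1 : G)⁻¹ • y) = F y
    rw [inv_one, one_smul]
  map_mul' g h := by
    apply LinearMap.ext
    intro F
    funext y
    change F ((g * h)⁻¹ • y) = F (h⁻¹ • (g⁻¹ • y))
    rw [mul_inv_rev, mul_smul]

omit [Fintype G] [Fintype X] in
lemma perm_apply (g : G) (F : X → ℂ) (y : X) : perm G X g F y = F (g⁻¹ • y) := rfl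

variable {c : G} (hc : ∀ g, c * g = g * c) (hc2 : c * c = 1)

/-- the odd functions. -/
noncomputable def oddRep (hc : ∀ g, c * g = g * c) : Subrepresentation (perm G X) where
  toSubmodule :=
    { carrier := {F | ∀ y, F (c • y) = - F y}
      add_mem' := fun {F F'} hF hF' y => by
        simp only [Pi.add_apply, hF y, hF' y]
        ring
      zero_mem' := fun y => by simp
      smul_mem' := fun a F hF y => by
        simp only [Pi.smul_apply, hF y, smul_eq_mul]
        ring }
  apply_mem_toSubmodule g F hF y := by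
    rw [perm_apply, perm_apply, ← mul_smul, ← hc, mul_smul]
    exact hF _

/-- `χ` is the character of an irreducible representation on which `c` acts as `-1` and in which some
nonzero vector is fixed by the stabilizer of `x`. -/
def OddChar (c : G) (x : X) (χ : G → ℂ) : Prop :=
  ∃ (W : Type) (_ : AddCommGroup W) (_ : Module ℂ W) (_ : FiniteDimensional ℂ W)
    (ρ : Representation ℂ G W), ρ.IsIrreducible ∧ (∀ w, ρ c w = -w) ∧
      (∃ w : W, w ≠ 0 ∧ ∀ g : G, g • x = x → ρ g w = w) ∧
        ∀ g, χ g = LinearMap.trace ℂ W (ρ g)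

omit [Fintype G] in
/-- a nonzero subrepresentation contains an irreducible one. -/
lemma exists_irred {V : Type} [AddCommGroup V] [Module ℂ V] [FiniteDimensional ℂ V]
    {ρ : Representation ℂ G V} (C : Subrepresentation ρ) (hC : C ≠ ⊥) :
    ∃ S : Subrepresentation ρ, S ≤ C ∧ S.toRepresentation.IsIrreducible := by
  -- a nonzero subrepresentation of minimal dimension
  have hex : ∃ n : ℕ, ∃ S : Subrepresentation ρ, S ≤ C ∧ S ≠ ⊥ ∧
      Module.finrank ℂ S.toSubmodule = n := ⟨_, C, le_rfl, hC, rfl⟩
  obtain ⟨S, hSC, hS0, hSn⟩ := Nat.find_spec hex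
  have hmin := fun {m : ℕ} (h : m < Nat.find hex) => Nat.find_min hex h
  refine ⟨S, hSC, ?_⟩
  have hS0' : S.toSubmodule ≠ ⊥ := fun h => hS0 (Subrepresentation.toSubmodule_injective h)
  refine { exists_pair_ne := ⟨⊥, ⊤, fun h => ?_⟩, eq_bot_or_eq_top := fun T => ?_ }
  · have h1 : (⊥ : Submodule ℂ S.toSubmodule) = ⊤ :=
      congrArg Subrepresentation.toSubmodule h
    apply hS0'
    rw [Submodule.eq_bot_iff]
    intro v hv
    have h2 : (⟨v, hv⟩ : S.toSubmodule) ∈ (⊥ : Submodule ℂ S.toSubmodule) := by
      rw [h1]; exact Submodule.mem_top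
    rw [Submodule.mem_bot] at h2
    exact congrArg Subtype.val h2
  · let T' : Subrepresentation ρ :=
      { toSubmodule := T.toSubmodule.map S.toSubmodule.subtype
        apply_mem_toSubmodule := by
          rintro g _ ⟨v, hv, rfl⟩
          exact ⟨S.toRepresentation g v, T.apply_mem_toSubmodule g hv, rfl⟩ }
    have hT'S : T'.toSubmodule ≤ S.toSubmodule := by
      rintro _ ⟨v, -, rfl⟩
      exact v.2
    by_cases h : T.toSubmodule = ⊥
    · left
      exact Subrepresentation.toSubmodule_injective h
    right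
    apply Subrepresentation.toSubmodule_injective
    have h0 : T' ≠ ⊥ := by
      intro h1
      apply h
      have h2 : T.toSubmodule.map S.toSubmodule.subtype = ⊥ :=
        congrArg Subrepresentation.toSubmodule h1
      rw [Submodule.eq_bot_iff]
      intro v hv
      have h3 : (v : V) ∈ T.toSubmodule.map S.toSubmodule.subtype := ⟨v, hv, rfl⟩
      rw [h2, Submodule.mem_bot] at h3
      exact Subtype.ext h3
    have h3 : ¬ Module.finrank ℂ T'.toSubmodule < Nat.find hex := fun hlt =>
      hmin hlt ⟨T', fun v hv => hSC (hT'S hv), h0, rfl⟩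
    have h4 : T'.toSubmodule = S.toSubmodule :=
      Submodule.eq_of_le_of_finrank_le hT'S (by rw [hSn]; exact not_lt.mp h3)
    refine eq_top_iff.mpr ?_
    intro v _
    have h5 : (v : V) ∈ T'.toSubmodule := by rw [h4]; exact v.2
    obtain ⟨u, hu, huv⟩ := h5
    have h6 : u = v := Subtype.ext huv
    rw [← h6]
    exact hu

/-- the kernel of the central operator. -/
noncomputable def kerRep {V : Type} [AddCommGroup V] [Module ℂ V] (ρ : Representation ℂ G V)
    (a : G → ℂ) : Subrepresentation ρ where
  toSubmodule := LinearMap.ker (cop ρ a)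
  apply_mem_toSubmodule g v hv := by
    rw [LinearMap.mem_ker] at hv ⊢
    rw [cop_comm, hv, map_zero]

lemma cop_sub {V : Type} [AddCommGroup V] [Module ℂ V] {ρ : Representation ℂ G V}
    (S : Subrepresentation ρ) (a : G → ℂ) (v : S.toSubmodule) :
    ((cop S.toRepresentation a v : S.toSubmodule) : V) = cop ρ a v := by
  rw [cop_apply, cop_apply]
  rw [AddSubmonoidClass.coe_finsetSum]
  refine Finset.sum_congr rfl (fun g _ => ?_)
  rw [Submodule.coe_smul, AddSubmonoidClass.coe_finsetSum]
  rfl

/-- if the operator kills all irreducible subrepresentations of `C`, it kills `C`. -/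
lemma cop_eq_zero_of {V : Type} [AddCommGroup V] [Module ℂ V] [FiniteDimensional ℂ V]
    {ρ : Representation ℂ G V} (C : Subrepresentation ρ) (a : G → ℂ)
    (h : ∀ S : Subrepresentation ρ, S ≤ C → S.toRepresentation.IsIrreducible →
      ∀ v ∈ S.toSubmodule, cop ρ a v = 0) : ∀ v ∈ C.toSubmodule, cop ρ a v = 0 := by
  have hG : NeZero (Nat.card G : ℂ) := ⟨by exact_mod_cast Nat.card_pos.ne'⟩
  have hss : Representation.IsSemisimpleRepresentation ρ := inferInstance
  obtain ⟨D, hD⟩ := exists_isCompl (kerRep ρ a ⊓ C)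
  -- the intersection of the complement with `C` vanishes
  have h1 : D ⊓ C = ⊥ := by
    by_contra hne
    obtain ⟨S, hS, hirr⟩ := exists_irred (D ⊓ C) hne
    have h2 : S ≤ kerRep ρ a ⊓ C := by
      intro v hv
      exact ⟨h S (hS.trans inf_le_right) hirr v hv, (hS.trans inf_le_right) hv⟩
    have h3 : S ≤ ⊥ := by
      rw [← hD.inf_eq_bot]
      exact le_inf h2 (hS.trans inf_le_left)
    have h4 : S = ⊥ := le_bot_iff.mp h3
    obtain ⟨T1, T2, hT⟩ := hirr.exists_pair_ne
    apply hT
    apply Subrepresentation.toSubmodule_injective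
    have h5 : Subsingleton S.toSubmodule := by
      rw [h4]
      exact (inferInstance : Subsingleton (⊥ : Submodule ℂ V))
    exact Subsingleton.elim _ _
  intro v hv
  have h2 : v ∈ (kerRep ρ a ⊓ C ⊔ D).toSubmodule := by
    rw [hD.sup_eq_top]
    exact Submodule.mem_top
  rw [Subrepresentation.toSubmodule_sup, Submodule.mem_sup] at h2
  obtain ⟨u, hu, d, hd, hud⟩ := h2
  have h3 : d ∈ C.toSubmodule := by
    have h4 : d = v - u := by rw [← hud, add_sub_cancel_left]
    rw [h4]
    exact C.toSubmodule.sub_mem hv hu.2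
  have h4 : d ∈ (D ⊓ C).toSubmodule := ⟨hd, h3⟩
  rw [h1] at h4
  have h5 : d = 0 := h4
  rw [← hud, h5, add_zero]
  exact hu.1

include hc hc2 in
/-- **From the characters to the class functions.** -/
theorem sum_dlF_of_chr [MulAction.IsPretransitive G X] (x : X) (a : G → ℂ)
    (h : ∀ χ : G → ℂ, OddChar c x χ → ∑ g, a g * χ g = 0) (y : X) :
    ∑ g, a g * (dlF c x y g : ℂ) = 0 := by
  have hcc : ∀ x : X, c • (c • x) = x := fun x => by rw [← mul_smul, hc2, one_smul]
  have hcinv : c⁻¹ = c := inv_eq_of_mul_eq_one_left hc2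
  -- the operator kills the odd functions
  have key : ∀ F ∈ (oddRep (X := X) hc).toSubmodule, cop (perm G X) a F = 0 := by
    refine cop_eq_zero_of _ a (fun S hS hirr v hv => ?_)
    by_cases hv0 : v = 0
    · rw [hv0, map_zero]
    -- a function in `S` which does not vanish at `x`
    obtain ⟨y₀, hy₀⟩ : ∃ y₀ : X, v y₀ ≠ 0 := by
      by_contra hcon
      push Not at hcon
      exact hv0 (funext hcon)
    obtain ⟨k, hk⟩ := MulAction.exists_smul_eq G y₀ x
    set F := perm G X k v with hF
    have hFS : F ∈ S.toSubmodule := S.apply_mem_toSubmodule k hv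
    have hFx : F x ≠ 0 := by
      rw [hF, perm_apply, ← hk, inv_smul_smul]
      exact hy₀
    set st : Finset G := Finset.univ.filter fun g : G => g • x = x with hst
    set F' := ∑ g ∈ st, perm G X g F with hF'
    have hF'S : F' ∈ S.toSubmodule :=
      Submodule.sum_mem _ (fun g _ => S.apply_mem_toSubmodule g hFS)
    have hF'x : F' x = st.card * F x := by
      rw [hF', Finset.sum_apply, ← nsmul_eq_mul, ← Finset.sum_const]
      refine Finset.sum_congr rfl (fun g hg => ?_)
      rw [hst, Finset.mem_filter] at hg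
      rw [perm_apply]
      have h1 : g⁻¹ • x = x := by rw [inv_smul_eq_iff, hg.2]
      rw [h1]
    have hF'0 : F' ≠ 0 := by
      intro h1
      rw [h1] at hF'x
      have h2 : (st.card : ℂ) ≠ 0 := by
        have : 0 < st.card := Finset.card_pos.mpr ⟨1, by simp [hst]⟩
        exact_mod_cast this.ne'
      exact (mul_ne_zero h2 hFx) hF'x.symm
    have hfix : ∀ k : G, k • x = x → perm G X k F' = F' := by
      intro k hk
      rw [hF', map_sum]
      refine Finset.sum_bij (fun g _ => k * g) ?_ ?_ ?_ ?_
      · intro g hg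
        simp only [hst, Finset.mem_filter, Finset.mem_univ, true_and] at hg ⊢
        rw [mul_smul, hg, hk]
      · intro g _ g' _ h1
        exact mul_left_cancel h1
      · intro g hg
        refine ⟨k⁻¹ * g, ?_, ?_⟩
        · simp only [hst, Finset.mem_filter, Finset.mem_univ, true_and] at hg ⊢
          rw [mul_smul, hg, inv_smul_eq_iff, hk]
        · rw [mul_inv_cancel_left]
      · intro g _
        rw [map_mul]
        rfl
    have hodd : OddChar c x (fun g => LinearMap.trace ℂ S.toSubmodule (S.toRepresentation g)) := by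
      refine ⟨S.toSubmodule, inferInstance, inferInstance, inferInstance, S.toRepresentation,
        hirr, ?_, ⟨⟨F', hF'S⟩, ?_, ?_⟩, fun _ => rfl⟩
      · intro w
        apply Subtype.ext
        funext y
        change (w : X → ℂ) (c⁻¹ • y) = - (w : X → ℂ) y
        rw [hcinv]
        exact (hS w.2) y
      · intro h1
        exact hF'0 (congrArg Subtype.val h1)
      · intro g hg
        apply Subtype.ext
        exact hfix g hg
    have h1 := h _ hodd
    have h2 : (⟨v, hv⟩ : S.toSubmodule) ≠ 0 := fun h3 => hv0 (congrArg Subtype.val h3)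
    have h3 := (cop_eq_zero_iff (S.toRepresentation) a h2).mpr h1
    have h4 := cop_sub S a ⟨v, hv⟩
    rw [h3] at h4
    exact h4.symm
  -- apply this to the difference of two points
  set F : X → ℂ := fun z => (if z = x then 1 else 0) - if z = c • x then 1 else 0 with hF
  have hFodd : F ∈ (oddRep (X := X) hc).toSubmodule := by
    intro z
    simp only [hF]
    have e1 : c • z = x ↔ z = c • x :=
      ⟨fun h => by rw [← h, hcc], fun h => by rw [h, hcc]⟩
    have e2 : c • z = c • x ↔ z = x := (MulAction.injective c).eq_iff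
    simp only [e1, e2]
    ring
  have h1 := congrFun (key F hFodd) y
  rw [cop_apply, Finset.sum_apply, Pi.zero_apply] at h1
  rw [← h1]
  refine Finset.sum_congr rfl (fun g _ => ?_)
  rw [Pi.smul_apply, smul_eq_mul, Finset.sum_apply]
  congr 1
  simp only [perm_apply, hF, Finset.sum_sub_distrib]
  have e3 : ∀ k : G, ((k⁻¹ * g * k)⁻¹ • y = x) ↔ ((k⁻¹ * g * k) • x = y) := by
    intro k
    rw [inv_smul_eq_iff, eq_comm]
  have e4 : ∀ k : G, ((k⁻¹ * g * k)⁻¹ • y = c • x) ↔ ((k⁻¹ * g * k) • x = c • y) := by
    intro k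
    rw [inv_smul_eq_iff, ← mul_smul, ← hc, mul_smul]
    exact ⟨fun h => by rw [h, hcc], fun h => by rw [h, hcc]⟩
  simp only [e3, e4, Finset.sum_boole]
  unfold dlF cnt
  push_cast
  rfl

include hc2 in
/-- **From the class functions to the characters.** -/
theorem chr_of_sum_dlF [MulAction.IsPretransitive G X] (x : X) (a : G → ℂ)
    (h : ∀ y : X, ∑ g, a g * (dlF c x y g : ℂ) = 0) (χ : G → ℂ) (hχ : OddChar c x χ) :
    ∑ g, a g * χ g = 0 := by
  obtain ⟨W, _, _, _, ρ, hirr, hodd, ⟨w, hw0, hw⟩, hχρ⟩ := hχ
  have hcc : ∀ x : X, c • (c • x) = x := fun x => by rw [← mul_smul, hc2, one_smul]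
  have hex : ∀ y : X, ∃ k : G, k • x = y := fun y => MulAction.exists_smul_eq G x y
  choose kk hkk using hex
  set T : X → W := fun y => ρ (kk y) w with hT
  have hTg : ∀ (g : G) (y : X), T (g • y) = ρ g (T y) := by
    intro g y
    have h1 : ((g * kk y)⁻¹ * kk (g • y)) • x = x := by
      rw [mul_smul, hkk, inv_smul_eq_iff, mul_smul, hkk]
    have h2 := hw _ h1
    have h3 : kk (g • y) = g * kk y * ((g * kk y)⁻¹ * kk (g • y)) := by group
    simp only [hT]
    rw [h3, map_mul, Module.End.mul_apply, h2, map_mul, Module.End.mul_apply]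
  have hTx : T x = w := hw _ (hkk x)
  have hTc : ∀ y, T (c • y) = - T y := fun y => by rw [hTg, hodd]
  have h1 : cop ρ a w = 0 := by
    have h2 : cop ρ a w = ∑ y, (∑ g, a g * (cnt x y g : ℂ)) • T y := by
      rw [cop_apply]
      simp only [Finset.sum_smul]
      rw [Finset.sum_comm]
      refine Finset.sum_congr rfl (fun g _ => ?_)
      have h3 : ∀ k : G, ρ (k⁻¹ * g * k) w =
          ∑ y, if (k⁻¹ * g * k) • x = y then T y else 0 := by
        intro k
        rw [Finset.sum_ite_eq, if_pos (Finset.mem_univ _), hTg, hTx]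
      simp only [h3]
      rw [Finset.sum_comm, Finset.smul_sum]
      refine Finset.sum_congr rfl (fun y _ => ?_)
      rw [← Finset.sum_filter, Finset.sum_const, mul_smul]
      congr 1
      unfold cnt
      rw [Nat.cast_smul_eq_nsmul]
    have h3 : cop ρ a w = ∑ y, (∑ g, a g * (cnt x (c • y) g : ℂ)) • T (c • y) := by
      rw [h2]
      exact (Fintype.sum_equiv (MulAction.toPerm c) _ _ (fun y => rfl)).symm
    have h4 : cop ρ a w + cop ρ a w = 0 := by
      conv_lhs => lhs; rw [h2]
      rw [h3, ← Finset.sum_add_distrib]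
      refine Finset.sum_eq_zero (fun y _ => ?_)
      have h5 := h y
      unfold dlF at h5
      push_cast at h5
      simp only [mul_sub, Finset.sum_sub_distrib] at h5
      rw [hTc, smul_neg, ← sub_eq_add_neg, ← sub_smul, h5, zero_smul]
    have h5 : (2 : ℂ) • cop ρ a w = 0 := by rw [two_smul]; exact h4
    exact (smul_eq_zero.mp h5).resolve_left two_ne_zero
  have h2 := (cop_eq_zero_iff ρ a hw0).mp h1
  rw [← h2]
  exact Finset.sum_congr rfl (fun g _ => by rw [hχρ]; rfl)

end odd

end Pool.Agent.Run7.h333.CZ
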