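import Pool.Agent.Run7.h333.CZ.Dbl

/-!
# Double transitivity and double homogeneity are sufficient
-/

set_option autoImplicit false

open scoped Classical commutatorElement

namespace Pool.Agent.Run7.h333.CZ

open Pool.Agent.Q11.CZ Pool.Agent.N770.CP

variable {G : Type} [Group G] [Fintype G] {X : Type} [Fintype X] [MulAction G X]

section

variable {c : G} (hc : ∀ g, c * g = g * c) (hc2 : c * c = 1) (hcf : ∀ x : X, c • x ≠ x)
variable {H : Subgroup G} (hH1 : ∀ g, g ∈ H ∨ c * g ∈ H) (hH2 : c ∉ H)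
  (hH3 : ∀ z : X, MulAction.stabilizer G z ≤ H)

/-- the orbit of `x` under `H`. -/
noncomputable def Orb (H : Subgroup G) (x : X) : Finset X :=
  Finset.univ.filter fun y : X => ∃ g ∈ H, g • x = y

lemma mem_Orb (x y : X) : y ∈ Orb H x ↔ ∃ g ∈ H, g • x = y := by simp [Orb]

lemma self_mem_Orb (x : X) : x ∈ Orb H x := by
  rw [mem_Orb]
  exact ⟨1, H.one_mem, one_smul _ _⟩

lemma Orb_eq {x y : X} (h : y ∈ Orb H x) : Orb H y = Orb H x := by
  rw [mem_Orb] at h
  obtain ⟨k, hk, rfl⟩ := h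
  ext z
  rw [mem_Orb, mem_Orb]
  constructor
  · rintro ⟨g, hg, h⟩
    exact ⟨g * k, H.mul_mem hg hk, by rw [mul_smul, h]⟩
  · rintro ⟨g, hg, h⟩
    exact ⟨g * k⁻¹, H.mul_mem hg (H.inv_mem hk), by rw [mul_smul, inv_smul_smul, h]⟩

include hc hH1 hH3 in
/-- the sum of the numbers over an orbit. -/
lemma sum_Orb (x : X) (g : G) :
    ∑ y ∈ Orb H x, cnt x y g = if g ∈ H then Fintype.card G else 0 := by
  rw [sum_cnt]
  have h1 : ∀ k : G, (k⁻¹ * g * k) • x ∈ Orb H x ↔ g ∈ H := by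
    intro k
    rw [mem_Orb, ← conj_mem_iff hc hH1 g k]
    constructor
    · rintro ⟨t, ht, h⟩
      exact mem_of_rel hH3 ht h.symm
    · intro h
      exact ⟨_, h, rfl⟩
  simp only [h1]
  split_ifs with h
  · rw [Finset.filter_true_of_mem (fun _ _ => h), Finset.card_univ]
  · rw [Finset.filter_false_of_mem (fun _ _ => h), Finset.card_empty]

omit [Fintype X] in
include hc hc2 in
lemma dlF_eq (x y : X) (g : G) : dlF c x y g = (cnt x y g : ℚ) - cnt x y (c * g) := by
  unfold dlF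
  rw [cnt_c hc x y hc2]

omit [Fintype X] in
include hc hc2 in
lemma dlF_self (x : X) {g g' : G} (h : Subgroup.zpowers g = Subgroup.zpowers g') :
    dlF c x x g = dlF c x x g' := by
  rw [dlF_eq hc hc2, dlF_eq hc hc2, cnt_self_zpowers x h,
    cnt_self_zpowers x (zpowers_c hc hc2 h)]

omit [Fintype G] [Fintype X] in
lemma mem_iff_of_zpowers {g g' : G} (h : Subgroup.zpowers g = Subgroup.zpowers g') :
    g ∈ H ↔ g' ∈ H := by
  rw [← Subgroup.zpowers_le, h, Subgroup.zpowers_le]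

include hc hc2 hH1 hH2 hH3 in
lemma cnt_const_of_dbl (hD : Dbl X c) (hcf : ∀ x : X, c • x ≠ x) {x y y' : X} (hy : y ∈ Orb H x)
    (hy' : y' ∈ Orb H x) (hyx : y ≠ x) (hyx' : y' ≠ x) (g : G) : cnt x y g = cnt x y' g := by
  have hcc : ∀ x : X, c • (c • x) = x := fun x => by rw [← mul_smul, hc2, one_smul]
  rw [mem_Orb] at hy hy'
  have hne : ∀ z : X, (∃ k ∈ H, k • x = z) → z ≠ c • x := by
    rintro z ⟨k, hk, hkz⟩ h
    refine not_both hc2 hH2 hH3 (x := x) (y := x) hk (by rw [hkz, h]) H.one_mem (one_smul _ _)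
  obtain ⟨k, h1, h2⟩ := hD x y x y' hyx (hne y hy) hyx' (hne y' hy')
  -- choose the sign
  obtain ⟨k, h1, h2⟩ : ∃ k : G, k • x = x ∧ (k • y = y' ∨ k • y = c • y') := by
    rcases h1 with h1 | h1
    · exact ⟨k, h1, h2⟩
    · refine ⟨c * k, by rw [mul_smul, h1, hcc], ?_⟩
      rw [mul_smul]
      rcases h2 with h2 | h2
      · right; rw [h2]
      · left; rw [h2, hcc]
  have hkH : k ∈ H := hH3 x h1
  have h3 : k • y = y' := by
    rcases h2 with h2 | h2
    · exact h2
    · exfalso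
      obtain ⟨t, ht, htx⟩ := hy
      obtain ⟨t', ht', htx'⟩ := hy'
      exact not_both hc2 hH2 hH3 (H.mul_mem hkH ht) (by rw [mul_smul, htx, h2]) ht' htx'
  rw [← cnt_smul k x y, h1, h3]

include hc hc2 hcf hH1 hH2 hH3 in
/-- **Double transitivity is sufficient.** -/
theorem dlF_of_dbl [MulAction.IsPretransitive G X] (hD : Dbl X c) (x y : X) {g g' : G}
    (h : Subgroup.zpowers g = Subgroup.zpowers g') : dlF c x y g = dlF c x y g' := by
  have hcc : ∀ x : X, c • (c • x) = x := fun x => by rw [← mul_smul, hc2, one_smul]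
  have key : ∀ y ∈ Orb H x, ∀ {g g' : G}, Subgroup.zpowers g = Subgroup.zpowers g' →
      cnt x y g = cnt x y g' := by
    intro y hy g g' h
    by_cases hyx : y = x
    · rw [hyx]
      exact cnt_self_zpowers x h
    have h1 : ∀ g : G, cnt x x g + ((Orb H x).erase x).card * cnt x y g =
        if g ∈ H then Fintype.card G else 0 := by
      intro g
      rw [← sum_Orb hc hH1 hH3 x g, ← Finset.add_sum_erase _ _ (self_mem_Orb x), ← smul_eq_mul,
        ← Finset.sum_const]
      congr 1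
      refine Finset.sum_congr rfl (fun y' hy' => ?_)
      rw [Finset.mem_erase] at hy'
      exact cnt_const_of_dbl hc hc2 hH1 hH2 hH3 hD hcf hy hy'.2 hyx hy'.1 g
    have h2 := h1 g
    have h3 := h1 g'
    rw [cnt_self_zpowers x h] at h2
    have h4 : (if g ∈ H then Fintype.card G else 0) = if g' ∈ H then Fintype.card G else 0 := by
      simp only [mem_iff_of_zpowers (H := H) h]
    rw [h4, ← h3] at h2
    have h5 : 0 < ((Orb H x).erase x).card :=
      Finset.card_pos.mpr ⟨y, Finset.mem_erase.mpr ⟨hyx, hy⟩⟩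
    exact Nat.eq_of_mul_eq_mul_left h5 (Nat.add_left_cancel h2)
  have key2 : ∀ y ∈ Orb H x, dlF c x y g = dlF c x y g' := by
    intro y hy
    rw [dlF_eq hc hc2, dlF_eq hc hc2, key y hy h, key y hy (zpowers_c hc hc2 h)]
  rcases rel_or hc2 hH1 x y with h1 | h1
  · exact key2 y ((mem_Orb x y).mpr h1)
  · have h2 := key2 (c • y) ((mem_Orb x _).mpr h1)
    rw [dlF_c hc2, dlF_c hc2, neg_inj] at h2
    exact h2

include hc hc2 hH1 hH2 hH3 in
lemma cnt_const_of_hmg (hD : Hmg X c) {x y x' y' : X} (hy : y ∈ Orb H x) (hx' : x' ∈ Orb H x)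
    (hy' : y' ∈ Orb H x) (hyx : y ≠ x) (hyx' : y' ≠ x') (g : G) :
    cnt x y g + cnt y x g = cnt x' y' g + cnt y' x' g := by
  have hcc : ∀ x : X, c • (c • x) = x := fun x => by rw [← mul_smul, hc2, one_smul]
  have hne : ∀ a z : X, a ∈ Orb H x → z ∈ Orb H x → z ≠ c • a := by
    intro a z ha hz h
    rw [mem_Orb] at ha hz
    obtain ⟨t, ht, hta⟩ := ha
    obtain ⟨k, hk, hkz⟩ := hz
    exact not_both hc2 hH2 hH3 hk (by rw [hkz, h]) ht hta
  have hx := self_mem_Orb (H := H) x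
  obtain ⟨k, h1⟩ := hD x y x' y' hyx (hne x y hx hy) hyx' (hne x' y' hx' hy')
  -- an element of `H`
  obtain ⟨k, hk, h1⟩ : ∃ k ∈ H, ((k • x = x' ∨ k • x = c • x') ∧ (k • y = y' ∨ k • y = c • y')) ∨
      ((k • x = y' ∨ k • x = c • y') ∧ (k • y = x' ∨ k • y = c • x')) := by
    rcases hH1 k with h | h
    · exact ⟨k, h, h1⟩
    · refine ⟨c * k, h, ?_⟩
      have e : ∀ a b : X, ((c * k) • a = b ∨ (c * k) • a = c • b) ↔
          (k • a = b ∨ k • a = c • b) := by
        intro a b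
        rw [mul_smul]
        constructor
        · rintro (h | h)
          · right; rw [← h, hcc]
          · left; exact (MulAction.injective c) h
        · rintro (h | h)
          · right; rw [h]
          · left; rw [h, hcc]
      rw [e, e, e, e]
      exact h1
  have hmap : ∀ a b : X, a ∈ Orb H x → b ∈ Orb H x → (k • a = b ∨ k • a = c • b) →
      k • a = b := by
    intro a b ha hb h
    rcases h with h | h
    · exact h
    · exfalso
      refine hne b (k • a) hb ?_ h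
      rw [mem_Orb] at ha ⊢
      obtain ⟨t, ht, hta⟩ := ha
      exact ⟨k * t, H.mul_mem hk ht, by rw [mul_smul, hta]⟩
  rcases h1 with ⟨h1, h2⟩ | ⟨h1, h2⟩
  · rw [← hmap x x' hx hx' h1, ← hmap y y' hy hy' h2, cnt_smul, cnt_smul]
  · rw [← hmap x y' hx hy' h1, ← hmap y x' hy hx' h2, cnt_smul, cnt_smul, add_comm]

include hc hc2 hcf hH1 hH2 hH3 in
/-- **Double homogeneity is sufficient.** -/
theorem dlF_of_hmg [MulAction.IsPretransitive G X] (hD : Hmg X c) (x y : X) {g g' : G}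
    (h : Subgroup.zpowers g = Subgroup.zpowers g') :
    dlF c x y g + dlF c y x g = dlF c x y g' + dlF c y x g' := by
  have hcc : ∀ x : X, c • (c • x) = x := fun x => by rw [← mul_smul, hc2, one_smul]
  have key : ∀ y ∈ Orb H x, y ≠ x → ∀ {g g' : G}, Subgroup.zpowers g = Subgroup.zpowers g' →
      cnt x y g + cnt y x g = cnt x y g' + cnt y x g' := by
    intro y hy hyx g g' h
    set S := Orb H x with hS
    set n := (∑ a ∈ S, (S.erase a).card) with hn
    have h1 : ∀ g : G, 2 * ∑ a ∈ S, cnt a a g + n * (cnt x y g + cnt y x g) =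
        2 * (S.card * if g ∈ H then Fintype.card G else 0) := by
      intro g
      have h2 : ∑ a ∈ S, ∑ b ∈ S, cnt a b g = S.card * if g ∈ H then Fintype.card G else 0 := by
        rw [← smul_eq_mul, ← Finset.sum_const]
        refine Finset.sum_congr rfl (fun a ha => ?_)
        rw [← sum_Orb hc hH1 hH3 a g, Orb_eq ha]
      have h3 : ∑ a ∈ S, ∑ b ∈ S, (cnt a b g + cnt b a g) = 2 * ∑ a ∈ S, ∑ b ∈ S, cnt a b g := by
        simp only [Finset.sum_add_distrib]
        rw [two_mul]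
        congr 1
        exact Finset.sum_comm
      have h4 : ∀ a ∈ S, ∑ b ∈ S, (cnt a b g + cnt b a g) =
          2 * cnt a a g + (S.erase a).card * (cnt x y g + cnt y x g) := by
        intro a ha
        rw [← Finset.add_sum_erase S _ ha, two_mul, ← smul_eq_mul (a := (S.erase a).card),
          ← Finset.sum_const]
        congr 1
        refine Finset.sum_congr rfl (fun b hb => ?_)
        rw [Finset.mem_erase] at hb
        exact (cnt_const_of_hmg hc hc2 hH1 hH2 hH3 hD hy ha hb.2 hyx hb.1 g).symm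
      rw [← h2, ← h3, Finset.sum_congr rfl h4, Finset.sum_add_distrib, Finset.mul_sum, hn,
        Finset.sum_mul]
    have h2 := h1 g
    have h3 := h1 g'
    have h5 : ∑ a ∈ S, cnt a a g = ∑ a ∈ S, cnt a a g' :=
      Finset.sum_congr rfl (fun a _ => cnt_self_zpowers a h)
    have h4 : (if g ∈ H then Fintype.card G else 0) = if g' ∈ H then Fintype.card G else 0 := by
      simp only [mem_iff_of_zpowers (H := H) h]
    rw [h5, h4, ← h3] at h2
    have h6 : 0 < n := by
      rw [hn]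
      refine Finset.sum_pos' (fun _ _ => Nat.zero_le _) ⟨x, self_mem_Orb x, ?_⟩
      exact Finset.card_pos.mpr ⟨y, Finset.mem_erase.mpr ⟨hyx, hy⟩⟩
    exact Nat.eq_of_mul_eq_mul_left h6 (Nat.add_left_cancel h2)
  have key2 : ∀ y ∈ Orb H x, dlF c x y g + dlF c y x g = dlF c x y g' + dlF c y x g' := by
    intro y hy
    by_cases hyx : y = x
    · rw [hyx, dlF_self hc hc2 x h]
    rw [dlF_eq hc hc2, dlF_eq hc hc2, dlF_eq hc hc2, dlF_eq hc hc2]
    have h1 := key y hy hyx h
    have h2 := key y hy hyx (zpowers_c hc hc2 h)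
    have h3 : (cnt x y g : ℚ) + cnt y x g = cnt x y g' + cnt y x g' := by exact_mod_cast h1
    have h4 : (cnt x y (c * g) : ℚ) + cnt y x (c * g) = cnt x y (c * g') + cnt y x (c * g') := by
      exact_mod_cast h2
    linarith
  rcases rel_or hc2 hH1 x y with h1 | h1
  · exact key2 y ((mem_Orb x y).mpr h1)
  · have h2 := key2 (c • y) ((mem_Orb x _).mpr h1)
    have h3 : ∀ g, dlF c (c • y) x g = - dlF c y x g := by
      intro g
      have := dlF_cc hc y (c • x) g
      rw [hcc, dlF_c hc2] at this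
      exact this
    rw [dlF_c hc2, dlF_c hc2, h3, h3] at h2
    linarith

/-! ### the commutator subgroup -/

omit [Fintype G] in
include hc hH1 in
lemma commutator_le_sub : commutator G ≤ H := by
  rw [commutator_def, Subgroup.commutator_le]
  intro a _ b _
  have e1 : ∀ a b : G, ⁅c * a, b⁆ = ⁅a, b⁆ := by
    intro a b
    rw [commutatorElement_def, commutatorElement_def, mul_inv_rev]
    have h1 : c * a * b * (a⁻¹ * c⁻¹) * b⁻¹ = c * (a * b * a⁻¹) * c⁻¹ * b⁻¹ := by group
    rw [h1, hc (a * b * a⁻¹), mul_inv_cancel_right]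
  have e2 : ∀ a b : G, ⁅a, c * b⁆ = ⁅a, b⁆ := by
    intro a b
    rw [← commutatorElement_inv, e1, commutatorElement_inv]
  have key : ∀ a b : G, a ∈ H → b ∈ H → ⁅a, b⁆ ∈ H := by
    intro a b ha hb
    rw [commutatorElement_def]
    exact H.mul_mem (H.mul_mem (H.mul_mem ha hb) (H.inv_mem ha)) (H.inv_mem hb)
  rcases hH1 a with ha | ha <;> rcases hH1 b with hb | hb
  · exact key a b ha hb
  · rw [← e2]; exact key _ _ ha hb
  · rw [← e1]; exact key _ _ ha hb
  · rw [← e1, ← e2]; exact key _ _ ha hb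

omit [Fintype G] in
include hc hc2 hcf hH2 hH3 in
/-- a normal subgroup contained in `H` is transitive on the pairs or acts trivially. -/
lemma normal_cases [MulAction.IsPretransitive G X] {p : ℕ} (hp : p.Prime)
    (hX : Fintype.card X = 2 * p) {N : Subgroup G} [hNn : N.Normal] (hNH : N ≤ H) :
    (∀ x y : X, ∃ n ∈ N, n • x = y ∨ n • x = c • y) ∨ ∀ n ∈ N, ∀ x : X, n • x = x := by
  have hcc : ∀ x : X, c • (c • x) = x := fun x => by rw [← mul_smul, hc2, one_smul]
  have hZ : (Subgroup.zpowers c).Normal := ⟨fun n hn g => by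
    obtain ⟨i, rfl⟩ := Subgroup.mem_zpowers_iff.mp hn
    have h1 : g * c ^ i * g⁻¹ = c ^ i := by
      rw [← ((show Commute c g from hc g).zpow_left i).eq, mul_inv_cancel_right]
    rw [h1]
    exact hn⟩
  have hmemc : ∀ g ∈ Subgroup.zpowers c, g = 1 ∨ g = c := by
    intro g hg
    obtain ⟨i, rfl⟩ := Subgroup.mem_zpowers_iff.mp hg
    have h2 : c ^ (2 : ℤ) = 1 := by rw [zpow_ofNat, pow_two, hc2]
    rcases Int.even_or_odd' i with ⟨t, rfl | rfl⟩
    · left
      rw [zpow_mul, h2, one_zpow]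
    · right
      rw [zpow_add, zpow_mul, h2, one_zpow, one_mul, zpow_one]
  set N' : Subgroup G := N ⊔ Subgroup.zpowers c with hN'
  have hmem : ∀ g ∈ N', g ∈ N ∨ ∃ n ∈ N, g = c * n := by
    intro g hg
    rw [hN', Subgroup.mem_sup_of_normal_left] at hg
    obtain ⟨n, hn, z, hz, rfl⟩ := hg
    rcases hmemc z hz with rfl | rfl
    · left
      rw [mul_one]
      exact hn
    · right
      exact ⟨n, hn, (hc n).symm⟩
  have hcN' : c ∈ N' := (le_sup_right : _ ≤ N') (Subgroup.mem_zpowers c)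
  have hNN' : N ≤ N' := le_sup_left
  have hneX : Nonempty X := by
    rw [← Fintype.card_pos_iff, hX]
    have := hp.pos
    omega
  obtain ⟨x₀⟩ := hneX
  set B : Set X := MulAction.orbit N' x₀ with hB
  set B₀ : Set X := MulAction.orbit N x₀ with hB₀
  have hblock : MulAction.IsBlock G B := MulAction.IsBlock.orbit_of_normal x₀
  have hneB : B.Nonempty := ⟨x₀, MulAction.mem_orbit_self x₀⟩
  have hdvd : B.ncard ∣ Nat.card X := hblock.ncard_dvd_card hneB
  rw [Nat.card_eq_fintype_card, hX] at hdvd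
  have hunion : B = B₀ ∪ (fun x => c • x) '' B₀ := by
    ext z
    constructor
    · rintro ⟨⟨g, hg⟩, rfl⟩
      rcases hmem g hg with h | ⟨n, hn, rfl⟩
      · left
        exact ⟨⟨g, h⟩, rfl⟩
      · right
        exact ⟨n • x₀, ⟨⟨n, hn⟩, rfl⟩, (mul_smul c n x₀).symm⟩
    · rintro (⟨⟨g, hg⟩, rfl⟩ | ⟨_, ⟨⟨g, hg⟩, rfl⟩, rfl⟩)
      · exact ⟨⟨g, hNN' hg⟩, rfl⟩
      · exact ⟨⟨c * g, N'.mul_mem hcN' (hNN' hg)⟩, mul_smul c g x₀⟩
  have hdisj : Disjoint B₀ ((fun x => c • x) '' B₀) := by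
    rw [Set.disjoint_left]
    rintro _ ⟨⟨g, hg⟩, rfl⟩ ⟨_, ⟨⟨k, hk⟩, rfl⟩, h⟩
    exact not_both hc2 hH2 hH3 (hNH hg) (show g • x₀ = c • (k • x₀) from h.symm) (hNH hk) rfl
  have hcard : B.ncard = 2 * B₀.ncard := by
    rw [hunion, Set.ncard_union_eq hdisj (Set.toFinite _) (Set.toFinite _),
      Set.ncard_image_of_injective _ (MulAction.injective c), two_mul]
  rw [hcard] at hdvd
  have hdvd' : B₀.ncard ∣ p := Nat.dvd_of_mul_dvd_mul_left (by norm_num) hdvd
  rcases (Nat.dvd_prime hp).mp hdvd' with h1 | h1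
  · right
    intro n hn x
    obtain ⟨g, rfl⟩ := MulAction.exists_smul_eq G x₀ x
    have h2 : g⁻¹ * n * g ∈ N := by
      have := hNn.conj_mem n hn g⁻¹
      rwa [inv_inv] at this
    have h3 : (g⁻¹ * n * g) • x₀ = x₀ := by
      obtain ⟨a, ha⟩ := Set.ncard_eq_one.mp h1
      have h4 : x₀ ∈ B₀ := MulAction.mem_orbit_self x₀
      have h5 : (g⁻¹ * n * g) • x₀ ∈ B₀ := ⟨⟨_, h2⟩, rfl⟩
      rw [ha, Set.mem_singleton_iff] at h4 h5
      rw [h5, ← h4]
    rw [mul_assoc, mul_smul, inv_smul_eq_iff, mul_smul] at h3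
    exact h3
  · left
    have h2 : B = Set.univ := by
      rw [h1] at hcard
      refine Set.eq_of_subset_of_ncard_le (Set.subset_univ _) ?_ (Set.toFinite _)
      rw [hcard, Set.ncard_univ, Nat.card_eq_fintype_card, hX]
    have h3 : ∀ y : X, ∃ n ∈ N', n • x₀ = y := by
      intro y
      have : y ∈ B := h2 ▸ Set.mem_univ y
      obtain ⟨⟨n, hn⟩, h⟩ := this
      exact ⟨n, hn, h⟩
    intro x y
    obtain ⟨a, ha, hax⟩ := h3 x
    obtain ⟨b, hb, hby⟩ := h3 y
    have h4 : (b * a⁻¹) • x = y := by rw [mul_smul, ← hax, inv_smul_smul, hby]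
    rcases hmem _ (N'.mul_mem hb (N'.inv_mem ha)) with h5 | ⟨n, hn, h5⟩
    · exact ⟨_, h5, Or.inl h4⟩
    · refine ⟨n, hn, Or.inr ?_⟩
      rw [← h4, h5, mul_smul, hcc]

end

end Pool.Agent.Run7.h333.CZ
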